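import Pool.Agent.Lib.MP_10e784_ag.EL.ELCor

/-!
MP_10e784_ag, everywhere locally soluble quadratic twists of hyperelliptic curves, quadratic factors allowed.
Definitions.  `TW.Fam g`: the `g i` are different monic polynomials in `ℤ[X]`, irreducible over `ℚ`, of even total degree at
least six; `TW.qq g` is `g` over `ℚ`; `EL.RP g` the primes modulo which some `g i` has a root, `EL.TT g x = ∑_{p ≤ x, p ∈ RP g} 1 / p`.
-/

set_option autoImplicit false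

namespace EN

open Polynomial Finset TW EL

/-- for each quadratic member `g i` there is a member `g l` such that `g i` has no root in the field `ℚ[X] / (g l)` -/
def NoNorm {ι : Type} (g : ι → ℤ[X]) : Prop :=
  ∀ i, (g i).natDegree = 2 → ∃ l, ∀ h : ℚ[X], ¬ qq (g l) ∣ (qq (g i)).comp h

/-- the primes modulo which `g₂` has a root and `g₁` has none -/
def Inr (g₁ g₂ : ℤ[X]) : Set ℕ := {p | 1 ≤ PT.rt g₂ p ∧ PT.rt g₁ p = 0}

/-- the bound `2 * 2 ^ ((log_2 N) ^ (1 - 1/K))` for the small part of `D` -/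
noncomputable def zN (K N : ℕ) : ℝ := 2 * (2 : ℝ) ^ ((Real.log N / Real.log 2) ^ (1 - 1 / (K : ℝ)) : ℝ)

/-- an ideal of `ℚ[X][Y]`: the combinations of `g₂(X)` and `g₁(Y)` -/
def Rel (g₁ g₂ : ℤ[X]) (F : ℚ[X][X]) : Prop := ∃ a b : ℚ[X][X], F = C (qq g₂) * a + (qq g₁).map C * b

/-- `P(U(X) + V(X) Y)` -/
noncomputable def bi (P U V : ℚ[X]) : ℚ[X][X] := P.eval₂ (C.comp C) (C U + C V * X)

/-- the data of a twist `D` with a rational point (from `TW.desc`) -/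
def Dat {ι : Type} [Fintype ι] (g : ι → ℤ[X]) (C₀ : ℝ) (M : ℕ) (D : ℤ) (g0 : ℤ) (e : ι → ℕ) (x : Co g → ℤ) : Prop :=
  g0.natAbs ∣ M ∧ D = g0 * ∏ i, (e i : ℤ) ∧ Squarefree (∏ i, e i) ∧
    (∀ p : ℕ, p.Prime → p ∣ ∏ i, e i → ¬ p ∣ M) ∧
    (∀ c : Co g, |(x c : ℝ)| ≤ C₀ * (e c.1 : ℝ) ^ ((1 : ℝ) / (g c.1).natDegree)) ∧
    Loc g M x ∧
    (∀ p : ℕ, p.Prime → ¬ p ∣ M → ∀ i, (p ∣ e i ↔ ∃ h : (ZMod p)[X], h.Monic ∧ Irreducible h ∧ h ∣ red p (g i) ∧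
      h ∣ pol g (fun c => (x c : ZMod p)) i))

/-- the largest coordinates do not belong to a single quadratic member -/
def GdJ {ι : Type} (g : ι → ℤ[X]) (K : ℕ) (j : ι → ℕ) : Prop :=
  ∃ i₀, (∀ i, j i ≤ j i₀) ∧ (3 ≤ (g i₀).natDegree ∨ ∃ i₁, i₁ ≠ i₀ ∧ (j i₀ : ℝ) ^ (1 - 1 / (K : ℝ)) ≤ j i₁)

end EN
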