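import Pool.Agent.Lib.MP_10e784_agN2.N0

/-!
LEAF N1 (easy+).  COPY of `Lib/MP_10e784_ag/EL/ELFib.lean` (theorem `EL.fib_rel` and its private lemmas), with the hypothesis
`3 ≤ dg g I` for the set `I` (instead of `I.Nonempty` and `h3 : ∀ i, 3 ≤ (g i).natDegree`).

Changes: `elfib_three` is not needed (`3 ≤ dg g I` is the hypothesis); `I.Nonempty` follows from `3 ≤ dg g I` (for `I = ∅` the sum
`dg g I` is `0`); in `elfib_kap` replace `h3, hI` by `hm3 : 3 ≤ dg g I`.  Nothing else used `h3`.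
Private lemmas: prefix `N1_`.
-/

set_option autoImplicit false

namespace EN

open Polynomial Finset TW EL

private theorem N1_bern (x : ℝ) (hx0 : 0 ≤ x) (hx1 : x ≤ 1) (r : ℕ) :
    (1 - x) ^ r ≤ 1 - r * x + (r : ℝ) ^ 2 * x ^ 2 := by
  induction r with
  | zero => simp
  | succ r ih =>
    have h1 : (1 - x) ^ (r + 1) ≤ (1 - r * x + (r : ℝ) ^ 2 * x ^ 2) * (1 - x) := by
      rw [pow_succ]
      exact mul_le_mul_of_nonneg_right ih (by linarith)
    have hr : (0 : ℝ) ≤ r := Nat.cast_nonneg r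
    have hx2 : 0 ≤ x ^ 2 := by positivity
    have hx3 : 0 ≤ (r : ℝ) ^ 2 * x ^ 3 := by positivity
    have hx4 : 0 ≤ (r : ℝ) * x ^ 2 := by positivity
    push_cast
    nlinarith

private theorem N1_pow1 (n : ℕ) (hn : 1 ≤ n) : (n : ℝ) ≤ 2 ^ (n - 1) := by
  obtain ⟨k, rfl⟩ : ∃ k, n = k + 1 := ⟨n - 1, by omega⟩
  have : k + 1 ≤ 2 ^ k := Nat.lt_two_pow_self
  simp only [Nat.add_sub_cancel]
  exact_mod_cast this

private theorem N1_pow2 (n : ℕ) : 2 * (n : ℝ) ≤ 2 ^ n := by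
  induction n with
  | zero => simp
  | succ k ih =>
    rcases Nat.eq_zero_or_pos k with h | h
    · subst h; norm_num
    · have h1 : (1 : ℝ) ≤ k := by exact_mod_cast h
      rw [pow_succ]
      push_cast
      linarith

private theorem N1_pow3 (n : ℕ) (hn : 4 ≤ n) : 2 * (n : ℝ) ≤ 2 ^ (n - 1) := by
  obtain ⟨k, rfl⟩ : ∃ k, n = k + 4 := ⟨n - 4, by omega⟩
  have e : k + 4 - 1 = k + 3 := by omega
  rw [e, pow_add]
  have h1 : (1 : ℝ) + k ≤ 2 ^ k := by
    have : k + 1 ≤ 2 ^ k := Nat.lt_two_pow_self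
    have h2 : ((k + 1 : ℕ) : ℝ) ≤ 2 ^ k := by exact_mod_cast this
    push_cast at h2
    linarith
  have hk : (0 : ℝ) ≤ k := Nat.cast_nonneg k
  push_cast
  nlinarith

private theorem N1_pow4 (n : ℕ) (hn : 3 ≤ n) : (n : ℝ) ≤ 3 / 4 * 2 ^ (n - 1) := by
  obtain ⟨k, rfl⟩ : ∃ k, n = k + 3 := ⟨n - 3, by omega⟩
  have e : k + 3 - 1 = k + 2 := by omega
  rw [e, pow_add]
  have h1 : (1 : ℝ) + k ≤ 2 ^ k := by
    have : k + 1 ≤ 2 ^ k := Nat.lt_two_pow_self
    have h2 : ((k + 1 : ℕ) : ℝ) ≤ 2 ^ k := by exact_mod_cast this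
    push_cast at h2
    linarith
  have hk : (0 : ℝ) ≤ k := Nat.cast_nonneg k
  push_cast
  nlinarith

private theorem N1_pow5 (n : ℕ) (hn : 6 ≤ n) : 2 * (n : ℝ) ≤ 3 / 4 * 2 ^ (n - 1) := by
  obtain ⟨k, rfl⟩ : ∃ k, n = k + 6 := ⟨n - 6, by omega⟩
  have e : k + 6 - 1 = k + 5 := by omega
  rw [e, pow_add]
  have h1 : (1 : ℝ) + k ≤ 2 ^ k := by
    have : k + 1 ≤ 2 ^ k := Nat.lt_two_pow_self
    have h2 : ((k + 1 : ℕ) : ℝ) ≤ 2 ^ k := by exact_mod_cast this
    push_cast at h2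
    linarith
  have hk : (0 : ℝ) ≤ k := Nat.cast_nonneg k
  push_cast
  nlinarith

/-- the numerical heart -/
private theorem N1_core (N m r v : ℕ) (κ p e i : ℝ) (hN : 1 ≤ N) (hp : 8 * (N : ℝ) ^ 2 ≤ p) (hrv : r ≤ v) (hvm : v ≤ m)
    (hmN : m ≤ N) (hv : 2 ≤ v ∨ v = 1 ∧ r = 0 ∧ i = 0) (he0 : 0 ≤ e) (hi1 : i ≤ 1)
    (hκ : κ * r ≤ (e - i / 4) * 2 ^ (v - 1)) :
    max (p ^ m * (1 - 1 / p) ^ r + κ * r * (p ^ m / (p * 2 ^ (v - 1)))) (2 * (p ^ m / 2 ^ v)) ≤
      p ^ m * (1 - (((r : ℝ) - e + i / 4) / p - (N : ℝ) ^ 2 / p ^ 2)) := by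
  have hN' : (1 : ℝ) ≤ N := by exact_mod_cast hN
  have hp8 : (8 : ℝ) ≤ p := by nlinarith
  have hp0 : (0 : ℝ) < p := by linarith
  have hP : (0 : ℝ) < p ^ m := by positivity
  have hrN : (r : ℝ) ≤ N := by exact_mod_cast (hrv.trans hvm).trans hmN
  have hr0 : (0 : ℝ) ≤ r := Nat.cast_nonneg r
  set x : ℝ := 1 / p with hx
  have hx0 : 0 ≤ x := by positivity
  have hx1 : x ≤ 1 := by
    rw [hx, div_le_one hp0]; linarith
  have hbern := N1_bern x hx0 hx1 r
  have hr2 : (r : ℝ) ^ 2 * x ^ 2 ≤ (N : ℝ) ^ 2 * x ^ 2 := by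
    apply mul_le_mul_of_nonneg_right _ (by positivity)
    exact pow_le_pow_left₀ hr0 hrN 2
  have hrhs : (1 - (((r : ℝ) - e + i / 4) / p - (N : ℝ) ^ 2 / p ^ 2)) = 1 - ((r : ℝ) - e + i / 4) * x + (N : ℝ) ^ 2 * x ^ 2 := by
    rw [hx]; field_simp; ring
  rw [hrhs]
  have h11 : 0 ≤ (N : ℝ) ^ 2 * x ^ 2 := by positivity
  apply max_le
  · have h2 : κ * r * (p ^ m / (p * 2 ^ (v - 1))) ≤ p ^ m * ((e - i / 4) * x) := by
      have h3 : κ * r * (p ^ m / (p * 2 ^ (v - 1))) = (κ * r) * (p ^ m * x / 2 ^ (v - 1)) := by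
        rw [hx]; field_simp
      have h4 : p ^ m * ((e - i / 4) * x) = ((e - i / 4) * 2 ^ (v - 1)) * (p ^ m * x / 2 ^ (v - 1)) := by
        field_simp
      rw [h3, h4]
      exact mul_le_mul_of_nonneg_right hκ (by positivity)
    have h5 : p ^ m * (1 - x) ^ r ≤ p ^ m * (1 - r * x + (N : ℝ) ^ 2 * x ^ 2) := by
      apply mul_le_mul_of_nonneg_left _ hP.le
      linarith
    calc _ ≤ p ^ m * (1 - r * x + (N : ℝ) ^ 2 * x ^ 2) + p ^ m * ((e - i / 4) * x) := add_le_add h5 h2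
      _ = _ := by ring
  · rcases hv with hv | ⟨hv, hr, hi⟩
    · have h6 : (4 : ℝ) ≤ 2 ^ v := by
        calc (4 : ℝ) = 2 ^ 2 := by norm_num
          _ ≤ 2 ^ v := pow_le_pow_right₀ (by norm_num) hv
      have h7 : 2 * (p ^ m / 2 ^ v) ≤ p ^ m * (1 / 2) := by
        have : p ^ m / 2 ^ v ≤ p ^ m / 4 := div_le_div_of_nonneg_left hP.le (by norm_num) h6
        linarith
      refine h7.trans (mul_le_mul_of_nonneg_left ?_ hP.le)
      have h8 : (N : ℝ) * x ≤ 1 / 8 := by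
        rw [hx, mul_one_div, div_le_iff₀ hp0]
        nlinarith
      have h9 : (r : ℝ) * x ≤ 1 / 8 := (mul_le_mul_of_nonneg_right hrN hx0).trans h8
      have h12 : x ≤ 1 / 8 := le_trans (le_mul_of_one_le_left hx0 hN') h8
      have h10 : ((r : ℝ) - e + i / 4) * x ≤ (r + 1) * x := mul_le_mul_of_nonneg_right (by linarith) hx0
      have h13 : ((r : ℝ) + 1) * x = r * x + x := by ring
      linarith
    · subst hv
      subst hr
      subst hi
      have h7 : 2 * (p ^ m / 2 ^ 1) = p ^ m * 1 := by ring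
      rw [h7]
      refine mul_le_mul_of_nonneg_left ?_ hP.le
      have h8 : 0 ≤ e * x := mul_nonneg he0 hx0
      have h9 : 1 - (((0 : ℕ) : ℝ) - e + 0 / 4) * x + (N : ℝ) ^ 2 * x ^ 2 = 1 + e * x + (N : ℝ) ^ 2 * x ^ 2 := by
        push_cast
        ring
      rw [h9]
      linarith

private theorem N1_deg {ι : Type} [Fintype ι] {g : ι → ℤ[X]} (hg : Fam g) (i : ι) : 1 ≤ (g i).natDegree := by
  by_contra h
  have h0 : (g i).natDegree = 0 := by omega
  have h1 : g i = 1 := (hg.monic i).natDegree_eq_zero.mp h0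
  have h2 := hg.irr i
  rw [h1] at h2
  simp at h2

private theorem N1_dg_le {ι : Type} [Fintype ι] (g : ι → ℤ[X]) (I : Finset ι) : dg g I ≤ ∑ i, (g i).natDegree :=
  Finset.sum_le_univ_sum_of_nonneg (fun _ => Nat.zero_le _)

/-- if `p` splits completely then every index has a factor of odd degree -/
private theorem N1_odd {ι : Type} [Fintype ι] {g : ι → ℤ[X]} (hg : Fam g) (p : ℕ) [Fact p.Prime] (hp : GoodP g p)
    (i : ι) (h : PT.rt (g i) p = (g i).natDegree) : ∃ f ∈ facs (red p (g i)), Odd f.natDegree := by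
  have h1 := rt_facs hg p hp i
  rw [h] at h1
  have h2 := N1_deg hg i
  have h3 : ((facs (red p (g i))).filter fun h => h.natDegree = 1).Nonempty := by
    rw [← Finset.card_pos, h1]; omega
  obtain ⟨f, hf⟩ := h3
  rw [Finset.mem_filter] at hf
  exact ⟨f, hf.1, by rw [hf.2]; exact odd_one⟩

private theorem N1_rts {ι : Type} (g : ι → ℤ[X]) (p : ℕ) (I : Finset ι)
    (h : ∀ i, PT.rt (g i) p = (g i).natDegree) : rts g I p = dg g I :=
  Finset.sum_congr rfl fun i _ => h i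

/-- parity of the complement -/
private theorem N1_par {ι : Type} [Fintype ι] [DecidableEq ι] {g : ι → ℤ[X]} (hg : Fam g) (p : ℕ) [Fact p.Prime]
    (hp : GoodP g p) (I : Finset ι) (h : ¬ ∃ i, i ∉ I ∧ ∃ f ∈ facs (red p (g i)), Odd f.natDegree) : Even (dg g I) := by
  have h1 : Even (dg g Iᶜ) := by
    apply parity hg p hp
    intro i hi f hf
    by_contra hne
    exact h ⟨i, Finset.mem_compl.mp hi, f, hf, Nat.not_even_iff_odd.mp hne⟩
  have h2 : dg g I + dg g Iᶜ = ∑ i, (g i).natDegree := Finset.sum_add_sum_compl I _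
  have h3 := hg.even
  rw [← h2] at h3
  exact (Nat.even_add.mp h3).mpr h1

private theorem N1_RP {ι : Type} [Fintype ι] (g : ι → ℤ[X]) (p : ℕ) (I : Finset ι) (h : 1 ≤ rts g I p) :
    p ∈ RP g := by
  have h1 : rts g I p ≤ rts g univ p := Finset.sum_le_sum_of_subset (Finset.subset_univ I)
  exact h.trans h1

private theorem N1_ne {ι : Type} {g : ι → ℤ[X]} {I : Finset ι} (h : 3 ≤ dg g I) : I.Nonempty := by
  rcases I.eq_empty_or_nonempty with h0 | h0
  · rw [h0] at h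
    unfold dg at h
    rw [Finset.sum_empty] at h
    omega
  · exact h0

open Classical in
private theorem N1_kap {ι : Type} [Fintype ι] [DecidableEq ι] {g : ι → ℤ[X]} (hg : Fam g)
    (S : Set ℕ)
    (hS : ∀ p ∈ S, ∀ i, PT.rt (g i) p = (g i).natDegree) (p : ℕ) [Fact p.Prime] (hp : GoodP g p) (I : Finset ι)
    (hm3 : 3 ≤ dg g I) :
    (if ∃ i, i ∉ I ∧ ∃ f ∈ facs (red p (g i)), Odd f.natDegree then (1 : ℝ) else 2) * rts g I p ≤
      (PT.ind (RP g) p - PT.ind S p / 4) * 2 ^ (nu g p I - 1) := by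
  obtain ⟨hn1, hn2, hn3, hn4⟩ := nu_facts hg p hp I
  have hI1 : 1 ≤ I.card := Finset.card_pos.2 (N1_ne hm3)
  rcases Nat.eq_zero_or_pos (rts g I p) with h0 | h0
  · rw [h0]
    have hpS : p ∉ S := by
      intro hpS
      have h1 := N1_rts g p I (hS p hpS)
      omega
    have e : PT.ind S p = 0 := if_neg hpS
    have e' : 0 ≤ PT.ind (RP g) p := by unfold PT.ind; split_ifs <;> norm_num
    rw [e]
    push_cast
    rw [mul_zero]
    apply mul_nonneg (by linarith) (by positivity)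
  have e0 : PT.ind (RP g) p = 1 := if_pos (N1_RP g p I h0)
  rw [e0]
  by_cases hodd : ∃ i, i ∉ I ∧ ∃ f ∈ facs (red p (g i)), Odd f.natDegree
  · rw [if_pos hodd, one_mul]
    by_cases hpS : p ∈ S
    · have e : PT.ind S p = 1 := if_pos hpS
      have h1 := N1_rts g p I (hS p hpS)
      have h2 : nu g p I = dg g I := by omega
      rw [e, h1, h2]
      have := N1_pow4 (dg g I) hm3
      linarith
    · have e : PT.ind S p = 0 := if_neg hpS
      rw [e]
      have h1 := N1_pow1 (nu g p I) (by omega)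
      have h2 : (rts g I p : ℝ) ≤ nu g p I := by exact_mod_cast hn1
      linarith
  · rw [if_neg hodd]
    have hev := N1_par hg p hp I hodd
    have hm4 : 4 ≤ dg g I := by
      rcases Nat.lt_or_ge (dg g I) 4 with h | h
      · have h3 : dg g I = 3 := by omega
        rw [h3] at hev
        obtain ⟨k, hk⟩ := hev
        omega
      · exact h
    by_cases hpS : p ∈ S
    · have e : PT.ind S p = 1 := if_pos hpS
      have h1 := N1_rts g p I (hS p hpS)
      have h2 : nu g p I = dg g I := by omega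
      have hI' : I = univ := by
        apply Finset.eq_univ_of_forall
        intro i
        by_contra hi
        exact hodd ⟨i, hi, N1_odd hg p hp i (hS p hpS i)⟩
      have h6 : 6 ≤ dg g I := by
        rw [hI']; exact hg.six
      rw [e, h1, h2]
      have := N1_pow5 (dg g I) h6
      linarith
    · have e : PT.ind S p = 0 := if_neg hpS
      rw [e]
      by_cases hr : rts g I p = dg g I
      · have h2 : nu g p I = dg g I := by omega
        rw [hr, h2]
        have := N1_pow3 (dg g I) hm4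
        linarith
      · have h3 := hn3 hr
        have h4 := N1_pow2 (rts g I p)
        have h5 : (2 : ℝ) ^ (rts g I p) ≤ 2 ^ (nu g p I - 1) := pow_le_pow_right₀ (by norm_num) (by omega)
        linarith

theorem fib3 {ι : Type} [Fintype ι] [DecidableEq ι] {g : ι → ℤ[X]} (hg : Fam g)
    (S : Set ℕ) (hS : ∀ p ∈ S, ∀ i, PT.rt (g i) p = (g i).natDegree) :
    ∃ C0 : ℝ, 0 ≤ C0 ∧ ∀ p : ℕ, GoodP g p → ∀ I : Finset ι, 3 ≤ dg g I → ∀ y : Co g → ZMod p,
      (Nat.card {w : Co g → ZMod p // Al g p w ∧ ∀ c : Co g, c.1 ∉ I → w c = y c} : ℝ) ≤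
        (p : ℝ) ^ dg g I *
          (1 - (((rts g I p : ℝ) - PT.ind (RP g) p + PT.ind S p / 4) / p - C0 / (p : ℝ) ^ 2)) := by
  classical
  refine ⟨((∑ i, (g i).natDegree : ℕ) : ℝ) ^ 2, by positivity, ?_⟩
  intro p hp I hm3 y
  have : Fact p.Prime := ⟨hp.prime⟩
  obtain ⟨hn1, hn2, hn3, hn4⟩ := nu_facts hg p hp I
  refine (fib hg p hp I y).trans ?_
  have hbig : 8 * ((∑ i, (g i).natDegree : ℕ) : ℝ) ^ 2 ≤ p := by exact_mod_cast hp.big
  have hi1 : PT.ind S p ≤ 1 := by unfold PT.ind; split_ifs <;> norm_num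
  have he0 : 0 ≤ PT.ind (RP g) p := by unfold PT.ind; split_ifs <;> norm_num
  have h6 := hg.six
  have hI1 : 1 ≤ I.card := Finset.card_pos.2 (N1_ne hm3)
  have hv : 2 ≤ nu g p I ∨ nu g p I = 1 ∧ rts g I p = 0 ∧ PT.ind S p = 0 := by
    rcases Nat.lt_or_ge (nu g p I) 2 with h | h
    · right
      have h1 : rts g I p ≠ dg g I := by omega
      have h2 := hn3 h1
      refine ⟨by omega, by omega, ?_⟩
      refine if_neg ?_
      intro hpS
      exact h1 (N1_rts g p I (hS p hpS))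
    · exact Or.inl h
  exact N1_core (∑ i, (g i).natDegree) (dg g I) (rts g I p) (nu g p I) _ (p : ℝ) (PT.ind (RP g) p) (PT.ind S p)
    (by omega) hbig hn1 hn2 (N1_dg_le g I) hv he0 hi1 (N1_kap hg S hS p hp I hm3)

end EN
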