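import Pool.Agent.Lib.MP_10e784_agN2.N0
import Pool.Agent.Lib.MP_10e784_ag.TW.TWGen

/-!
LEAF N9 (medium-).  The hypotheses on `f` give the hypotheses on the family `g`.

`deg2`: `natDegree (g i) = natDegree (q i) ≥ 1` (`natDegree_qq`, `natDegree_scaleRoots`, `hFam.irr i`); if it is `1` then `q i = X - C r` (monic) divides `f`, so `f.eval r = 0`,
excluded.
`noNorm`: let `natDegree (g i) = 2`.  `q i` is irreducible (`qq (g i) = (q i).scaleRoots M` is, by `hFam.irr i`; if `q i = a * b` then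
`(q i).scaleRoots M = a.scaleRoots M * b.scaleRoots M` (`mul_scaleRoots_of_noZeroDivisors`) and degrees are preserved), divides `f`, natDegree 2.  By `hn` there is an
irreducible `r ∣ f` with `∀ h, ¬ r ∣ (q i).comp h`.  `r ∣ C c * ∏ q l`, `r` prime (`Irreducible.prime`), `C c` a unit, so `r ∣ q l` for some `l`, and `q l` is
irreducible, so `q l ∣ r` as well (`Irreducible.dvd_symm`).  Claim: `∀ h, ¬ qq (g l) ∣ (qq (g i)).comp h`.  Suppose `(q l).scaleRoots M ∣ ((q i).scaleRoots M).comp h`.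
Compose with `C M * X`: `((q l).scaleRoots M).comp (C M * X) = C (M ^ natDegree (q l)) * q l` (coefficients: `coeff_scaleRoots`; or `scaleRoots_comp..`), and
`((q i).scaleRoots M).comp w = C (M ^ 2) * (q i).comp (C M⁻¹ * w)` for every `w` (the same identity for `w = C M * (C M⁻¹ * w)`), here `w = h.comp (C M * X)`.  So
`q l ∣ (q i).comp (C M⁻¹ * h.comp (C M * X))` (units removed), so `r` divides it: contradiction.
Private lemmas: prefix `N9_`.
-/

set_option autoImplicit false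

namespace EN

open Polynomial Finset TW EL

private theorem N9_scale_inv (p : ℚ[X]) {M : ℚ} (hM : M ≠ 0) :
    (p.scaleRoots M).scaleRoots M⁻¹ = p := by
  rw [← scaleRoots_mul, mul_inv_cancel₀ hM, scaleRoots_one]

private theorem N9_scale_irr (p : ℚ[X]) (hp : Irreducible p) {M : ℚ} (hM : M ≠ 0) :
    Irreducible (p.scaleRoots M) := by
  have hn : 0 < (p.scaleRoots M).natDegree := by
    rw [natDegree_scaleRoots]
    exact hp.natDegree_pos
  have h0 : p.scaleRoots M ≠ 0 := scaleRoots_ne_zero hp.ne_zero M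
  refine ⟨fun h => ?_, fun a b hab => ?_⟩
  · rw [natDegree_eq_zero_of_isUnit h] at hn
    exact absurd hn (lt_irrefl 0)
  · have h1 : p = a.scaleRoots M⁻¹ * b.scaleRoots M⁻¹ := by
      rw [← mul_scaleRoots_of_noZeroDivisors, ← hab, N9_scale_inv p hM]
    have ha0 : a ≠ 0 := by
      rintro rfl
      rw [zero_mul] at hab
      exact h0 hab
    have hb0 : b ≠ 0 := by
      rintro rfl
      rw [mul_zero] at hab
      exact h0 hab
    have key : ∀ c : ℚ[X], c ≠ 0 → IsUnit (c.scaleRoots M⁻¹) → IsUnit c := by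
      intro c hc hu
      have h2 : c.natDegree = 0 := by
        rw [← natDegree_scaleRoots c M⁻¹]
        exact natDegree_eq_zero_of_isUnit hu
      rw [eq_C_of_natDegree_eq_zero h2]
      refine isUnit_C.2 (isUnit_iff_ne_zero.2 fun h3 => hc ?_)
      rw [eq_C_of_natDegree_eq_zero h2, h3, C_0]
    rcases hp.isUnit_or_isUnit h1 with h2 | h2
    · exact Or.inl (key a ha0 h2)
    · exact Or.inr (key b hb0 h2)

private theorem N9_irr {n : ℕ} (q : Fin n → ℚ[X]) (g : Fin n → ℤ[X]) (M : ℤ) (hM : M ≠ 0) (hFam : Fam g)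
    (hg : ∀ i, qq (g i) = (q i).scaleRoots (M : ℚ)) (i : Fin n) : Irreducible (q i) := by
  have hM' : (M : ℚ) ≠ 0 := Int.cast_ne_zero.2 hM
  have h1 : Irreducible ((q i).scaleRoots (M : ℚ)) := by
    rw [← hg i]
    exact hFam.irr i
  have h2 := N9_scale_irr _ h1 (inv_ne_zero hM')
  rwa [N9_scale_inv _ hM'] at h2

private theorem N9_deg {n : ℕ} (q : Fin n → ℚ[X]) (g : Fin n → ℤ[X]) (M : ℤ)
    (hg : ∀ i, qq (g i) = (q i).scaleRoots (M : ℚ)) (i : Fin n) : (g i).natDegree = (q i).natDegree := by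
  rw [← natDegree_qq, hg i, natDegree_scaleRoots]

private theorem N9_dvd {n : ℕ} (f : ℚ[X]) (q : Fin n → ℚ[X]) (c : ℚ) (hF : f = C c * ∏ i, q i) (i : Fin n) :
    q i ∣ f := by
  rw [hF]
  exact dvd_mul_of_dvd_right (Finset.dvd_prod_of_mem q (Finset.mem_univ i)) _

private theorem N9_comp (p w : ℚ[X]) {M : ℚ} (hM : M ≠ 0) :
    (p.scaleRoots M).comp w = C M ^ p.natDegree * p.comp (C M⁻¹ * w) := by
  have h := scaleRoots_eval₂_mul (p := p) (C : ℚ →+* ℚ[X]) (C M⁻¹ * w) M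
  have h1 : C M * (C M⁻¹ * w) = w := by
    rw [← mul_assoc, ← C_mul, mul_inv_cancel₀ hM, C_1, one_mul]
  rw [h1] at h
  exact h

theorem deg2 {n : ℕ} (f : ℚ[X]) (hroot : ∀ x : ℚ, f.eval x ≠ 0) (q : Fin n → ℚ[X]) (g : Fin n → ℤ[X]) (M : ℤ) (c : ℚ)
    (hM : M ≠ 0) (hc : c ≠ 0) (hFam : Fam g) (hmon : ∀ i, (q i).Monic) (hF : f = C c * ∏ i, q i)
    (hg : ∀ i, qq (g i) = (q i).scaleRoots (M : ℚ)) : ∀ i, 2 ≤ (g i).natDegree := by
  intro i
  rw [N9_deg q g M hg i]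
  have hirr := N9_irr q g M hM hFam hg i
  have h0 := hirr.natDegree_pos
  rcases Nat.lt_or_ge (q i).natDegree 2 with h | h
  · exfalso
    have h1 : (q i).natDegree = 1 := by omega
    have h2 := (hmon i).eq_X_add_C h1
    obtain ⟨r, hr⟩ := N9_dvd f q c hF i
    refine hroot (-(q i).coeff 0) ?_
    rw [hr, eval_mul, h2]
    simp
  · exact h

theorem noNorm {n : ℕ} (f : ℚ[X])
    (hn : ∀ q : ℚ[X], Irreducible q → q ∣ f → q.natDegree = 2 →
      ∃ r : ℚ[X], Irreducible r ∧ r ∣ f ∧ ∀ h : ℚ[X], ¬ r ∣ q.comp h)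
    (q : Fin n → ℚ[X]) (g : Fin n → ℤ[X]) (M : ℤ) (c : ℚ)
    (hM : M ≠ 0) (hc : c ≠ 0) (hFam : Fam g) (hmon : ∀ i, (q i).Monic) (hF : f = C c * ∏ i, q i)
    (hg : ∀ i, qq (g i) = (q i).scaleRoots (M : ℚ)) : NoNorm g := by
  intro i hi
  have hM' : (M : ℚ) ≠ 0 := Int.cast_ne_zero.2 hM
  rw [N9_deg q g M hg i] at hi
  obtain ⟨r, hr, hrf, hrh⟩ := hn (q i) (N9_irr q g M hM hFam hg i) (N9_dvd f q c hF i) hi
  rw [hF] at hrf
  have hex : ∃ l, r ∣ q l := by
    rcases hr.prime.dvd_or_dvd hrf with h1 | h1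
    · exfalso
      exact hr.not_isUnit (isUnit_of_dvd_unit h1 (isUnit_C.2 (isUnit_iff_ne_zero.2 hc)))
    · obtain ⟨l, _, hl⟩ := hr.prime.exists_mem_finset_dvd h1
      exact ⟨l, hl⟩
  obtain ⟨l, hl⟩ := hex
  refine ⟨l, fun h hd => hrh (C (M : ℚ)⁻¹ * h.comp (C (M : ℚ) * X)) (hl.trans ?_)⟩
  rw [hg, hg] at hd
  have h1 := map_dvd (compRingHom (C (M : ℚ) * X)) hd
  rw [coe_compRingHom_apply, coe_compRingHom_apply, comp_assoc, N9_comp _ _ hM', N9_comp _ _ hM'] at h1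
  have h2 : C (M : ℚ)⁻¹ * (C (M : ℚ) * X) = (X : ℚ[X]) := by
    rw [← mul_assoc, ← C_mul, inv_mul_cancel₀ hM', C_1, one_mul]
  have hu : ∀ k : ℕ, IsUnit (C (M : ℚ) ^ k) := fun k =>
    (isUnit_C.2 (isUnit_iff_ne_zero.2 hM')).pow k
  rw [h2, comp_X] at h1
  exact (hu _).dvd_mul_left.1 ((dvd_mul_left _ _).trans h1)

end EN
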