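import Pool.Agent.Lib.MP_10e784_agN2.N8
import Pool.Agent.Lib.MP_10e784_agN2.N9

/-!
LEAF N10 (easy+).  The final theorem.  COPY of `EL.fin` (file `Lib/MP_10e784_ag/EL/ELFin.lean`, with its private lemmas `elfin_finite`, `elfin_card_le`, `elfin_els`) and of
`EL.cor` (file `Lib/MP_10e784_ag/EL/ELCor.lean`, with its private lemmas): the hypothesis `h3` is replaced by `hroot` and `hn`; `h3'` by `deg2` and `noNorm` (N9) and `upper` by `upper3` (N8).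
`EL.low` is public and is used as it is.  (`gen_fam` wants: two rational roots are equal, immediate from `hroot`.)
Private lemmas: prefix `N10_`.
-/

set_option autoImplicit false

namespace EN

open Polynomial Finset TW EL

private theorem N10_elfin_finite (N : ℕ) (P : ℤ → Prop) (h : ∀ D, P D → |D| ≤ (N : ℤ)) : Finite {D : ℤ // P D} := by
  have h1 : {D : ℤ | P D} ⊆ ↑(Icc (-(N : ℤ)) N) := by
    intro D hD
    rw [Finset.coe_Icc, Set.mem_Icc]
    exact abs_le.1 (h D hD)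
  exact (Finset.finite_toSet _).subset h1

private theorem N10_elfin_card_le (N : ℕ) (P R : ℤ → Prop) (hR : ∀ D, R D → |D| ≤ (N : ℤ)) (h : ∀ D, P D → R D) :
    Nat.card {D : ℤ // P D} ≤ Nat.card {D : ℤ // R D} := by
  have := N10_elfin_finite N R hR
  refine Nat.card_le_card_of_injective (fun D : {D : ℤ // P D} => (⟨D.1, h D.1 D.2⟩ : {D : ℤ // R D})) ?_
  intro D D' hDD
  exact Subtype.ext (congrArg (fun x : {D : ℤ // R D} => x.1) hDD)

/-- a rational point is a point over all completions -/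
private theorem N10_elfin_els (f : ℚ[X]) (D : ℤ) (h : ∃ x y : ℚ, (D : ℚ) * y ^ 2 = f.eval x) : ELS f D := by
  obtain ⟨x, y, h⟩ := h
  have key : ∀ (K : Type) [Field K] [CharZero K], (D : K) * (y : K) ^ 2 = aeval (x : K) f := by
    intro K _ _
    have h1 : aeval (x : K) f = ((f.eval x : ℚ) : K) := by
      have h2 := Polynomial.aeval_algebraMap_apply K x f
      rw [eq_ratCast] at h2
      rw [h2, eq_ratCast]
      simp
    rw [h1, ← h]
    push_cast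
    ring
  exact ⟨⟨x, y, key ℝ⟩, fun p _ => ⟨x, y, key ℚ_[p]⟩⟩

private theorem N10_fin (f : ℚ[X]) (hf : Squarefree f) (hdeg : Even f.natDegree) (h6 : 6 ≤ f.natDegree)
    (hroot : ∀ x : ℚ, f.eval x ≠ 0)
    (hn : ∀ q : ℚ[X], Irreducible q → q ∣ f → q.natDegree = 2 →
      ∃ r : ℚ[X], Irreducible r ∧ r ∣ f ∧ ∀ h : ℚ[X], ¬ r ∣ q.comp h) :
    ∃ A δ : ℝ, 0 < δ ∧ ∀ N : ℕ, 2 ≤ N →
      (Nat.card {D : ℤ // Squarefree D ∧ |D| ≤ (N : ℤ) ∧ ∃ x y : ℚ, (D : ℚ) * y ^ 2 = f.eval x} : ℝ) ≤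
        A / Real.log N ^ δ * (Nat.card {D : ℤ // Squarefree D ∧ |D| ≤ (N : ℤ) ∧ ELS f D} : ℝ) := by
  obtain ⟨n, q, g, M, c, hM, hc, hFam, hmon, hF, hg⟩ := gen_fam f hf hdeg h6
    (fun x y hx _ => absurd hx (hroot x))
  have hden : (c.den : ℤ) ≠ 0 := by exact_mod_cast c.den_ne_zero
  have h2' : ∀ i, 2 ≤ (g i).natDegree := deg2 f hroot q g M c hM hc hFam hmon hF hg
  have hN' : NoNorm g := noNorm f hn q g M c hM hc hFam hmon hF hg
  obtain ⟨A, δ, hA, hδ, hup⟩ := upper3 hFam h2' hN' (c.num * c.den) (mul_ne_zero (Rat.num_ne_zero.2 hc) hden)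
  have hsu : ∀ N : ℕ, 2 ≤ N →
      (Nat.card {D : ℤ // Squarefree D ∧ |D| ≤ (N : ℤ) ∧ ∃ x y : ℚ, (D : ℚ) * y ^ 2 = f.eval x} : ℝ) ≤
        A * (N / Real.log N ^ (1 + δ)) * Real.exp (TT g N) := by
    intro N hN
    refine le_trans ?_ (hup N hN)
    have h1 := N10_elfin_card_le N (fun D => Squarefree D ∧ |D| ≤ (N : ℤ) ∧ ∃ x y : ℚ, (D : ℚ) * y ^ 2 = f.eval x)
      (fun D => Squarefree D ∧ |D| ≤ (N : ℤ) ∧ ∃ u v : ℤ, IsCoprime u v ∧
        (∀ i, PT.hom (g i) u v ≠ 0) ∧ IsSquare (D * (c.num * c.den) * ∏ i, PT.hom (g i) u v)) (fun D h => h.2.1) (by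
        rintro D ⟨h4, h5, x, w, h⟩
        obtain ⟨u, v, l, huv, -, -, -, h1, h2⟩ := gen_pt f hdeg q g M c hM hc hmon hF hg D x 1 w
          (Or.inr one_ne_zero) (by rw [hq_one]; exact hroot x) (by rw [hq_one]; exact h)
        exact ⟨h4, h5, u, v, huv, h1, h2⟩)
    exact_mod_cast h1
  have hse : ∀ N : ℕ, Nat.card {D : ℤ // Squarefree D ∧ |D| ≤ (N : ℤ) ∧ ∃ x y : ℚ, (D : ℚ) * y ^ 2 = f.eval x} ≤
      Nat.card {D : ℤ // Squarefree D ∧ |D| ≤ (N : ℤ) ∧ ELS f D} := fun N =>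
    N10_elfin_card_le N (fun D => Squarefree D ∧ |D| ≤ (N : ℤ) ∧ ∃ x y : ℚ, (D : ℚ) * y ^ 2 = f.eval x)
      (fun D => Squarefree D ∧ |D| ≤ (N : ℤ) ∧ ELS f D) (fun D h => h.2.1)
      (fun D h => ⟨h.1, h.2.1, N10_elfin_els f D h.2.2⟩)
  by_cases hex : ∃ D0 : ℤ, Squarefree D0 ∧ ELS f D0
  · obtain ⟨D0, hD0, hels⟩ := hex
    obtain ⟨a, N0, ha, hN0, hlow⟩ := low f hdeg q g M c hM hc hFam hmon hF hg D0 hD0 hels
    have hlN0 : 0 ≤ Real.log N0 := Real.log_natCast_nonneg N0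
    refine ⟨A / a + Real.log N0 ^ δ, δ, hδ, fun N hN => ?_⟩
    have hN2 : (2 : ℝ) ≤ N := by exact_mod_cast hN
    have hlN : 0 < Real.log N := Real.log_pos (by linarith)
    have hlp : 0 < Real.log N ^ δ := Real.rpow_pos_of_pos hlN δ
    rcases le_or_gt N0 N with h | h
    · have h1 := hsu N hN
      have h2 := hlow N h
      calc (Nat.card {D : ℤ // Squarefree D ∧ |D| ≤ (N : ℤ) ∧ ∃ x y : ℚ, (D : ℚ) * y ^ 2 = f.eval x} : ℝ)
          ≤ A * (N / Real.log N ^ (1 + δ)) * Real.exp (TT g N) := h1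
        _ = A / a / Real.log N ^ δ * (a * (N / Real.log N) * Real.exp (TT g N)) := by
            rw [Real.rpow_add hlN, Real.rpow_one]
            field_simp
        _ ≤ A / a / Real.log N ^ δ * (Nat.card {D : ℤ // Squarefree D ∧ |D| ≤ (N : ℤ) ∧ ELS f D} : ℝ) :=
            mul_le_mul_of_nonneg_left h2 (by positivity)
        _ ≤ _ := by
            apply mul_le_mul_of_nonneg_right _ (Nat.cast_nonneg _)
            apply div_le_div_of_nonneg_right _ hlp.le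
            have : 0 ≤ Real.log N0 ^ δ := Real.rpow_nonneg hlN0 δ
            linarith
    · have h1 : (Nat.card {D : ℤ // Squarefree D ∧ |D| ≤ (N : ℤ) ∧ ∃ x y : ℚ, (D : ℚ) * y ^ 2 = f.eval x} : ℝ) ≤
          (Nat.card {D : ℤ // Squarefree D ∧ |D| ≤ (N : ℤ) ∧ ELS f D} : ℝ) := by exact_mod_cast hse N
      refine h1.trans ?_
      have h2 : 1 ≤ (A / a + Real.log N0 ^ δ) / Real.log N ^ δ := by
        rw [le_div_iff₀ hlp, one_mul]
        have h4 : Real.log N ≤ Real.log N0 :=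
          Real.log_le_log (by linarith) (by exact_mod_cast h.le)
        have h5 := Real.rpow_le_rpow hlN.le h4 hδ.le
        have h7 : 0 ≤ A / a := by positivity
        linarith
      calc (Nat.card {D : ℤ // Squarefree D ∧ |D| ≤ (N : ℤ) ∧ ELS f D} : ℝ)
          = 1 * (Nat.card {D : ℤ // Squarefree D ∧ |D| ≤ (N : ℤ) ∧ ELS f D} : ℝ) := (one_mul _).symm
        _ ≤ _ := mul_le_mul_of_nonneg_right h2 (Nat.cast_nonneg _)
  · refine ⟨1, δ, hδ, fun N hN => ?_⟩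
    have h1 : Nat.card {D : ℤ // Squarefree D ∧ |D| ≤ (N : ℤ) ∧ ELS f D} = 0 := by
      have : IsEmpty {D : ℤ // Squarefree D ∧ |D| ≤ (N : ℤ) ∧ ELS f D} :=
        ⟨fun D => hex ⟨D.1, D.2.1, D.2.2.2⟩⟩
      exact Nat.card_of_isEmpty
    have h2 := hse N
    rw [h1] at h2
    have h4 : Nat.card {D : ℤ // Squarefree D ∧ |D| ≤ (N : ℤ) ∧ ∃ x y : ℚ, (D : ℚ) * y ^ 2 = f.eval x} = 0 :=
      Nat.le_zero.1 h2
    rw [h1, h4]
    simp

private theorem N10_elcor_mono (S R : Set ℕ) (h : S ⊆ R) (x : ℝ) : PT.PS (PT.ind S) x ≤ PT.PS (PT.ind R) x := by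
  unfold PT.PS
  refine Finset.sum_le_sum fun p _ => ?_
  apply div_le_div_of_nonneg_right _ (Nat.cast_nonneg p)
  unfold PT.ind
  by_cases h1 : p ∈ S
  · rw [if_pos h1, if_pos (h h1)]
  · rw [if_neg h1]
    split_ifs <;> norm_num

private theorem N10_elcor_fin (N : ℕ) (P : ℤ → Prop) : Finite {D : ℤ // Squarefree D ∧ |D| ≤ (N : ℤ) ∧ P D} := by
  have h : Finite {D : ℤ // D ∈ Set.Icc (-(N : ℤ)) N} := (Set.finite_Icc _ _).to_subtype
  refine Finite.of_injective (β := {D : ℤ // D ∈ Set.Icc (-(N : ℤ)) N}) (fun D => ⟨D.1, abs_le.1 D.2.2.1⟩) ?_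
  intro D D' h
  have := congrArg Subtype.val h
  exact Subtype.ext this

theorem cor3 (f : ℚ[X]) (hf : Squarefree f) (hdeg : Even f.natDegree) (h6 : 6 ≤ f.natDegree)
    (hroot : ∀ x : ℚ, f.eval x ≠ 0)
    (hn : ∀ q : ℚ[X], Irreducible q → q ∣ f → q.natDegree = 2 →
      ∃ r : ℚ[X], Irreducible r ∧ r ∣ f ∧ ∀ h : ℚ[X], ¬ r ∣ q.comp h) :
    ∃ A δ : ℝ, 0 < δ ∧ (∀ N : ℕ, 2 ≤ N →
      (Nat.card {D : ℤ // Squarefree D ∧ |D| ≤ (N : ℤ) ∧ ∃ x y : ℚ, (D : ℚ) * y ^ 2 = f.eval x} : ℝ) ≤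
        A / Real.log N ^ δ * (Nat.card {D : ℤ // Squarefree D ∧ |D| ≤ (N : ℤ) ∧ ELS f D} : ℝ)) ∧
      ((∃ D : ℤ, Squarefree D ∧ ELS f D) → ∃ (c η : ℝ) (N0 : ℕ), 0 < c ∧ η < 1 ∧ ∀ N : ℕ, N0 ≤ N →
        c * N / Real.log N ^ η ≤ (Nat.card {D : ℤ // Squarefree D ∧ |D| ≤ (N : ℤ) ∧ ELS f D ∧
          ¬ ∃ x y : ℚ, (D : ℚ) * y ^ 2 = f.eval x} : ℝ)) := by
  classical
  obtain ⟨A, δ, hδ, hA⟩ := N10_fin f hf hdeg h6 hroot hn
  refine ⟨A, δ, hδ, hA, ?_⟩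
  rintro ⟨D0, hD0, hels⟩
  obtain ⟨n, q, g, M, c, hM, hc, hg0, hmon, hF, hg⟩ := gen_fam f hf hdeg h6 (fun x y hx _ => absurd hx (hroot x))
  obtain ⟨a, N0, ha, hN0, hlow⟩ := low f hdeg q g M c hM hc hg0 hmon hF hg D0 hD0 hels
  obtain ⟨S, m, hS⟩ := PT.split_set g hg0.irr
  obtain ⟨C0, hC0⟩ := hS.lower
  have hm1 := hS.npos
  have hmR : (1 : ℝ) ≤ m := by exact_mod_cast hm1
  have hsub : S ⊆ RP g := by
    intro p hp
    have h1 : rts g univ p = ∑ i, (g i).natDegree := by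
      unfold rts
      exact Finset.sum_congr rfl fun i _ => hS.split p hp i
    show 1 ≤ rts g univ p
    rw [h1]
    exact le_trans (by norm_num) hg0.six
  -- large N
  have hev : ∃ N1 : ℕ, ∀ N : ℕ, N1 ≤ N → 2 * |A| ≤ Real.log N ^ δ := by
    have h1 : Filter.Tendsto (fun N : ℕ => Real.log N ^ δ) Filter.atTop Filter.atTop :=
      (tendsto_rpow_atTop hδ).comp (Real.tendsto_log_atTop.comp tendsto_natCast_atTop_atTop)
    exact Filter.eventually_atTop.1 (h1.eventually_ge_atTop (2 * |A|))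
  obtain ⟨N1, hN1⟩ := hev
  refine ⟨a * Real.exp (-C0) / 2, 1 - 1 / m, max (max N0 N1) 3, by positivity, by
    have : (0 : ℝ) < 1 / m := by positivity
    linarith, fun N hN => ?_⟩
  have hNN0 : N0 ≤ N := (le_max_left _ _).trans ((le_max_left _ _).trans hN)
  have hNN1 : N1 ≤ N := (le_max_right _ _).trans ((le_max_left _ _).trans hN)
  have hN3 : 3 ≤ N := (le_max_right _ _).trans hN
  have hN3R : (3 : ℝ) ≤ N := by exact_mod_cast hN3
  have hlog1 : 1 < Real.log N := by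
    rw [Real.lt_log_iff_exp_lt (by linarith)]
    have := Real.exp_one_lt_d9
    linarith
  have hlog0 : 0 < Real.log N := by linarith
  set E := {D : ℤ // Squarefree D ∧ |D| ≤ (N : ℤ) ∧ ELS f D}
  have h1 := hlow N hNN0
  have h2 := hA N (by omega)
  have hTT : (1 / m : ℝ) * Real.log (Real.log N) - C0 ≤ TT g N :=
    (hC0 N (by linarith)).trans (N10_elcor_mono S (RP g) hsub N)
  have hexp : Real.exp (-C0) * Real.log N ^ (1 / m : ℝ) ≤ Real.exp (TT g N) := by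
    rw [Real.rpow_def_of_pos hlog0, ← Real.exp_add]
    apply Real.exp_le_exp.2
    linarith
  have h3' : a * Real.exp (-C0) * N / Real.log N ^ (1 - 1 / m : ℝ) ≤ (Nat.card E : ℝ) := by
    refine le_trans ?_ h1
    have h4 : Real.log N ^ (1 - 1 / m : ℝ) = Real.log N / Real.log N ^ (1 / m : ℝ) := by
      rw [Real.rpow_sub hlog0, Real.rpow_one]
    have h5 : 0 < Real.log N ^ (1 / m : ℝ) := Real.rpow_pos_of_pos hlog0 _
    rw [h4]
    have h6' : a * Real.exp (-C0) * N / (Real.log N / Real.log N ^ (1 / m : ℝ)) =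
        a * (N / Real.log N) * (Real.exp (-C0) * Real.log N ^ (1 / m : ℝ)) := by
      field_simp
    rw [h6']
    exact mul_le_mul_of_nonneg_left hexp (by positivity)
  -- the counterexamples
  have hfinE : Finite E := N10_elcor_fin N (fun D => ELS f D)
  have hfinV : Finite {D : ℤ // Squarefree D ∧ |D| ≤ (N : ℤ) ∧ ELS f D ∧
      ¬ ∃ x y : ℚ, (D : ℚ) * y ^ 2 = f.eval x} := N10_elcor_fin N (fun D => ELS f D ∧ ¬ ∃ x y : ℚ, (D : ℚ) * y ^ 2 = f.eval x)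
  have hfinS : Finite {D : ℤ // Squarefree D ∧ |D| ≤ (N : ℤ) ∧ ∃ x y : ℚ, (D : ℚ) * y ^ 2 = f.eval x} :=
    N10_elcor_fin N (fun D => ∃ x y : ℚ, (D : ℚ) * y ^ 2 = f.eval x)
  have hsplit : Nat.card E ≤ Nat.card ({D : ℤ // Squarefree D ∧ |D| ≤ (N : ℤ) ∧ ELS f D ∧
      ¬ ∃ x y : ℚ, (D : ℚ) * y ^ 2 = f.eval x} ⊕
      {D : ℤ // Squarefree D ∧ |D| ≤ (N : ℤ) ∧ ∃ x y : ℚ, (D : ℚ) * y ^ 2 = f.eval x}) := by
    refine Nat.card_le_card_of_injective (fun D : E =>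
      if h : ∃ x y : ℚ, (D.1 : ℚ) * y ^ 2 = f.eval x then
        Sum.inr ⟨D.1, D.2.1, D.2.2.1, h⟩ else Sum.inl ⟨D.1, D.2.1, D.2.2.1, D.2.2.2, h⟩) ?_
    intro D D' h
    simp only at h
    by_cases h7 : ∃ x y : ℚ, (D.1 : ℚ) * y ^ 2 = f.eval x
    · by_cases h8 : ∃ x y : ℚ, (D'.1 : ℚ) * y ^ 2 = f.eval x
      · rw [dif_pos h7, dif_pos h8] at h
        have := congrArg Subtype.val (Sum.inr.inj h)
        exact Subtype.ext this
      · rw [dif_pos h7, dif_neg h8] at h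
        exact absurd h (by simp)
    · by_cases h8 : ∃ x y : ℚ, (D'.1 : ℚ) * y ^ 2 = f.eval x
      · rw [dif_neg h7, dif_pos h8] at h
        exact absurd h (by simp)
      · rw [dif_neg h7, dif_neg h8] at h
        have := congrArg Subtype.val (Sum.inl.inj h)
        exact Subtype.ext this
  rw [Nat.card_sum] at hsplit
  have hsplitR : (Nat.card E : ℝ) ≤ (Nat.card {D : ℤ // Squarefree D ∧ |D| ≤ (N : ℤ) ∧ ELS f D ∧
      ¬ ∃ x y : ℚ, (D : ℚ) * y ^ 2 = f.eval x} : ℝ) +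
      (Nat.card {D : ℤ // Squarefree D ∧ |D| ≤ (N : ℤ) ∧ ∃ x y : ℚ, (D : ℚ) * y ^ 2 = f.eval x} : ℝ) := by
    exact_mod_cast hsplit
  have hhalf : A / Real.log N ^ δ ≤ 1 / 2 := by
    have h9 := hN1 N hNN1
    have h10 : 0 < Real.log N ^ δ := Real.rpow_pos_of_pos hlog0 _
    rw [div_le_div_iff₀ h10 (by norm_num)]
    linarith [le_abs_self A]
  have h11 : A / Real.log N ^ δ * (Nat.card E : ℝ) ≤ 1 / 2 * (Nat.card E : ℝ) :=
    mul_le_mul_of_nonneg_right hhalf (Nat.cast_nonneg _)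
  have h12 : a * Real.exp (-C0) / 2 * N / Real.log N ^ (1 - 1 / m : ℝ) =
      (a * Real.exp (-C0) * N / Real.log N ^ (1 - 1 / m : ℝ)) / 2 := by ring
  rw [h12]
  linarith

end EN
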