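import Pool.Agent.Lib.MP_10e784_agN2.N2
import Pool.Agent.Lib.MP_10e784_agN2.N3
import Pool.Agent.Lib.MP_10e784_ag.EL.ELSV

/-!
LEAF N4 (medium-).  The number of the lattice points in a box which satisfy all local conditions, when the largest coordinates
do not belong to a single quadratic member: either the member `g i₀` with the largest `j i₀` has degree at least three, or a
second index `i₁` has `j i₁ ≥ (j i₀) ^ (1 - 1/K)`.
ADAPTATION of `Lib/MP_10e784_ag/EL/ELSV.lean` (`elsv_large`, `sv_rel`, their private lemmas; about 10 lines change).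

Changes in `elsv_large`: `hom` is `omega3`, `hW` is `W3`; `K ≥ 2` (so `0 < K`).  Instead of `hcard` (nonempty) one shows
`hdg : ∀ k, k + 1 < K → 3 ≤ dg g (univ.filter fun i => k + 1 ≤ lv K L (j i))`: the set contains `i₀` (`lv_top`: `lv K L (j i₀) = K`);
if `3 ≤ natDegree (g i₀)` this is enough; otherwise it also contains `i₁ ≠ i₀`, because `lv_iff` (for `k < K`): `k + 1 ≤ lv K L l ↔ lam K L ^ (k + 1) ≤ l`,
`lam K L = L ^ (1 / K)`, `lam K L ^ (k + 1) ≤ lam K L ^ (K - 1) = L ^ (1 - 1/K) ≤ j i₁`; two members of degree at least two: `dg ≥ 4`.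
The choice of `F p`: for `k < K`, `p ∈ Pk (M * M1) K L k` and `3 ≤ dg g (I k)`, `I k = univ.filter ..`, from `omega3` as in ELSV; if `dg g (I k) < 3` (then
`k = K - 1`) take `(∅, 0)`.  So the property of `F p` in `hex` is: `(∀ w ∈ F.1, ¬ Al g p w) ∧ 0 ≤ F.2 ∧ F.2 ≤ 1/2 ∧ F.2 ≤ N / p ∧ (k + 1 < K → lower bound ≤ F.2) ∧ (the cardinalities)`;
for `(∅, 0)` the cardinalities are `0 = 0 * ..`.  The rest is literally ELSV (`hW'` takes two hypotheses instead of one).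
In the final theorem `sv3` (model `sv_rel`): `L1` from the large case, for `j i₀ < L1` the trivial bound, no condition used.
Private lemmas: prefix `N4_`.
-/

set_option autoImplicit false

namespace EN

open Polynomial Finset TW EL

open Filter in
private theorem N4_ev (K : ℕ) (hK : 0 < K) (A B c : ℝ) (hc : 0 < c) :
    ∀ᶠ L : ℕ in atTop, A * Real.log L + B ≤ c * lam K L ^ (1 / 2 : ℝ) := by
  have hK' : (0 : ℝ) < K := by exact_mod_cast hK
  set a : ℝ := (1 / K) * (1 / 2) with ha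
  have ha0 : 0 < a := by positivity
  have h1 : (fun x : ℝ => A * Real.log x) =o[atTop] fun x => x ^ a :=
    (isLittleO_log_rpow_atTop ha0).const_mul_left A
  have h2 : (fun _ : ℝ => B) =o[atTop] fun x : ℝ => x ^ a := by
    apply Asymptotics.isLittleO_const_left.mpr
    right
    exact tendsto_norm_atTop_atTop.comp (tendsto_rpow_atTop ha0)
  have h3 := (h1.add h2).bound hc
  have h4 := (tendsto_natCast_atTop_atTop (R := ℝ)).eventually h3
  filter_upwards [h4, eventually_ge_atTop 1] with L hL hL1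
  have hL0 : (0 : ℝ) ≤ L := Nat.cast_nonneg L
  have h5 : lam K L ^ (1 / 2 : ℝ) = (L : ℝ) ^ a := by
    unfold lam
    rw [← Real.rpow_mul hL0, ha]
  rw [h5]
  have h6 : 0 ≤ (L : ℝ) ^ a := Real.rpow_nonneg hL0 _
  calc A * Real.log L + B ≤ ‖A * Real.log L + B‖ := le_abs_self _
    _ ≤ c * ‖(L : ℝ) ^ a‖ := hL
    _ = c * (L : ℝ) ^ a := by rw [Real.norm_of_nonneg h6]

private theorem N4_pow (η : ℝ) (h0 : 0 ≤ η) (h1 : η ≤ 1) (N : ℕ) : (1 + η) ^ N - 1 ≤ (2 ^ N - 1) * η := by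
  induction N with
  | zero => simp
  | succ N ih =>
    have h2 : (1 : ℝ) ≤ 2 ^ N := one_le_pow₀ (by norm_num)
    have h3 : (1 + η) ^ (N + 1) - 1 = ((1 + η) ^ N - 1) * (1 + η) + η := by ring
    rw [h3]
    have h4 : ((1 + η) ^ N - 1) * (1 + η) ≤ ((2 ^ N - 1) * η) * (1 + η) :=
      mul_le_mul_of_nonneg_right ih (by linarith)
    have h5 : ((2 ^ N - 1) * η) * (1 + η) ≤ ((2 ^ N - 1) * η) * 2 :=
      mul_le_mul_of_nonneg_left (by linarith) (mul_nonneg (by linarith) h0)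
    have h6 : ((2 : ℝ) ^ (N + 1) - 1) * η = ((2 ^ N - 1) * η) * 2 + η := by ring
    linarith

private theorem N4_prod_le (P : Finset ℕ) (ω : ℕ → ℝ) (h : ∀ p ∈ P, 0 ≤ ω p ∧ ω p ≤ 1) :
    ∏ p ∈ P, (1 - ω p) ≤ Real.exp (-∑ p ∈ P, ω p) := by
  rw [← Finset.sum_neg_distrib, Real.exp_sum]
  apply Finset.prod_le_prod
  · intro p hp
    linarith [(h p hp).2]
  · intro p hp
    have := Real.add_one_le_exp (-ω p)
    linarith

private theorem N4_prod_le' (P : Finset ℕ) (ω : ℕ → ℝ) (h : ∀ p ∈ P, 0 ≤ ω p) :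
    ∏ p ∈ P, (1 + ω p) ≤ Real.exp (∑ p ∈ P, ω p) := by
  rw [Real.exp_sum]
  apply Finset.prod_le_prod
  · intro p hp
    linarith [h p hp]
  · intro p hp
    have := Real.add_one_le_exp (ω p)
    linarith

private theorem N4_tl_nonneg (D : ℝ) (P : Finset ℕ) (ω : ℕ → ℝ) (h : ∀ p ∈ P, 0 ≤ ω p) : 0 ≤ tl D P ω := by
  unfold tl
  apply Finset.sum_nonneg
  intro T hT
  apply Finset.prod_nonneg
  intro p hp
  exact h p (Finset.mem_powerset.mp (Finset.mem_filter.mp hT).1 hp)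

/-- one range -/
private theorem N4_one (K : ℕ) (L : ℝ) (hL : 1 ≤ L) (c1 : ℝ) (hc1 : 0 ≤ c1) (k : ℕ) (P : Finset ℕ)
    (hP : ∀ p ∈ P, 1 ≤ p ∧ (p : ℝ) ≤ zz K L k) (ω : ℕ → ℝ) (hω : ∀ p ∈ P, 0 ≤ ω p ∧ ω p ≤ 1)
    (hb : (Real.exp 1 + 1) * ∑ p ∈ P, ω p ≤ c1 * lam K L ^ (1 / 2 : ℝ)) :
    ∏ p ∈ P, (1 - ω p) + 2 * tl (Dd c1 K L k) P ω ≤ 3 * Real.exp (-∑ p ∈ P, ω p) := by
  have hlam : 0 < lam K L := Real.rpow_pos_of_pos (by linarith) _
  have hD : 1 ≤ Dd c1 K L k := by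
    unfold Dd
    exact Real.one_le_exp (by positivity)
  have hz : 1 < zz K L k := by
    unfold zz
    exact Real.one_lt_exp_iff.mpr (Real.rpow_pos_of_pos hlam _)
  have h1 := tail (Dd c1 K L k) (zz K L k) hD hz P hP ω (fun p hp => (hω p hp).1)
  have h2 : Real.log (Dd c1 K L k) / Real.log (zz K L k) = c1 * lam K L ^ (1 / 2 : ℝ) := by
    unfold Dd zz
    rw [Real.log_exp, Real.log_exp]
    have h3 : lam K L ^ (k + 1) = lam K L ^ ((k : ℝ) + 1 / 2) * lam K L ^ (1 / 2 : ℝ) := by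
      rw [← Real.rpow_add hlam, ← Real.rpow_natCast]
      congr 1
      push_cast
      ring
    rw [h3]
    have h4 : lam K L ^ ((k : ℝ) + 1 / 2) ≠ 0 := (Real.rpow_pos_of_pos hlam _).ne'
    field_simp
  rw [h2, ← Real.exp_add] at h1
  have h3 := N4_prod_le P ω hω
  have h4 : Real.exp (-(c1 * lam K L ^ (1 / 2 : ℝ)) + Real.exp 1 * ∑ p ∈ P, ω p) ≤
      Real.exp (-∑ p ∈ P, ω p) := by
    apply Real.exp_le_exp.mpr
    nlinarith
  linarith

private theorem N4_lam {K : ℕ} (hK : 0 < K) {L : ℝ} (hL : 1 ≤ L) {k : ℕ} (hk : k + 1 < K) :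
    lam K L ^ (k + 1) ≤ L ^ (1 - 1 / (K : ℝ)) := by
  have hK0 : (0 : ℝ) < K := by exact_mod_cast hK
  unfold lam
  rw [← Real.rpow_natCast, ← Real.rpow_mul (by linarith)]
  apply Real.rpow_le_rpow_of_exponent_le hL
  have h1 : ((k + 1 : ℕ) : ℝ) + 1 ≤ K := by exact_mod_cast hk
  rw [one_div, ← sub_nonneg]
  have h2 : 1 - (K : ℝ)⁻¹ - (K : ℝ)⁻¹ * ((k + 1 : ℕ) : ℝ) = (K : ℝ)⁻¹ * (K - (((k + 1 : ℕ) : ℝ) + 1)) := by
    field_simp
    ring
  rw [h2]
  exact mul_nonneg (inv_nonneg.2 hK0.le) (by linarith)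

private theorem N4_large {ι : Type} [Fintype ι] [DecidableEq ι] {g : ι → ℤ[X]} (hg : Fam g)
    (h2 : ∀ i, 2 ≤ (g i).natDegree) (M : ℕ) (hM : M ≠ 0) (C : ℝ) (hC : 1 ≤ C) :
    ∃ (C' δ : ℝ) (K L1 : ℕ), 0 < δ ∧ 0 < C' ∧ 2 ≤ K ∧ ∀ (j : ι → ℕ) (i₀ : ι), (∀ i, j i ≤ j i₀) →
      (3 ≤ (g i₀).natDegree ∨ ∃ i₁, i₁ ≠ i₀ ∧ (j i₀ : ℝ) ^ (1 - 1 / (K : ℝ)) ≤ j i₁) →
      L1 ≤ j i₀ →
      (Nat.card {x : Co g → ℤ // Bx g C j x ∧ Loc g M x} : ℝ) ≤
        C' * (2 ^ (∑ i, j i) * (∏ i, (1 + j i : ℝ)⁻¹) * (1 + j i₀ : ℝ) ^ (-δ)) *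
          Real.exp (TT g (Real.exp (j i₀))) := by
  obtain ⟨M1, hM1, hgood⟩ := good_exists hg
  obtain ⟨S, n, hS⟩ := PT.split_set g hg.irr
  obtain ⟨C1, hC1, hom⟩ := omega3 hg S (fun p hp i => hS.split p hp i)
  obtain ⟨K, δ, C2, L0, hK2, hδ, hC2, hW⟩ := W3 hg S n hS (M * M1) (mul_ne_zero hM hM1) C1 hC1
  have hK : 0 < K := by omega
  set N : ℕ := ∑ i, (g i).natDegree with hN
  have hN6 : 6 ≤ N := hg.six
  have hN0 : (0 : ℝ) < N := by
    have : 0 < N := by omega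
    exact_mod_cast this
  have hlog2 : 0 < Real.log 2 := Real.log_pos (by norm_num)
  set c1 : ℝ := Real.log 2 / (8 * N) with hc1
  have hc1p : 0 < c1 := by positivity
  -- the largeness conditions
  have hev : ∀ᶠ L : ℕ in Filter.atTop, (0 * Real.log L + 2 ≤ 1 * lam K L ^ (1 / 2 : ℝ) ∧
      0 * Real.log L + 1 / c1 ≤ 1 * lam K L ^ (1 / 2 : ℝ)) ∧
      (((Real.exp 1 + 1) * N) * Real.log L + (Real.exp 1 + 1) * C2 ≤ c1 * lam K L ^ (1 / 2 : ℝ) ∧
      (2 * N) * Real.log L + (N * Real.log 2 + 2 * C2) ≤ (Real.log 2 / (2 * N)) * lam K L ^ (1 / 2 : ℝ)) ∧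
      (L0 ≤ (L : ℝ) ∧ 1 ≤ L) := by
    refine ((N4_ev K hK 0 2 1 one_pos).and (N4_ev K hK 0 (1 / c1) 1 one_pos)).and
      (((N4_ev K hK _ _ c1 hc1p).and (N4_ev K hK _ _ _ (by positivity))).and
        (((tendsto_natCast_atTop_atTop (R := ℝ)).eventually (Filter.eventually_ge_atTop L0)).and
          (Filter.eventually_ge_atTop 1)))
  obtain ⟨L1, hL1⟩ := Filter.eventually_atTop.mp hev
  refine ⟨(3 * C) ^ N * (3 ^ K + 1) * Real.exp C2, δ, K, L1, hδ, by positivity, hK2, ?_⟩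
  intro j i₀ hmax hcase hLj
  obtain ⟨⟨e1, e2⟩, ⟨e3, e4⟩, e5, e6⟩ := hL1 (j i₀) hLj
  obtain ⟨L, hLdef⟩ : ∃ L : ℕ, L = j i₀ := ⟨_, rfl⟩
  rw [← hLdef] at e1 e2 e3 e4 e5 e6 hLj hcase
  have hL1' : (1 : ℝ) ≤ (L : ℝ) := by exact_mod_cast e6
  have hL0' : (0 : ℝ) < (L : ℝ) := by linarith
  have hlampos : 0 < lam K L := Real.rpow_pos_of_pos hL0' _
  have hsq : lam K L ^ (1 / 2 : ℝ) * lam K L ^ (1 / 2 : ℝ) = lam K L := by
    rw [← Real.rpow_add hlampos]
    norm_num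
  rw [zero_mul, zero_add, one_mul] at e1 e2
  have hlam2 : 2 ≤ lam K L := by nlinarith
  have hhalf : lam K L ^ (1 / 2 : ℝ) ≤ lam K L := by nlinarith
  have hlamc : lam K L ^ (-(1 / 2) : ℝ) ≤ Real.log 2 / (8 * N) := by
    rw [Real.rpow_neg hlampos.le, ← hc1]
    have h1 : 0 < lam K L ^ (1 / 2 : ℝ) := by positivity
    rw [inv_le_comm₀ h1 hc1p, ← one_div]
    exact e2
  have hlt0 : lv K L (j i₀) = K := lv_top K hK L hL1' (j i₀) (by rw [← hLdef])
  have hPk : ∀ k p, p ∈ Pk (M * M1) K L k → p.Prime ∧ ¬ p ∣ M * M1 ∧ 1 ≤ p ∧ (p : ℝ) ≤ zz K L k := by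
    intro k p hp
    unfold Pk at hp
    rw [Finset.mem_filter, Finset.mem_Icc] at hp
    refine ⟨hp.2.1, hp.2.2.1, hp.1.1, ?_⟩
    have h0 : 0 ≤ zz K L k := (Real.exp_pos _).le
    exact (Nat.le_floor_iff h0).mp hp.1.2
  have hgp : ∀ k p, p ∈ Pk (M * M1) K L k → GoodP g p := by
    intro k p hp
    have h := hPk k p hp
    exact hgood p h.1 (fun h' => h.2.1 (dvd_mul_of_dvd_right h' M))
  have hdg : ∀ k, k + 1 < K → 3 ≤ dg g (univ.filter fun i => k + 1 ≤ lv K L (j i)) := by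
    intro k hk
    have hi0 : i₀ ∈ (univ.filter fun i => k + 1 ≤ lv K L (j i)) := by
      rw [Finset.mem_filter]
      exact ⟨Finset.mem_univ _, by omega⟩
    rcases hcase with h3 | ⟨i₁, hne, h4⟩
    · exact h3.trans (Finset.single_le_sum (f := fun i => (g i).natDegree) (fun i _ => Nat.zero_le _) hi0)
    · have hi1 : i₁ ∈ (univ.filter fun i => k + 1 ≤ lv K L (j i)) := by
        rw [Finset.mem_filter]
        exact ⟨Finset.mem_univ _, (lv_iff K hK L hL1' (j i₁) k (by omega)).2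
          (le_trans (N4_lam hK hL1' hk) h4)⟩
      have h5 : ({i₀, i₁} : Finset ι) ⊆ (univ.filter fun i => k + 1 ≤ lv K L (j i)) := by
        intro i hi
        rw [Finset.mem_insert, Finset.mem_singleton] at hi
        rcases hi with rfl | rfl
        · exact hi0
        · exact hi1
      have h6 : ∑ i ∈ ({i₀, i₁} : Finset ι), (g i).natDegree ≤
          dg g (univ.filter fun i => k + 1 ≤ lv K L (j i)) := Finset.sum_le_sum_of_subset h5
      rw [Finset.sum_pair hne.symm] at h6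
      have h7 := h2 i₀
      have h8 := h2 i₁
      omega
  -- the choice of the forbidden residues
  have hex : ∀ p : ℕ, ∃ F : Set (Co g → ZMod p) × ℝ, ∀ k, k < K → p ∈ Pk (M * M1) K L k →
      ((∀ w ∈ F.1, ¬ Al g p w) ∧ 0 ≤ F.2 ∧ F.2 ≤ 1 / 2 ∧
        F.2 ≤ (N : ℝ) / (p : ℝ) ∧
        (k + 1 < K → ((rts g (univ.filter fun i => k + 1 ≤ lv K L (j i)) p : ℝ) - PT.ind (RP g) p +
          PT.ind S p / 4) / p - C1 / (p : ℝ) ^ 2 ≤ F.2) ∧
        ∀ y : Co g → ZMod p, (Nat.card {w : Co g → ZMod p // w ∈ F.1 ∧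
          ∀ c : Co g, c.1 ∉ (univ.filter fun i => k + 1 ≤ lv K L (j i)) → w c = y c} : ℝ) =
          F.2 * (p : ℝ) ^ (univ.filter fun c : Co g => c.1 ∈ (univ.filter fun i => k + 1 ≤ lv K L (j i))).card) := by
    intro p
    by_cases h : ∃ k, k < K ∧ p ∈ Pk (M * M1) K L k
    · obtain ⟨k, hk, hp⟩ := h
      have hkk : ∀ k', p ∈ Pk (M * M1) K L k' → k = k' := by
        intro k' hp'
        by_contra hne'
        exact (Finset.disjoint_left.mp (Pk_disj (M * M1) K L hL1' k k' hne')) hp hp'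
      by_cases hd : 3 ≤ dg g (univ.filter fun i => k + 1 ≤ lv K L (j i))
      · obtain ⟨Ω, ω, g1, g2, g3, g4, g5, g6⟩ := hom p (hgp k p hp) (univ.filter fun i => k + 1 ≤ lv K L (j i)) hd
        refine ⟨(Ω, ω), ?_⟩
        intro k' hk' hp'
        obtain rfl := hkk k' hp'
        exact ⟨g1, g2, g3, g4, fun _ => g5, g6⟩
      · refine ⟨(∅, 0), ?_⟩
        intro k' hk' hp'
        obtain rfl := hkk k' hp'
        refine ⟨fun w hw => absurd hw (Set.notMem_empty w), le_rfl, by norm_num, by positivity,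
          fun hk1 => absurd (hdg k hk1) hd, fun y => ?_⟩
        rw [zero_mul, Nat.cast_eq_zero, Nat.card_eq_zero]
        exact Or.inl ⟨fun x => Set.notMem_empty _ x.2.1⟩
    · refine ⟨(∅, 0), ?_⟩
      intro k hk hp
      exact absurd ⟨k, hk, hp⟩ h
  choose F hF using hex
  have hω0 : ∀ k, k < K → ∀ p ∈ Pk (M * M1) K L k, 0 ≤ (F p).2 ∧ (F p).2 ≤ 1 := by
    intro k hk p hp
    obtain ⟨-, h1, h2, -⟩ := hF p k hk hp
    exact ⟨h1, by linarith⟩
  have hW' := hW j i₀ (by rw [← hLdef]; exact_mod_cast e5) hmax (fun p => (F p).2)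
  rw [← hLdef] at hW'
  obtain ⟨hWl, hWu⟩ := hW' (by
    intro k hk p hp
    obtain ⟨-, h1, -, h4, -, -⟩ := hF p k hk hp
    exact ⟨h1, h4⟩) (by
    intro k hk p hp
    obtain ⟨-, -, -, -, h5, -⟩ := hF p k (by omega) hp
    exact h5 hk)
  set W : ℝ := ∑ k ∈ range K, ∑ p ∈ Pk (M * M1) K L k, (F p).2 with hWdef
  have hWk0 : ∀ k, k < K → 0 ≤ ∑ p ∈ Pk (M * M1) K L k, (F p).2 := by
    intro k hk
    exact Finset.sum_nonneg fun p hp => (hω0 k hk p hp).1
  have hWk : ∀ k, k < K → ∑ p ∈ Pk (M * M1) K L k, (F p).2 ≤ W := by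
    intro k hk
    exact Finset.single_le_sum (f := fun k => ∑ p ∈ Pk (M * M1) K L k, (F p).2)
      (fun k' hk' => hWk0 k' (Finset.mem_range.mp hk')) (Finset.mem_range.mpr hk)
  have hW0 : 0 ≤ W := Finset.sum_nonneg fun k hk => hWk0 k (Finset.mem_range.mp hk)
  have hexp1 : 0 < Real.exp 1 + 1 := by positivity
  -- the sieve
  set η : ℝ := (2 : ℝ) ^ (-(lam K L / (2 * N))) with hη
  have hη0 : 0 ≤ η := by positivity
  have hη1 : η ≤ 1 := by
    rw [hη]
    apply Real.rpow_le_one_of_one_le_of_nonpos (by norm_num)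
    have : 0 ≤ lam K L / (2 * N) := by positivity
    linarith
  have hmul := multi (κ := Co g) K (fun k => Pk (M * M1) K L k) (fun k p hp => (hPk k p hp).1)
    (fun k k' hkk => Pk_disj (M * M1) K L hL1' k k' (fun h => hkk (Fin.ext h)))
    (fun c => lv K L (j c.1)) (fun p => (F p).1) (fun p => (F p).2)
    (fun k p hp => hω0 k k.2 p hp) (by
      intro k p hp y
      obtain ⟨-, -, -, -, -, h6⟩ := hF p k k.2 hp
      have h7 := h6 y
      simp only [Finset.mem_filter, Finset.mem_univ, true_and, not_le] at h7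
      exact h7)
    (ba g C j) (bH g C j) (fun k => Dd c1 K L k) (fun k => zz K L k)
    (fun k => by
      unfold Dd
      exact Real.one_le_exp (by positivity))
    (fun k => by
      unfold zz
      exact Real.one_le_exp (by positivity))
    (fun k p hp => (hPk k p hp).2.2.2) η hη0 (by
      intro c
      by_cases hc : lv K L (j c.1) = 0
      · left; exact hc
      · right
        have hn1 : 1 ≤ (g c.1).natDegree := by
          have := c.2.2
          omega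
        have hnN : (g c.1).natDegree ≤ N :=
          Finset.single_le_sum (f := fun i => (g i).natDegree) (fun i _ => Nat.zero_le _) (Finset.mem_univ c.1)
        have h1 := modulus K N (g c.1).natDegree hK hn1 hnN L hL1' hlam2 hlamc (j c.1) hc
        refine le_trans h1 ?_
        exact mul_le_mul_of_nonneg_left (bH_low g C hC j c) hη0)
  have hsub : (Nat.card {x : Co g → ℤ // Bx g C j x ∧ Loc g M x} : ℝ) ≤
      Nat.card {x : Co g → ℤ // (∀ c, ba g C j c ≤ x c ∧ x c < ba g C j c + bH g C j c) ∧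
        ∀ k : Fin K, ∀ p ∈ Pk (M * M1) K L k, (fun c => ((x c : ℤ) : ZMod p)) ∉ (F p).1} := by
    have hfin : {x : Co g → ℤ | (∀ c, ba g C j c ≤ x c ∧ x c < ba g C j c + bH g C j c) ∧
        ∀ k : Fin K, ∀ p ∈ Pk (M * M1) K L k, (fun c => ((x c : ℤ) : ZMod p)) ∉ (F p).1}.Finite := by
      have h1 : {x : Co g → ℤ | Bx g C j x}.Finite := by
        exact (bx_card hg C hC j).1
      apply h1.subset
      intro x hx
      exact (bx_iff g C hC j x).mpr hx.1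
    have h2 := Nat.card_mono hfin (s := {x : Co g → ℤ | Bx g C j x ∧ Loc g M x}) (by
      intro x hx
      refine ⟨(bx_iff g C hC j x).mp hx.1, ?_⟩
      intro k p hp hxΩ
      obtain ⟨h1, -⟩ := hF p k k.2 hp
      have h3 := hPk k p hp
      exact h1 _ hxΩ (hx.2 p h3.1 (fun h' => h3.2.1 (dvd_mul_of_dvd_left h' M1))))
    exact_mod_cast h2
  rw [← hLdef]
  refine le_trans hsub (le_trans hmul ?_)
  have hcardκ : Fintype.card (Co g) = N := by
    rw [Fintype.card_sigma]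
    simp [hN]
  rw [hcardκ]
  -- the main term
  have hmain : ∏ k : Fin K, (∏ p ∈ Pk (M * M1) K L k, (1 - (F p).2) + 2 * tl (Dd c1 K L k) (Pk (M * M1) K L k) (fun p => (F p).2)) ≤
      3 ^ K * Real.exp (-W) := by
    have h1 : ∏ k : Fin K, (∏ p ∈ Pk (M * M1) K L k, (1 - (F p).2) + 2 * tl (Dd c1 K L k) (Pk (M * M1) K L k) (fun p => (F p).2)) ≤
        ∏ k : Fin K, (3 * Real.exp (-∑ p ∈ Pk (M * M1) K L k, (F p).2)) := by
      apply Finset.prod_le_prod
      · intro k _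
        have h2 : 0 ≤ ∏ p ∈ Pk (M * M1) K L k, (1 - (F p).2) :=
          Finset.prod_nonneg fun p hp => by linarith [(hω0 k k.2 p hp).2]
        have h3 := N4_tl_nonneg (Dd c1 K L k) (Pk (M * M1) K L k) (fun p => (F p).2)
          (fun p hp => (hω0 k k.2 p hp).1)
        linarith
      · intro k _
        apply N4_one K L hL1' c1 hc1p.le k (Pk (M * M1) K L k) (fun p hp => (hPk k p hp).2.2) (fun p => (F p).2)
          (fun p hp => hω0 k k.2 p hp)
        have h4 : (Real.exp 1 + 1) * ∑ p ∈ Pk (M * M1) K L k, (F p).2 ≤ (Real.exp 1 + 1) * (N * Real.log L + C2) :=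
          mul_le_mul_of_nonneg_left (le_trans (hWk k k.2) hWu) hexp1.le
        linarith
    refine le_trans h1 (le_of_eq ?_)
    rw [Finset.prod_mul_distrib, Finset.prod_const, Finset.card_univ, Fintype.card_fin, ← Real.exp_sum,
      Finset.sum_neg_distrib, hWdef, Finset.sum_range]
  -- the error term
  have herr : ((1 + η) ^ N - 1) * ∏ k : Fin K, ∏ p ∈ Pk (M * M1) K L k, (1 + (F p).2) ≤ Real.exp (-W) := by
    have h1 : ∏ k : Fin K, ∏ p ∈ Pk (M * M1) K L k, (1 + (F p).2) ≤ Real.exp W := by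
      rw [hWdef, Finset.sum_range, Real.exp_sum]
      apply Finset.prod_le_prod
      · intro k _
        exact Finset.prod_nonneg fun p hp => by linarith [(hω0 k k.2 p hp).1]
      · intro k _
        exact N4_prod_le' _ (fun p => (F p).2) (fun p hp => (hω0 k k.2 p hp).1)
    have h2 : (1 + η) ^ N - 1 ≤ 2 ^ N * η := by
      have h3 := N4_pow η hη0 hη1 N
      nlinarith
    have h4 : 0 ≤ (1 + η) ^ N - 1 := by
      have : (1 : ℝ) ≤ (1 + η) ^ N := one_le_pow₀ (by linarith)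
      linarith
    have h5 : 2 ^ N * η * Real.exp W ≤ Real.exp (-W) := by
      have h6 : (2 : ℝ) ^ N = Real.exp (N * Real.log 2) := by
        rw [mul_comm, Real.exp_mul, Real.exp_log (by norm_num), Real.rpow_natCast]
      have h7 : η = Real.exp (-(Real.log 2 * (lam K L / (2 * N)))) := by
        rw [hη, Real.rpow_def_of_pos (by norm_num)]
        congr 1
        ring
      rw [h6, h7, ← Real.exp_add, ← Real.exp_add]
      apply Real.exp_le_exp.mpr
      have h8 : (Real.log 2 / (2 * N)) * lam K L ^ (1 / 2 : ℝ) ≤ (Real.log 2 / (2 * N)) * lam K L :=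
        mul_le_mul_of_nonneg_left hhalf (by positivity)
      have h9 : Real.log 2 * (lam K L / (2 * N)) = (Real.log 2 / (2 * N)) * lam K L := by ring
      rw [h9]
      nlinarith
    have h10 : 0 ≤ ∏ k : Fin K, ∏ p ∈ Pk (M * M1) K L k, (1 + (F p).2) :=
      Finset.prod_nonneg fun k _ => Finset.prod_nonneg fun p hp => by linarith [(hω0 k k.2 p hp).1]
    calc ((1 + η) ^ N - 1) * ∏ k : Fin K, ∏ p ∈ Pk (M * M1) K L k, (1 + (F p).2)
        ≤ (2 ^ N * η) * Real.exp W := mul_le_mul h2 h1 h10 (by positivity)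
      _ ≤ Real.exp (-W) := h5
  have hH := bH_prod hg C hC j
  have hH0 : 0 ≤ ∏ c, (bH g C j c : ℝ) := Finset.prod_nonneg fun c _ => Nat.cast_nonneg _
  have hexpW : Real.exp (-W) ≤ Real.exp C2 * ((∏ i, (1 + j i : ℝ)⁻¹) * (1 + (L : ℝ)) ^ (-δ) *
      Real.exp (TT g (Real.exp L))) := by
    have h1 : ∏ i, (1 + j i : ℝ)⁻¹ = Real.exp (-∑ i, Real.log (1 + j i)) := by
      rw [← Finset.sum_neg_distrib, Real.exp_sum]
      apply Finset.prod_congr rfl
      intro i _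
      have h2 : (0 : ℝ) < 1 + j i := by positivity
      rw [Real.exp_neg, Real.exp_log h2]
    have h2 : (1 + (L : ℝ)) ^ (-δ) = Real.exp (-(δ * Real.log (1 + L))) := by
      have h3 : (0 : ℝ) < 1 + L := by positivity
      rw [Real.rpow_def_of_pos h3]
      congr 1
      ring
    rw [h1, h2, ← Real.exp_add, ← Real.exp_add, ← Real.exp_add]
    apply Real.exp_le_exp.mpr
    linarith
  calc (∏ c, (bH g C j c : ℝ)) * (∏ k : Fin K, (∏ p ∈ Pk (M * M1) K L k, (1 - (F p).2) +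
        2 * tl (Dd c1 K L k) (Pk (M * M1) K L k) (fun p => (F p).2)) +
        ((1 + η) ^ N - 1) * ∏ k : Fin K, ∏ p ∈ Pk (M * M1) K L k, (1 + (F p).2))
      ≤ (∏ c, (bH g C j c : ℝ)) * (3 ^ K * Real.exp (-W) + Real.exp (-W)) :=
        mul_le_mul_of_nonneg_left (add_le_add hmain herr) hH0
    _ ≤ ((3 * C) ^ N * 2 ^ (∑ i, j i)) * (3 ^ K * Real.exp (-W) + Real.exp (-W)) :=
        mul_le_mul_of_nonneg_right hH (by positivity)
    _ = ((3 * C) ^ N * 2 ^ (∑ i, j i)) * (3 ^ K + 1) * Real.exp (-W) := by ring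
    _ ≤ ((3 * C) ^ N * 2 ^ (∑ i, j i)) * (3 ^ K + 1) *
        (Real.exp C2 * ((∏ i, (1 + j i : ℝ)⁻¹) * (1 + (L : ℝ)) ^ (-δ) *
      Real.exp (TT g (Real.exp L)))) :=
        mul_le_mul_of_nonneg_left hexpW (by positivity)
    _ = (3 * C) ^ N * (3 ^ K + 1) * Real.exp C2 * (2 ^ (∑ i, j i) *
        (∏ i, (1 + j i : ℝ)⁻¹) * (1 + (L : ℝ)) ^ (-δ)) * Real.exp (TT g (Real.exp L)) := by ring

theorem sv3 {ι : Type} [Fintype ι] [DecidableEq ι] {g : ι → ℤ[X]} (hg : Fam g) (h2 : ∀ i, 2 ≤ (g i).natDegree)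
    (M : ℕ) (hM : M ≠ 0) (C : ℝ) (hC : 1 ≤ C) :
    ∃ (C' δ : ℝ) (K : ℕ), 0 < δ ∧ 0 < C' ∧ 2 ≤ K ∧ ∀ (j : ι → ℕ) (i₀ : ι), (∀ i, j i ≤ j i₀) →
      (3 ≤ (g i₀).natDegree ∨ ∃ i₁, i₁ ≠ i₀ ∧ (j i₀ : ℝ) ^ (1 - 1 / (K : ℝ)) ≤ j i₁) →
      (Nat.card {x : Co g → ℤ // Bx g C j x ∧ Loc g M x} : ℝ) ≤
        C' * (2 ^ (∑ i, j i) * (∏ i, (1 + j i : ℝ)⁻¹) * (1 + j i₀ : ℝ) ^ (-δ)) *
          Real.exp (TT g (Real.exp (j i₀))) := by
  obtain ⟨C', δ, K, L1, hδ, hC', hK2, h⟩ := N4_large hg h2 M hM C hC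
  have hL1 : (1 : ℝ) ≤ 1 + L1 := by
    have : (0 : ℝ) ≤ L1 := Nat.cast_nonneg _
    linarith
  set N : ℕ := ∑ i, (g i).natDegree with hN
  set C3 : ℝ := (3 * C) ^ N * ((1 + (L1 : ℝ)) ^ (Fintype.card ι) * (1 + (L1 : ℝ)) ^ δ) with hC3
  have hC30 : 0 < C3 := by positivity
  refine ⟨max C' C3, δ, K, hδ, lt_max_of_lt_left hC', hK2, ?_⟩
  intro j i₀ hmax hcase
  have hpos : 0 ≤ 2 ^ (∑ i, j i) * (∏ i, (1 + j i : ℝ)⁻¹) * (1 + j i₀ : ℝ) ^ (-δ) := by
    have h1 : 0 ≤ ∏ i, (1 + j i : ℝ)⁻¹ := Finset.prod_nonneg fun i _ => by positivity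
    positivity
  rcases le_or_gt L1 (j i₀) with hL | hL
  · refine le_trans (h j i₀ hmax hcase hL) ?_
    apply mul_le_mul_of_nonneg_right _ (Real.exp_pos _).le
    exact mul_le_mul_of_nonneg_right (le_max_left _ _) hpos
  · have hb := bx_card hg C hC j
    have hsub : (Nat.card {x : Co g → ℤ // Bx g C j x ∧ Loc g M x} : ℝ) ≤
        Nat.card {x : Co g → ℤ // Bx g C j x} := by
      have hfin : {x : Co g → ℤ | Bx g C j x}.Finite := hb.1
      have h2 := Nat.card_mono hfin (s := {x : Co g → ℤ | Bx g C j x ∧ Loc g M x}) fun x hx => hx.1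
      exact_mod_cast h2
    have hTT : 1 ≤ Real.exp (TT g (Real.exp (j i₀))) := by
      apply Real.one_le_exp
      unfold TT PT.PS
      apply Finset.sum_nonneg
      intro p _
      have h4 : 0 ≤ PT.ind (RP g) p := by
        unfold PT.ind
        split_ifs
        · exact zero_le_one
        · exact le_rfl
      positivity
    have hprod : ((1 + (L1 : ℝ)) ^ (Fintype.card ι))⁻¹ ≤ ∏ i, (1 + j i : ℝ)⁻¹ := by
      rw [← inv_pow, ← Finset.card_univ, ← Finset.prod_const]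
      apply Finset.prod_le_prod
      · intro i _
        positivity
      · intro i _
        apply inv_anti₀ (by positivity)
        have h5 : ((j i : ℕ) : ℝ) ≤ L1 := by
          have := hmax i
          exact_mod_cast (by omega : j i ≤ L1)
        linarith
    have hrp : ((1 + (L1 : ℝ)) ^ δ)⁻¹ ≤ (1 + j i₀ : ℝ) ^ (-δ) := by
      rw [Real.rpow_neg (by positivity)]
      apply inv_anti₀ (by positivity)
      apply Real.rpow_le_rpow (by positivity) _ hδ.le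
      have h5 : ((j i₀ : ℕ) : ℝ) ≤ L1 := by exact_mod_cast hL.le
      linarith
    have h6 : 1 ≤ ((1 + (L1 : ℝ)) ^ (Fintype.card ι) * (1 + (L1 : ℝ)) ^ δ) *
        ((∏ i, (1 + j i : ℝ)⁻¹) * (1 + j i₀ : ℝ) ^ (-δ)) := by
      have h7 : ((1 + (L1 : ℝ)) ^ (Fintype.card ι))⁻¹ * ((1 + (L1 : ℝ)) ^ δ)⁻¹ ≤
          (∏ i, (1 + j i : ℝ)⁻¹) * (1 + j i₀ : ℝ) ^ (-δ) :=
        mul_le_mul hprod hrp (by positivity) (Finset.prod_nonneg fun i _ => by positivity)
      have h8 : 0 < (1 + (L1 : ℝ)) ^ (Fintype.card ι) * (1 + (L1 : ℝ)) ^ δ := by positivity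
      calc (1 : ℝ) = ((1 + (L1 : ℝ)) ^ (Fintype.card ι) * (1 + (L1 : ℝ)) ^ δ) *
            (((1 + (L1 : ℝ)) ^ (Fintype.card ι))⁻¹ * ((1 + (L1 : ℝ)) ^ δ)⁻¹) := by
            rw [← mul_inv, mul_inv_cancel₀ h8.ne']
        _ ≤ _ := mul_le_mul_of_nonneg_left h7 h8.le
    have h9 : 0 ≤ (3 * C) ^ N * 2 ^ (∑ i, j i) := by positivity
    calc (Nat.card {x : Co g → ℤ // Bx g C j x ∧ Loc g M x} : ℝ)
        ≤ (3 * C) ^ N * 2 ^ (∑ i, j i) := hsub.trans hb.2
      _ ≤ ((3 * C) ^ N * 2 ^ (∑ i, j i)) * (((1 + (L1 : ℝ)) ^ (Fintype.card ι) * (1 + (L1 : ℝ)) ^ δ) *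
        ((∏ i, (1 + j i : ℝ)⁻¹) * (1 + j i₀ : ℝ) ^ (-δ))) := le_mul_of_one_le_right h9 h6
      _ = C3 * (2 ^ (∑ i, j i) * (∏ i, (1 + j i : ℝ)⁻¹) * (1 + j i₀ : ℝ) ^ (-δ)) := by
        rw [hC3]
        ring
      _ ≤ max C' C3 * (2 ^ (∑ i, j i) * (∏ i, (1 + j i : ℝ)⁻¹) * (1 + j i₀ : ℝ) ^ (-δ)) :=
        mul_le_mul_of_nonneg_right (le_max_right _ _) hpos
      _ ≤ max C' C3 * (2 ^ (∑ i, j i) * (∏ i, (1 + j i : ℝ)⁻¹) * (1 + j i₀ : ℝ) ^ (-δ)) *
          Real.exp (TT g (Real.exp (j i₀))) :=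
        le_mul_of_one_le_right (mul_nonneg (hC'.le.trans (le_max_left _ _)) hpos) hTT

end EN
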