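import Pool.Agent.Lib.MP_10e784_agN2.N0

/-!
LEAF N5B (medium).  From the identities over `ℚ` to the numbers of roots modulo `p`.

Write the eight facts as identities of polynomials over `ℚ`: `(qq g₂).comp A = qq G * Q₁`, `(qq g₁).comp B = qq G * Q₂`, `U.comp A + V.comp A * B - X = qq G * Q₃`, and the three
relations with their `a`, `b`.  Let `M ≠ 0` be a common multiple of the denominators of all coefficients of `A, B, U, V, Q₁, Q₂, Q₃` and of the coefficients of the coefficients of the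
`a`, `b`.  Let `p` be a prime with `p ∤ M`.  Let `R ⊆ ℚ` be the subring of the rational numbers with denominator prime to `p` (or `Localization.Away (M : ℤ)`, or `ℤ_(p)`), with the
ring homomorphism `φ : R → ZMod p`.  All polynomials are images of polynomials over `R` (`Polynomial.lifts`), the identities hold over `R` (`R → ℚ` is injective) and can be mapped
to `ZMod p`; `qq g₁, qq g₂, qq G` become `red p g₁` and so on.  (Alternative without `R`: for a rational number `c` with `p ∤ c.den` use `(c.num : ZMod p) / c.den`.)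
`rt G p ≤ rt g₁ p * rt g₂ p`: to the root `t` of `G` in `ZMod p` attach the pair `(B(t), A(t))` of roots of `g₁` and `g₂`; injective, since `t = U(A(t)) + V(A(t)) B(t)`.
`rt g₁ p * rt g₂ p ≤ rt G p`: to the pair `(b, a)` of roots attach `t = U(a) + V(a) b`: the relation for `bi (qq G) U V` evaluated at `X = a`, `Y = b` gives `G(t) = 0`; the relations for
`bi A U V - C X` and `bi B U V - X` give `A(t) = a`, `B(t) = b`: injective.
(`PT.rt g p` is the number of roots of `g` in `ZMod p`, see `Lib/MP_10e784_ag/PT/`.)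
Private lemmas: prefix `N5B_`.
-/

set_option autoImplicit false

namespace EN

open Polynomial Finset TW EL

private def N5B_R (p : ℕ) : Subring ℚ where
  carrier := {q | q.den.Coprime p}
  mul_mem' := fun {a b} ha hb =>
    Nat.Coprime.coprime_dvd_left (Rat.mul_den_dvd a b) (Nat.Coprime.mul_left ha hb)
  one_mem' := by simp
  add_mem' := fun {a b} ha hb =>
    Nat.Coprime.coprime_dvd_left (Rat.add_den_dvd a b) (Nat.Coprime.mul_left ha hb)
  zero_mem' := by simp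
  neg_mem' := fun {a} ha => by
    show (-a).den.Coprime p
    rw [Rat.neg_den]
    exact ha

private theorem N5B_ne {p : ℕ} [Fact p.Prime] {q : ℚ} (h : q ∈ N5B_R p) : (q.den : ZMod p) ≠ 0 := by
  have h1 : q.den.Coprime p := h
  intro h2
  rw [ZMod.natCast_eq_zero_iff] at h2
  have h3 := Nat.dvd_gcd h2 (dvd_refl p)
  rw [Nat.Coprime] at h1
  rw [h1] at h3
  exact (Fact.out : p.Prime).one_lt.ne' (Nat.dvd_one.1 h3)

private noncomputable def N5B_phi (p : ℕ) [Fact p.Prime] : N5B_R p →+* ZMod p where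
  toFun q := ((q : ℚ) : ZMod p)
  map_one' := by simp
  map_mul' a b := Rat.cast_mul_of_ne_zero (N5B_ne a.2) (N5B_ne b.2)
  map_zero' := by simp
  map_add' a b := Rat.cast_add_of_ne_zero (N5B_ne a.2) (N5B_ne b.2)

private theorem N5B_ex : ∃ (S : ℕ → Type) (_ : ∀ p, CommRing (S p)) (i : ∀ p, S p →+* ℚ),
    (∀ p, Function.Injective (i p)) ∧
    (∀ t : ℚ, ∃ M : ℕ, M ≠ 0 ∧ ∀ p : ℕ, p.Prime → ¬ p ∣ M → t ∈ (i p).range) ∧
    ∀ p : ℕ, p.Prime → Nonempty (S p →+* ZMod p) := by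
  refine ⟨fun p => N5B_R p, fun p => inferInstance, fun p => (N5B_R p).subtype,
    fun p => Subtype.val_injective, fun t => ⟨t.den, t.den_ne_zero, fun p hp h => ?_⟩,
    fun p hp => ?_⟩
  · exact ⟨⟨t, ((Nat.Prime.coprime_iff_not_dvd hp).2 h).symm⟩, rfl⟩
  · have : Fact p.Prime := ⟨hp⟩
    exact ⟨N5B_phi p⟩

private theorem N5B_lift {T : Type} [CommRing T] {S : ℕ → Type} [∀ p, CommRing (S p)]
    (i : ∀ p, S p →+* T)
    (h : ∀ t : T, ∃ M : ℕ, M ≠ 0 ∧ ∀ p : ℕ, p.Prime → ¬ p ∣ M → t ∈ (i p).range) (P : T[X]) :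
    ∃ M : ℕ, M ≠ 0 ∧ ∀ p : ℕ, p.Prime → ¬ p ∣ M → P ∈ (mapRingHom (i p)).range := by
  induction P using Polynomial.induction_on' with
  | add P Q hP hQ =>
    obtain ⟨M, hM, h1⟩ := hP
    obtain ⟨M', hM', h2⟩ := hQ
    refine ⟨M * M', mul_ne_zero hM hM', fun p hp hd => ?_⟩
    exact add_mem (h1 p hp fun hd' => hd (dvd_mul_of_dvd_left hd' _))
      (h2 p hp fun hd' => hd (dvd_mul_of_dvd_right hd' _))
  | monomial n a =>
    obtain ⟨M, hM, h1⟩ := h a
    refine ⟨M, hM, fun p hp hd => ?_⟩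
    obtain ⟨s, hs⟩ := h1 p hp hd
    refine ⟨monomial n s, ?_⟩
    rw [coe_mapRingHom, map_monomial, hs]

section

variable {R F : Type} [CommRing R] [CommRing F] (i : R →+* ℚ) (φ : R →+* F)

private theorem N5B_qq (G : ℤ[X]) : qq G = (G.map (Int.castRingHom R)).map i := by
  rw [Polynomial.map_map]
  exact congrArg (fun f => G.map f) (RingHom.ext_int _ _)

private theorem N5B_red (G : ℤ[X]) (t : F) :
    (G.map (Int.castRingHom R)).eval₂ φ t = (G.map (Int.castRingHom F)).eval t := by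
  rw [eval₂_map, eval_map]
  exact congrArg (fun f => G.eval₂ f t) (RingHom.ext_int _ _)

private noncomputable def N5B_bi (P U V : R[X]) : R[X][X] :=
  P.eval₂ (C.comp C) (C U + C V * X)

private theorem N5B_bi_map (P U V : R[X]) :
    (N5B_bi P U V).map (mapRingHom i) = bi (P.map i) (U.map i) (V.map i) := by
  unfold N5B_bi bi
  rw [← coe_mapRingHom, hom_eval₂, eval₂_map]
  have h1 : (mapRingHom (mapRingHom i)).comp (C.comp C) =
      ((C : ℚ[X] →+* ℚ[X][X]).comp (C : ℚ →+* ℚ[X])).comp i := by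
    refine RingHom.ext fun a => ?_
    simp
  have h2 : (mapRingHom (mapRingHom i)) (C U + C V * X) = C (U.map i) + C (V.map i) * X := by
    simp
  rw [h1, h2]

private noncomputable def N5B_ev (a b : F) : R[X][X] →+* F :=
  eval₂RingHom (eval₂RingHom φ a) b

private theorem N5B_ev_C (a b : F) (P : R[X]) :
    N5B_ev φ a b (C P) = P.eval₂ φ a := by
  show (C P).eval₂ (eval₂RingHom φ a) b = _
  rw [eval₂_C]
  rfl

private theorem N5B_ev_X (a b : F) : N5B_ev φ a b X = b := by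
  show (X : R[X][X]).eval₂ (eval₂RingHom φ a) b = _
  rw [eval₂_X]

private theorem N5B_ev_map (a b : F) (P : R[X]) :
    N5B_ev φ a b (P.map C) = P.eval₂ φ b := by
  show (P.map C).eval₂ (eval₂RingHom φ a) b = _
  rw [eval₂_map]
  refine congrArg (fun f => P.eval₂ f b) (RingHom.ext fun r => ?_)
  show (C r).eval₂ φ a = _
  rw [eval₂_C]

private theorem N5B_ev_bi (a b : F) (P U V : R[X]) :
    N5B_ev φ a b (N5B_bi P U V) = P.eval₂ φ (U.eval₂ φ a + V.eval₂ φ a * b) := by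
  unfold N5B_bi
  rw [hom_eval₂, map_add, map_mul, N5B_ev_C, N5B_ev_C, N5B_ev_X]
  refine congrArg (fun f => P.eval₂ f _) (RingHom.ext fun r => ?_)
  show N5B_ev φ a b (C (C r)) = _
  rw [N5B_ev_C, eval₂_C]

variable (hi : Function.Injective i)

include hi

private theorem N5B_rel {g₁ g₂ : ℤ[X]} {H : ℚ[X][X]} {H' : R[X][X]}
    (hH : H'.map (mapRingHom i) = H) {a b : ℚ[X][X]}
    (h : H = C (qq g₂) * a + (qq g₁).map C * b)
    {a' b' : R[X][X]} (ha : a'.map (mapRingHom i) = a)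
    (hb : b'.map (mapRingHom i) = b) (α β : F)
    (hα : (g₂.map (Int.castRingHom F)).eval α = 0)
    (hβ : (g₁.map (Int.castRingHom F)).eval β = 0) :
    N5B_ev φ α β H' = 0 := by
  have h1 : H' = C (g₂.map (Int.castRingHom R)) * a' +
      (g₁.map (Int.castRingHom R)).map C * b' := by
    have h2 : Function.Injective (mapRingHom i) := by
      rw [coe_mapRingHom]
      exact map_injective _ hi
    have h3 := map_injective _ h2
    apply h3
    have h4 : ((g₁.map (Int.castRingHom R)).map C).map (mapRingHom i) = (qq g₁).map C := by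
      rw [N5B_qq i g₁, Polynomial.map_map, Polynomial.map_map, Polynomial.map_map,
        Polynomial.map_map]
      exact congrArg (fun f => g₁.map f) (RingHom.ext_int _ _)
    rw [hH, h, Polynomial.map_add, Polynomial.map_mul, Polynomial.map_mul, ha, hb, h4, map_C,
      coe_mapRingHom, ← N5B_qq]
  rw [h1, map_add, map_mul, map_mul, N5B_ev_C, N5B_ev_map, N5B_red, N5B_red, hα, hβ, zero_mul,
    zero_mul, add_zero]

end

theorem comp_count (g₁ g₂ G : ℤ[X]) (h1 : g₁.Monic) (h2 : g₂.Monic) (hG : G.Monic) (A B U V : ℚ[X])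
    (e1 : qq G ∣ (qq g₂).comp A) (e2 : qq G ∣ (qq g₁).comp B) (e3 : qq G ∣ U.comp A + V.comp A * B - X)
    (r1 : Rel g₁ g₂ (bi (qq G) U V)) (r2 : Rel g₁ g₂ (bi A U V - C X)) (r3 : Rel g₁ g₂ (bi B U V - X)) :
    ∃ M : ℕ, M ≠ 0 ∧ ∀ p : ℕ, p.Prime → ¬ p ∣ M → PT.rt G p = PT.rt g₁ p * PT.rt g₂ p := by
  obtain ⟨S, instS, i, hi, hbase, hφ⟩ := N5B_ex
  have one : ∀ P : ℚ[X], ∃ M : ℕ, M ≠ 0 ∧ ∀ p : ℕ, p.Prime → ¬ p ∣ M →
      ∃ P' : (S p)[X], P'.map (i p) = P := by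
    intro P
    obtain ⟨M, hM, h⟩ := N5B_lift i hbase P
    exact ⟨M, hM, fun p hp hd => h p hp hd⟩
  have two : ∀ P : ℚ[X][X], ∃ M : ℕ, M ≠ 0 ∧ ∀ p : ℕ, p.Prime → ¬ p ∣ M →
      ∃ P' : (S p)[X][X], P'.map (mapRingHom (i p)) = P := by
    intro P
    obtain ⟨M, hM, h⟩ := N5B_lift (fun p => mapRingHom (i p)) (N5B_lift i hbase) P
    exact ⟨M, hM, fun p hp hd => h p hp hd⟩
  obtain ⟨Q₁, e1⟩ := e1
  obtain ⟨Q₂, e2⟩ := e2
  obtain ⟨Q₃, e3⟩ := e3
  obtain ⟨a1, b1, r1⟩ := r1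
  obtain ⟨a2, b2, r2⟩ := r2
  obtain ⟨a3, b3, r3⟩ := r3
  obtain ⟨m1, n1, lA⟩ := one A
  obtain ⟨m2, n2, lB⟩ := one B
  obtain ⟨m3, n3, lU⟩ := one U
  obtain ⟨m4, n4, lV⟩ := one V
  obtain ⟨m5, n5, lQ₁⟩ := one Q₁
  obtain ⟨m6, n6, lQ₂⟩ := one Q₂
  obtain ⟨m7, n7, lQ₃⟩ := one Q₃
  obtain ⟨k1, o1, la1⟩ := two a1
  obtain ⟨k2, o2, lb1⟩ := two b1
  obtain ⟨k3, o3, la2⟩ := two a2
  obtain ⟨k4, o4, lb2⟩ := two b2
  obtain ⟨k5, o5, la3⟩ := two a3
  obtain ⟨k6, o6, lb3⟩ := two b3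
  refine ⟨m1 * m2 * m3 * m4 * m5 * m6 * m7 * (k1 * k2 * k3 * k4 * k5 * k6), by simp [*], ?_⟩
  intro p hp hM
  simp only [hp.dvd_mul, not_or] at hM
  obtain ⟨⟨⟨⟨⟨⟨⟨p1, p2⟩, p3⟩, p4⟩, p5⟩, p6⟩, p7⟩, ⟨⟨⟨⟨s1, s2⟩, s3⟩, s4⟩, s5⟩, s6⟩ := hM
  obtain ⟨A', hA'⟩ := lA p hp p1
  obtain ⟨B', hB'⟩ := lB p hp p2
  obtain ⟨U', hU'⟩ := lU p hp p3
  obtain ⟨V', hV'⟩ := lV p hp p4
  obtain ⟨Q₁', hQ₁'⟩ := lQ₁ p hp p5
  obtain ⟨Q₂', hQ₂'⟩ := lQ₂ p hp p6
  obtain ⟨Q₃', hQ₃'⟩ := lQ₃ p hp p7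
  obtain ⟨a1', ha1'⟩ := la1 p hp s1
  obtain ⟨b1', hb1'⟩ := lb1 p hp s2
  obtain ⟨a2', ha2'⟩ := la2 p hp s3
  obtain ⟨b2', hb2'⟩ := lb2 p hp s4
  obtain ⟨a3', ha3'⟩ := la3 p hp s5
  obtain ⟨b3', hb3'⟩ := lb3 p hp s6
  obtain ⟨φ⟩ := hφ p hp
  have hinj : Function.Injective (Polynomial.map (i p)) := map_injective _ (hi p)
  have f1 : (g₂.map (Int.castRingHom (S p))).comp A' = G.map (Int.castRingHom (S p)) * Q₁' := by
    apply hinj
    rw [Polynomial.map_comp, Polynomial.map_mul, ← N5B_qq, ← N5B_qq, hA', hQ₁', e1]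
  have f2 : (g₁.map (Int.castRingHom (S p))).comp B' = G.map (Int.castRingHom (S p)) * Q₂' := by
    apply hinj
    rw [Polynomial.map_comp, Polynomial.map_mul, ← N5B_qq, ← N5B_qq, hB', hQ₂', e2]
  have f3 : U'.comp A' + V'.comp A' * B' - X = G.map (Int.castRingHom (S p)) * Q₃' := by
    apply hinj
    rw [Polynomial.map_sub, Polynomial.map_add, Polynomial.map_mul, Polynomial.map_mul,
      Polynomial.map_comp, Polynomial.map_comp, map_X, ← N5B_qq, hA', hB', hU', hV', hQ₃', e3]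
  have t1 : (N5B_bi (G.map (Int.castRingHom (S p))) U' V').map (mapRingHom (i p)) =
      bi (qq G) U V := by
    rw [N5B_bi_map, ← N5B_qq, hU', hV']
  have t2 : (N5B_bi A' U' V' - C X).map (mapRingHom (i p)) = bi A U V - C X := by
    rw [Polynomial.map_sub, N5B_bi_map, hA', hU', hV', map_C, coe_mapRingHom, map_X]
  have t3 : (N5B_bi B' U' V' - X).map (mapRingHom (i p)) = bi B U V - X := by
    rw [Polynomial.map_sub, N5B_bi_map, hB', hU', hV', map_X]
  unfold PT.rt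
  rw [← Nat.card_prod]
  refine Nat.card_congr
    { toFun := fun t => (⟨B'.eval₂ φ t.1, ?_⟩, ⟨A'.eval₂ φ t.1, ?_⟩)
      invFun := fun q => ⟨U'.eval₂ φ q.2.1 + V'.eval₂ φ q.2.1 * q.1.1, ?_⟩
      left_inv := fun t => ?_
      right_inv := fun q => ?_ }
  · have h := congrArg (Polynomial.eval₂ φ t.1) f2
    rw [eval₂_comp, eval₂_mul, N5B_red, N5B_red, t.2, zero_mul] at h
    exact h
  · have h := congrArg (Polynomial.eval₂ φ t.1) f1
    rw [eval₂_comp, eval₂_mul, N5B_red, N5B_red, t.2, zero_mul] at h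
    exact h
  · have h := N5B_rel (i p) φ (hi p) t1 r1 ha1' hb1' q.2.1 q.1.1 q.2.2 q.1.2
    rw [N5B_ev_bi, N5B_red] at h
    exact h
  · apply Subtype.ext
    have h := congrArg (Polynomial.eval₂ φ t.1) f3
    rw [eval₂_sub, eval₂_add, eval₂_mul, eval₂_mul, eval₂_comp, eval₂_comp, N5B_red, t.2, zero_mul,
      eval₂_X] at h
    exact sub_eq_zero.1 h
  · refine Prod.ext (Subtype.ext ?_) (Subtype.ext ?_)
    · have h := N5B_rel (i p) φ (hi p) t3 r3 ha3' hb3' q.2.1 q.1.1 q.2.2 q.1.2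
      rw [map_sub, N5B_ev_bi, N5B_ev_X] at h
      exact sub_eq_zero.1 h
    · have h := N5B_rel (i p) φ (hi p) t2 r2 ha2' hb2' q.2.1 q.1.1 q.2.2 q.1.2
      rw [map_sub, N5B_ev_bi, N5B_ev_C, eval₂_X] at h
      exact sub_eq_zero.1 h

end EN
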