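import Pool.Agent.Lib.MP_10e784_agN2.N5A
import Pool.Agent.Lib.MP_10e784_agN2.N5B

/-! The polynomial of the compositum of a quadratic field and the field of `g₂`. -/

set_option autoImplicit false

namespace EN

open Polynomial Finset TW EL

theorem comp_poly (g₁ g₂ : ℤ[X]) (h1 : g₁.Monic) (h2 : g₂.Monic) (i1 : Irreducible (qq g₁)) (i2 : Irreducible (qq g₂))
    (hd : g₁.natDegree = 2) (hn : ∀ h : ℚ[X], ¬ qq g₂ ∣ (qq g₁).comp h) :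
    ∃ (G : ℤ[X]) (M : ℕ), G.Monic ∧ Irreducible (qq G) ∧ M ≠ 0 ∧
      ∀ p : ℕ, p.Prime → ¬ p ∣ M → PT.rt G p = PT.rt g₁ p * PT.rt g₂ p := by
  obtain ⟨G, A, B, U, V, hG, iG, e1, e2, e3, r1, r2, r3⟩ := comp_field g₁ g₂ h1 h2 i1 i2 hd hn
  obtain ⟨M, hM, h⟩ := comp_count g₁ g₂ G h1 h2 hG A B U V e1 e2 e3 r1 r2 r3
  exact ⟨G, M, hG, iG, hM, h⟩

end EN
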