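import Pool.Agent.Lib.MP_10e784_agN2.N5R

/-!
LEAF N5A (medium).  A primitive element of the compositum of a quadratic field and the field of `g₂`.

`L = AlgebraicClosure ℚ`, `α` a root of `qq g₂`, `β` a root of `qq g₁` in `L`.  Primitive element: `ℚ(α, β) = ℚ(γ₀)` (`IntermediateField.adjoin ℚ {α, β}` is
finite-dimensional, `Field.exists_primitive_element`; or take `γ = β + m α` with the elementary proof); `γ = m γ₀` is integral over `ℤ` for some integer `m ≠ 0`
(`exists_integral_multiple` / `IsIntegral.exists_multiple_integral..`) and generates the same field.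
`G = minpoly ℤ γ`: monic, and `qq G = minpoly ℚ γ` (`minpoly.isIntegrallyClosed_eq_field_fractions'`), which is irreducible.
`A, B`: `α, β ∈ ℚ(γ)` are polynomials in `γ` (`Algebra.adjoin` = `IntermediateField.adjoin` for an algebraic element; `Algebra.adjoin_singleton_eq_range_aeval`): `α = A(γ)`, `β = B(γ)`.
`U, V`: every element of `ℚ(α, β) = ℚ[α, β]` is a polynomial in `α, β`, and `β² = - b β - c` (`g₁ = X² + b X + c`), so it is `U(α) + V(α) β` (the elements of this form are a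
subalgebra which contains `α, β`; `Algebra.adjoin_induction`; `Algebra.adjoin ℚ {α, β}` is a field since `α, β` are algebraic).
The three divisibilities: the polynomial on the right has the root `γ`, and `minpoly ℚ γ` divides every polynomial with root `γ` (`minpoly.dvd`).
The three relations: `rel_of_zero`, as `bi P U V` at `(α, β)` has the value `P(U(α) + V(α) β) = P(γ)`.
Private lemmas: prefix `N5A_`.
-/

set_option autoImplicit false

namespace EN

open Polynomial Finset TW EL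

private theorem N5A_lin {L : Type} [Field L] [Algebra ℚ L] (g₁ : ℤ[X]) (h1 : g₁.Monic) (hd : g₁.natDegree = 2)
    (α β : L) (hβ : aeval β (qq g₁) = 0) (z : L) (hz : z ∈ Algebra.adjoin ℚ ({α, β} : Set L)) :
    ∃ U V : ℚ[X], z = aeval α U + aeval α V * β := by
  have hβ2 : β ^ 2 = algebraMap ℚ L (-(g₁.coeff 0 : ℚ)) + algebraMap ℚ L (-(g₁.coeff 1 : ℚ)) * β := by
    have h2 : qq g₁ = X ^ 2 + C (g₁.coeff 1 : ℚ) * X + C (g₁.coeff 0 : ℚ) := by
      have h3 : (qq g₁).natDegree = 2 := by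
        unfold qq
        rw [h1.natDegree_map, hd]
      have h4 : (qq g₁).coeff 2 = 1 := by
        have := (h1.map (Int.castRingHom ℚ)).coeff_natDegree
        unfold qq at h3 ⊢
        rwa [h3] at this
      rw [(qq g₁).as_sum_range_C_mul_X_pow, h3]
      simp only [Finset.sum_range_succ, Finset.sum_range_zero, zero_add, pow_zero, mul_one, pow_one, h4, C_1, one_mul]
      unfold qq
      simp only [coeff_map, eq_intCast]
      ring
    rw [h2] at hβ
    simp only [map_add, map_mul, map_pow, aeval_X, aeval_C] at hβ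
    simp only [map_neg]
    linear_combination hβ
  induction hz using Algebra.adjoin_induction with
  | mem x hx =>
    rcases hx with rfl | hx
    · exact ⟨X, 0, by simp⟩
    · rw [Set.mem_singleton_iff] at hx
      exact ⟨0, 1, by simp [hx]⟩
  | algebraMap r => exact ⟨C r, 0, by simp⟩
  | add x y _ _ hx hy =>
    obtain ⟨U, V, hx⟩ := hx
    obtain ⟨U', V', hy⟩ := hy
    refine ⟨U + U', V + V', ?_⟩
    rw [hx, hy, map_add, map_add]
    ring
  | mul x y _ _ hx hy =>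
    obtain ⟨U, V, hx⟩ := hx
    obtain ⟨U', V', hy⟩ := hy
    refine ⟨U * U' + C (-(g₁.coeff 0 : ℚ)) * (V * V'), U * V' + V * U' + C (-(g₁.coeff 1 : ℚ)) * (V * V'), ?_⟩
    rw [hx, hy]
    simp only [map_add, map_mul, aeval_C]
    linear_combination (aeval α V * aeval α V') * hβ2

private theorem N5A_bi {L : Type} [Field L] [Algebra ℚ L] (α β : L) (P U V : ℚ[X]) :
    ((bi P U V).map ((aeval α : ℚ[X] →ₐ[ℚ] L) : ℚ[X] →+* L)).eval β = aeval (aeval α U + aeval α V * β) P := by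
  set φ : ℚ[X][X] →+* L := (evalRingHom β).comp (mapRingHom ((aeval α : ℚ[X] →ₐ[ℚ] L) : ℚ[X] →+* L)) with hφ
  have h1 : ∀ F : ℚ[X][X], (F.map ((aeval α : ℚ[X] →ₐ[ℚ] L) : ℚ[X] →+* L)).eval β = φ F := fun F => rfl
  rw [h1]
  unfold bi
  rw [hom_eval₂, aeval_def]
  have h2 : φ.comp (C.comp C) = algebraMap ℚ L := Subsingleton.elim _ _
  rw [h2]
  have h3 : φ (C U + C V * X) = aeval α U + aeval α V * β := by
    rw [← h1]
    simp
  rw [h3]

theorem comp_field (g₁ g₂ : ℤ[X]) (h1 : g₁.Monic) (h2 : g₂.Monic) (i1 : Irreducible (qq g₁)) (i2 : Irreducible (qq g₂))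
    (hd : g₁.natDegree = 2) (hn : ∀ h : ℚ[X], ¬ qq g₂ ∣ (qq g₁).comp h) :
    ∃ (G : ℤ[X]) (A B U V : ℚ[X]), G.Monic ∧ Irreducible (qq G) ∧
      qq G ∣ (qq g₂).comp A ∧ qq G ∣ (qq g₁).comp B ∧ qq G ∣ U.comp A + V.comp A * B - X ∧
      Rel g₁ g₂ (bi (qq G) U V) ∧ Rel g₁ g₂ (bi A U V - C X) ∧ Rel g₁ g₂ (bi B U V - X) := by
  obtain ⟨α, hα⟩ := IsAlgClosed.exists_aeval_eq_zero (AlgebraicClosure ℚ) (qq g₂) i2.degree_pos.ne'
  obtain ⟨β, hβ⟩ := IsAlgClosed.exists_aeval_eq_zero (AlgebraicClosure ℚ) (qq g₁) i1.degree_pos.ne'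
  have aα : IsAlgebraic ℚ α := ⟨qq g₂, i2.ne_zero, hα⟩
  have aβ : IsAlgebraic ℚ β := ⟨qq g₁, i1.ne_zero, hβ⟩
  have hmem : ∀ x ∈ ({α, β} : Set (AlgebraicClosure ℚ)), IsAlgebraic ℚ x := by
    rintro x hx
    rcases hx with rfl | hx
    · exact aα
    · rw [Set.mem_singleton_iff] at hx
      rw [hx]
      exact aβ
  obtain ⟨E, hE⟩ : ∃ E : IntermediateField ℚ (AlgebraicClosure ℚ), E = IntermediateField.adjoin ℚ {α, β} := ⟨_, rfl⟩
  have hαE : α ∈ E := by
    rw [hE]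
    exact IntermediateField.subset_adjoin _ _ (by simp)
  have hβE : β ∈ E := by
    rw [hE]
    exact IntermediateField.subset_adjoin _ _ (by simp)
  have hsub : E.toSubalgebra = Algebra.adjoin ℚ {α, β} := by
    rw [hE]
    exact IntermediateField.adjoin_toSubalgebra_of_isAlgebraic hmem
  have hfin : FiniteDimensional ℚ E := by
    rw [hE]
    exact IntermediateField.finiteDimensional_adjoin fun x hx => (hmem x hx).isIntegral
  obtain ⟨γ₀, hγ₀⟩ := Field.exists_primitive_element ℚ E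
  have hall : ∀ a : E, ∃ A : ℚ[X], aeval γ₀ A = a := by
    intro a
    have h3 : a ∈ IntermediateField.adjoin ℚ {γ₀} := by
      rw [hγ₀]
      trivial
    have h4 : (IntermediateField.adjoin ℚ {γ₀}).toSubalgebra = Algebra.adjoin ℚ {γ₀} :=
      IntermediateField.adjoin_simple_toSubalgebra_of_isAlgebraic (Algebra.IsAlgebraic.isAlgebraic γ₀)
    have h5 : a ∈ Algebra.adjoin ℚ {γ₀} := by
      rw [← h4]
      exact h3
    rw [Algebra.adjoin_singleton_eq_range_aeval] at h5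
    exact h5
  have halg : IsAlgebraic ℤ γ₀ := by
    rw [IsFractionRing.isAlgebraic_iff ℤ ℚ E]
    exact Algebra.IsAlgebraic.isAlgebraic γ₀
  obtain ⟨m, hm, hint⟩ := halg.exists_integral_multiple
  obtain ⟨γ, hγ⟩ : ∃ γ : E, γ = m • γ₀ := ⟨_, rfl⟩
  rw [← hγ] at hint
  have hmE : ((m : ℚ) : E) ≠ 0 := by exact_mod_cast hm
  have hall' : ∀ a : E, ∃ A : ℚ[X], aeval γ A = a := by
    intro a
    obtain ⟨A, hA⟩ := hall a
    refine ⟨A.comp (C ((m : ℚ)⁻¹) * X), ?_⟩
    rw [aeval_comp, map_mul, aeval_C, aeval_X]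
    have h5 : algebraMap ℚ E ((m : ℚ)⁻¹) * γ = γ₀ := by
      rw [hγ, eq_ratCast, zsmul_eq_mul]
      push_cast
      push_cast at hmE
      rw [← mul_assoc, inv_mul_cancel₀ hmE, one_mul]
    rw [h5, hA]
  obtain ⟨A, hA⟩ := hall' ⟨α, hαE⟩
  obtain ⟨B, hB⟩ := hall' ⟨β, hβE⟩
  obtain ⟨U, V, hUV⟩ := N5A_lin g₁ h1 hd α β hβ (γ : AlgebraicClosure ℚ) (by
    rw [← hsub]
    exact γ.2)
  have hvα : ∀ P : ℚ[X], ((aeval (⟨α, hαE⟩ : E) P : E) : AlgebraicClosure ℚ) = aeval α P := by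
    intro P
    have := aeval_algHom_apply E.val (⟨α, hαE⟩ : E) P
    exact this.symm
  have hvβ : ∀ P : ℚ[X], ((aeval (⟨β, hβE⟩ : E) P : E) : AlgebraicClosure ℚ) = aeval β P := by
    intro P
    have := aeval_algHom_apply E.val (⟨β, hβE⟩ : E) P
    exact this.symm
  have hα' : aeval (⟨α, hαE⟩ : E) (qq g₂) = 0 := Subtype.ext (by rw [hvα, hα]; rfl)
  have hβ' : aeval (⟨β, hβE⟩ : E) (qq g₁) = 0 := Subtype.ext (by rw [hvβ, hβ]; rfl)
  have hUV' : γ = aeval (⟨α, hαE⟩ : E) U + aeval (⟨α, hαE⟩ : E) V * ⟨β, hβE⟩ := by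
    apply Subtype.ext
    rw [hUV]
    push_cast
    rw [hvα, hvα]
  have hG : qq (minpoly ℤ γ) = minpoly ℚ γ := by
    rw [minpoly.isIntegrallyClosed_eq_field_fractions' ℚ hint]
    rfl
  have hdvd : ∀ P : ℚ[X], aeval γ P = 0 → qq (minpoly ℤ γ) ∣ P := by
    intro P hP
    rw [hG]
    exact minpoly.dvd ℚ γ hP
  have hrel : ∀ F : ℚ[X][X], (F.map ((aeval (⟨α, hαE⟩ : E) : ℚ[X] →ₐ[ℚ] E) : ℚ[X] →+* E)).eval (⟨β, hβE⟩ : E) = 0 →
      Rel g₁ g₂ F := fun F hF => rel_of_zero g₁ g₂ h1 i2 hd hn _ _ hα' hβ' F hF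
  refine ⟨minpoly ℤ γ, A, B, U, V, minpoly.monic hint, ?_, hdvd _ ?_, hdvd _ ?_, hdvd _ ?_, hrel _ ?_, hrel _ ?_, hrel _ ?_⟩
  · rw [hG]
    exact minpoly.irreducible (Algebra.IsIntegral.isIntegral γ)
  · rw [aeval_comp, hA, hα']
  · rw [aeval_comp, hB, hβ']
  · rw [map_sub, map_add, map_mul, aeval_comp, aeval_comp, hA, hB, aeval_X, ← hUV', sub_self]
  · rw [N5A_bi, ← hUV', hG, minpoly.aeval]
  · rw [Polynomial.map_sub, eval_sub, N5A_bi, ← hUV', hA]
    simp
  · rw [Polynomial.map_sub, eval_sub, N5A_bi, ← hUV', hB]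
    simp

end EN
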