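import Pool.Agent.Lib.MP_10e784_agN2.N0

/-!
LEAF N5R (easy+ / medium-, 2 theorems).  `β ∉ ℚ(α)`, and the relations between a root `α` of `g₂` and a root `β` of the quadratic polynomial `g₁`.

`lin_rel`: suppose `P₁(α) ≠ 0`.  Then `β = - P₀(α) / P₁(α)`.  `ℚ(α)` is algebraic over `ℚ`, so it consists of the values `h(α)`, `h ∈ ℚ[X]`: `qq g₂` is irreducible and does not divide
`P₁` (otherwise `P₁(α) = 0`), so `P₁ * W + qq g₂ * Z = 1` (`Irreducible.coprime_iff_not_dvd`), `W(α) = 1 / P₁(α)`.  Then `β = h(α)` with `h = - P₀ * W`, so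
`(qq g₁).comp h` has the root `α` and `qq g₂` divides it (an irreducible polynomial with root `α` divides every polynomial with root `α`: `minpoly`, or again coprimality).
Contradiction to `hn`.  So `P₁(α) = 0`, then `P₀(α) = 0`, and both are divisible by `qq g₂`.
`rel_of_zero`: divide `F` by the monic polynomial `(qq g₁).map C` of degree 2 (`modByMonic_add_div`): `F = (qq g₁).map C * b + R`, `R = C P₀ + C P₁ * X` (degree `< 2`).
Evaluate at `(α, β)` (`F.map (aeval α).toRingHom` evaluated at `β`; it is a ring homomorphism): `P₀(α) + P₁(α) β = 0`, so `P₀ = qq g₂ * A`, `P₁ = qq g₂ * B` by `lin_rel`.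
Private lemmas: prefix `N5R_`.
-/

set_option autoImplicit false

namespace EN

open Polynomial Finset TW EL

/-- a polynomial with the root `α` is divisible by `qq g₂` -/
private theorem N5R_dvd {L : Type} [Field L] [Algebra ℚ L] {g P : ℚ[X]} (i2 : Irreducible g) {α : L}
    (hα : aeval α g = 0) (hP : aeval α P = 0) : g ∣ P := by
  by_contra hn
  obtain ⟨a, b, hab⟩ := (i2.coprime_iff_not_dvd).2 hn
  have h1 := congrArg (aeval α) hab
  rw [map_add, map_mul, map_mul, hα, hP, mul_zero, mul_zero, add_zero, map_one] at h1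
  exact zero_ne_one h1

theorem lin_rel {L : Type} [Field L] [Algebra ℚ L] (g₁ g₂ : ℤ[X]) (i2 : Irreducible (qq g₂))
    (hn : ∀ h : ℚ[X], ¬ qq g₂ ∣ (qq g₁).comp h) (α β : L) (hα : aeval α (qq g₂) = 0) (hβ : aeval β (qq g₁) = 0)
    (P₀ P₁ : ℚ[X]) (h : aeval α P₀ + aeval α P₁ * β = 0) : qq g₂ ∣ P₀ ∧ qq g₂ ∣ P₁ := by
  by_cases h1 : aeval α P₁ = 0
  · rw [h1, zero_mul, add_zero] at h
    exact ⟨N5R_dvd i2 hα h, N5R_dvd i2 hα h1⟩
  · exfalso
    have h2 : ¬ qq g₂ ∣ P₁ := by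
      rintro ⟨W, hW⟩
      apply h1
      rw [hW, map_mul, hα, zero_mul]
    obtain ⟨a, b, hab⟩ := (i2.coprime_iff_not_dvd).2 h2
    have h3 : aeval α b * aeval α P₁ = 1 := by
      have h4 := congrArg (aeval α) hab
      rw [map_add, map_mul, map_mul, hα, mul_zero, zero_add, map_one] at h4
      exact h4
    have h5 : aeval α (-(P₀ * b)) = β := by
      rw [map_neg, map_mul]
      linear_combination (-(aeval α b)) * h + β * h3
    refine hn (-(P₀ * b)) (N5R_dvd i2 hα ?_)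
    rw [aeval_comp, h5, hβ]

theorem rel_of_zero {L : Type} [Field L] [Algebra ℚ L] (g₁ g₂ : ℤ[X]) (h1 : g₁.Monic) (i2 : Irreducible (qq g₂))
    (hd : g₁.natDegree = 2) (hn : ∀ h : ℚ[X], ¬ qq g₂ ∣ (qq g₁).comp h) (α β : L) (hα : aeval α (qq g₂) = 0)
    (hβ : aeval β (qq g₁) = 0) (F : ℚ[X][X]) (hF : (F.map ((aeval α : ℚ[X] →ₐ[ℚ] L) : ℚ[X] →+* L)).eval β = 0) :
    Rel g₁ g₂ F := by
  obtain ⟨G, hG⟩ : ∃ G : ℚ[X][X], G = (qq g₁).map C := ⟨_, rfl⟩
  have hm : G.Monic := by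
    rw [hG]
    exact (h1.map _).map _
  have hdeg : G.degree = 2 := by
    have hq : (qq g₁).Monic := h1.map _
    rw [hG, hq.degree_map C]
    have h3 : (qq g₁).degree = g₁.degree := h1.degree_map _
    rw [h3, degree_eq_natDegree h1.ne_zero, hd]
    rfl
  have hR : F %ₘ G = C ((F %ₘ G).coeff 0) + C ((F %ₘ G).coeff 1) * X := by
    have h3 : (F %ₘ G).degree < 2 := by
      rw [← hdeg]
      exact degree_modByMonic_lt F hm
    have h4 : (F %ₘ G).degree ≤ 1 := by
      by_contra h5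
      push Not at h5
      have h6 := Order.succ_le_of_lt h5
      exact absurd (lt_of_lt_of_le h3 h6) (lt_irrefl _)
    rw [add_comm]
    exact eq_X_add_C_of_degree_le_one h4
  have hF' := modByMonic_add_div F G
  have hev : (((F %ₘ G)).map ((aeval α : ℚ[X] →ₐ[ℚ] L) : ℚ[X] →+* L)).eval β = 0 := by
    rw [← hF', Polynomial.map_add, Polynomial.map_mul, eval_add, eval_mul] at hF
    have h3 : (G.map ((aeval α : ℚ[X] →ₐ[ℚ] L) : ℚ[X] →+* L)).eval β = 0 := by
      rw [hG, Polynomial.map_map]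
      have h4 : (((aeval α : ℚ[X] →ₐ[ℚ] L) : ℚ[X] →+* L).comp C) = algebraMap ℚ L := by
        refine RingHom.ext fun x => ?_
        exact aeval_C α x
      rw [h4, eval_map_algebraMap, hβ]
    rw [h3, zero_mul, add_zero] at hF
    exact hF
  rw [hR, Polynomial.map_add, Polynomial.map_mul, map_C, map_C, map_X, eval_add, eval_mul, eval_C, eval_C,
    eval_X] at hev
  obtain ⟨⟨A, hA⟩, B, hB⟩ := lin_rel g₁ g₂ i2 hn α β hα hβ _ _ hev
  refine ⟨C A + C B * X, F /ₘ G, ?_⟩
  rw [← hG]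
  have h5 : C (qq g₂) * (C A + C B * X) = F %ₘ G := by
    rw [hR, hA, hB, C_mul, C_mul]
    ring
  rw [h5]
  exact hF'.symm

end EN
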