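import Pool.Agent.Lib.MP_10e784_agN2.N5
import Pool.Agent.Lib.MP_10e784_ag.PT.PTRtSum
import Pool.Agent.Lib.MP_10e784_ag.TW.TWRtLow

/-!
LEAF N6 (medium-).  A positive proportion of the primes modulo which `g₂` has a root is inert in the quadratic field of `g₁`.

`G, M` from `comp_poly`.  `r₁ = rt g₁`, `r₂ = rt g₂`.  `PT.rt_sum` (for `g₂`, `G`): `PS r x ≤ log log x + C`; `TW.rt_low`: `PS r x ≥ log log x - C` (`x ≥ 2`).
`a(p) = r₂(p) (2 - r₁(p))` (a real number, `≥ 0` for all primes: `r₁ ≤ 2`, number of roots of a monic polynomial of degree 2).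
`PS a x = 2 PS r₂ x - PS (r₁ r₂) x` and `|PS (r₁ r₂) x - PS (rt G) x| ≤ A'` (they differ only at the primes dividing `M`, all three functions are
bounded, `PT.rt_le`).  So `log log x - A ≤ PS a x ≤ log log x + A` for `x ≥ 2`, and for `2 ≤ x ≤ y`
`PS a y - PS a x ≥ log log y - log log x - 2 A`.
Let `d = g₁.coeff 1 ^ 2 - 4 * g₁.coeff 0` (nonzero since `qq g₁` is irreducible).  For a prime `p ∤ 2 d` one has `r₁(p) ∈ {0, 2}` (`X² + u X + v`: if `t` is a
root then `- u - t` is another one, different since `(2 t + u)² = d ≠ 0`), so `a(p) ≤ 2 B₂ · ind (Inr g₁ g₂) p`, `B₂ ≥ 1` a bound for `r₂`.  The primes dividing `2 d`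
contribute at most a constant to `PS a y - PS a x`.  So `c = 1 / (2 B₂)`.  (`PS` over `(x, y]`: `PT.PS f y - PT.PS f x = ∑_{⌊x⌋ < p ≤ ⌊y⌋} f p / p`, see `elmert_split` in
`Lib/MP_10e784_ag/EL/ELMert.lean`.)
Private lemmas: prefix `N6_`.
-/

set_option autoImplicit false

namespace EN

open Polynomial Finset TW EL

private theorem N6_split (a : ℕ → ℝ) (x y : ℝ) (hxy : x ≤ y) :
    PT.PS a y = PT.PS a x + ∑ p ∈ (Ioc ⌊x⌋₊ ⌊y⌋₊).filter Nat.Prime, a p / p := by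
  unfold PT.PS
  have h1 : ⌊x⌋₊ ≤ ⌊y⌋₊ := Nat.floor_le_floor hxy
  have h2 : (Icc 1 ⌊y⌋₊).filter Nat.Prime = (Icc 1 ⌊x⌋₊).filter Nat.Prime ∪ (Ioc ⌊x⌋₊ ⌊y⌋₊).filter Nat.Prime := by
    ext p
    simp only [mem_filter, mem_Icc, mem_union, mem_Ioc]
    constructor
    · rintro ⟨⟨h3, h4⟩, h5⟩
      rcases le_or_gt p ⌊x⌋₊ with h6 | h6
      · exact Or.inl ⟨⟨h3, h6⟩, h5⟩
      · exact Or.inr ⟨⟨h6, h4⟩, h5⟩
    · rintro (⟨⟨h3, h4⟩, h5⟩ | ⟨⟨h3, h4⟩, h5⟩)
      · exact ⟨⟨h3, h4.trans h1⟩, h5⟩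
      · exact ⟨⟨by omega, h4⟩, h5⟩
  rw [h2, Finset.sum_union]
  rw [Finset.disjoint_left]
  intro p hp hp'
  simp only [mem_filter, mem_Icc, mem_Ioc] at hp hp'
  omega

private theorem N6_form (g : ℤ[X]) (h1 : g.Monic) (hd : g.natDegree = 2) :
    g = C (g.coeff 0) + C (g.coeff 1) * X + X ^ 2 := by
  have h2 : g.coeff 2 = 1 := by
    rw [← hd]
    exact h1
  have h3 := g.as_sum_range_C_mul_X_pow
  rw [hd, Finset.sum_range_succ, Finset.sum_range_succ, Finset.sum_range_succ, Finset.sum_range_zero,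
    h2, zero_add, pow_zero, mul_one, pow_one, C_1, one_mul] at h3
  exact h3

private theorem N6_disc (g : ℤ[X]) (h1 : g.Monic) (hi : Irreducible (qq g)) (hd : g.natDegree = 2) :
    g.coeff 1 ^ 2 - 4 * g.coeff 0 ≠ 0 := by
  intro h0
  have h2 : qq g = C (g.coeff 0 : ℚ) + C (g.coeff 1 : ℚ) * X + X ^ 2 := by
    have h3 := congrArg (Polynomial.map (Int.castRingHom ℚ)) (N6_form g h1 hd)
    simp only [Polynomial.map_add, Polynomial.map_mul, Polynomial.map_pow, map_X, map_C] at h3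
    exact h3
  have h4 : ((g.coeff 1 : ℚ)) ^ 2 - 4 * (g.coeff 0 : ℚ) = 0 := by exact_mod_cast h0
  have h5 : (qq g).IsRoot (-(g.coeff 1 : ℚ) / 2) := by
    rw [IsRoot.def, h2]
    simp only [eval_add, eval_mul, eval_C, eval_X, eval_pow]
    linear_combination (-1 / 4) * h4
  have h6 := degree_eq_one_of_irreducible_of_root hi h5
  have h7 : (qq g).natDegree = 2 := by
    rw [← hd]
    exact h1.natDegree_map (Int.castRingHom ℚ)
  rw [natDegree_eq_of_degree_eq_some h6] at h7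
  exact absurd h7 (by norm_num)

private theorem N6_rt (g : ℤ[X]) (h1 : g.Monic) (hd : g.natDegree = 2) (p : ℕ) (hp : p.Prime)
    (hpd : ¬ p ∣ (g.coeff 1 ^ 2 - 4 * g.coeff 0).natAbs) : PT.rt g p = 0 ∨ PT.rt g p = 2 := by
  have : Fact p.Prime := ⟨hp⟩
  have hev : ∀ ρ : ZMod p, (g.map (Int.castRingHom (ZMod p))).eval ρ =
      (g.coeff 0 : ZMod p) + (g.coeff 1 : ZMod p) * ρ + ρ ^ 2 := by
    intro ρ
    have h3 := congrArg (fun q => (Polynomial.map (Int.castRingHom (ZMod p)) q).eval ρ) (N6_form g h1 hd)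
    simp only [Polynomial.map_add, Polynomial.map_mul, Polynomial.map_pow, map_X, map_C,
      eval_add, eval_mul, eval_C, eval_X, eval_pow] at h3
    exact h3
  have hdp : (g.coeff 1 : ZMod p) ^ 2 - 4 * (g.coeff 0 : ZMod p) ≠ 0 := by
    intro h0
    apply hpd
    rw [← Int.natCast_dvd, ← ZMod.intCast_zmod_eq_zero_iff_dvd]
    push_cast
    exact h0
  by_cases h : ∃ t : ZMod p, (g.map (Int.castRingHom (ZMod p))).eval t = 0
  · obtain ⟨t, ht⟩ := h
    right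
    have hne : t ≠ -(g.coeff 1 : ZMod p) - t := by
      intro h2
      apply hdp
      rw [hev] at ht
      linear_combination (2 * t + (g.coeff 1 : ZMod p)) * h2 - 4 * ht
    have hset : {ρ : ZMod p | (g.map (Int.castRingHom (ZMod p))).eval ρ = 0} =
        {t, -(g.coeff 1 : ZMod p) - t} := by
      ext ρ
      rw [Set.mem_insert_iff, Set.mem_singleton_iff]
      change (g.map (Int.castRingHom (ZMod p))).eval ρ = 0 ↔ _
      rw [hev] at ht ⊢
      constructor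
      · intro h2
        have h3 : (ρ - t) * (ρ - (-(g.coeff 1 : ZMod p) - t)) = 0 := by
          linear_combination h2 - ht
        rcases mul_eq_zero.1 h3 with h4 | h4
        · exact Or.inl (sub_eq_zero.1 h4)
        · exact Or.inr (sub_eq_zero.1 h4)
      · rintro (rfl | rfl)
        · exact ht
        · linear_combination ht
    unfold PT.rt
    change Nat.card ↥{ρ : ZMod p | (g.map (Int.castRingHom (ZMod p))).eval ρ = 0} = 2
    rw [Nat.card_coe_set_eq, hset, Set.ncard_pair hne]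
  · left
    unfold PT.rt
    have : IsEmpty {ρ : ZMod p // (g.map (Int.castRingHom (ZMod p))).eval ρ = 0} :=
      ⟨fun ρ => h ⟨ρ.1, ρ.2⟩⟩
    exact Nat.card_of_isEmpty

theorem inert_low (g₁ g₂ : ℤ[X]) (h1 : g₁.Monic) (h2 : g₂.Monic) (i1 : Irreducible (qq g₁)) (i2 : Irreducible (qq g₂))
    (hd : g₁.natDegree = 2) (hn : ∀ h : ℚ[X], ¬ qq g₂ ∣ (qq g₁).comp h) :
    ∃ c A : ℝ, 0 < c ∧ 0 ≤ A ∧ ∀ x y : ℝ, 2 ≤ x → x ≤ y →
      c * (Real.log (Real.log y) - Real.log (Real.log x)) - A ≤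
        PT.PS (PT.ind (Inr g₁ g₂)) y - PT.PS (PT.ind (Inr g₁ g₂)) x := by
  obtain ⟨G, M, hG, iG, hM, hGM⟩ := comp_poly g₁ g₂ h1 h2 i1 i2 hd hn
  obtain ⟨C1, hC1⟩ := TW.rt_low g₂ h2 i2
  obtain ⟨C2, hC2⟩ := PT.rt_sum g₂ i2
  obtain ⟨C3, hC3⟩ := TW.rt_low G hG iG
  obtain ⟨C4, hC4⟩ := PT.rt_sum G iG
  obtain ⟨B, hB⟩ := PT.rt_le g₂ h2.ne_zero
  have hdz := N6_disc g₁ h1 i1 hd
  obtain ⟨N, hN⟩ : ∃ N, N = M * (g₁.coeff 1 ^ 2 - 4 * g₁.coeff 0).natAbs := ⟨_, rfl⟩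
  have hN0 : N ≠ 0 := by
    rw [hN]
    exact mul_ne_zero hM (Int.natAbs_ne_zero.2 hdz)
  have hB0 : (0 : ℝ) < B + 1 := by positivity
  refine ⟨1 / (2 * (B + 1)), |2 * C1 + 2 * C2 + C3 + C4| / (2 * (B + 1)) + N, by positivity,
    by positivity, fun x y hx hxy => ?_⟩
  have hy : 2 ≤ y := hx.trans hxy
  have e1 := hC1 y hy
  have e2 := hC2 x hx
  have e3 := hC3 x hx
  have e4 := hC4 y hy
  rw [N6_split _ x y hxy] at e1 e4
  rw [N6_split (PT.ind (Inr g₁ g₂)) x y hxy]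
  have key : ∀ p ∈ (Ioc ⌊x⌋₊ ⌊y⌋₊).filter Nat.Prime,
      2 * ((PT.rt g₂ p : ℝ) / p) - (PT.rt G p : ℝ) / p ≤
        2 * (B + 1) * (PT.ind (Inr g₁ g₂) p / p) + 2 * (B + 1) * (if p ∣ N then (1 : ℝ) else 0) := by
    intro p hp
    rw [mem_filter] at hp
    have hpp := hp.2
    have hp1 : (1 : ℝ) ≤ p := by exact_mod_cast hpp.one_lt.le
    have hp0 : (0 : ℝ) < p := by linarith
    have hb : (PT.rt g₂ p : ℝ) ≤ B := by exact_mod_cast hB p hpp
    have hi0 : 0 ≤ PT.ind (Inr g₁ g₂) p := by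
      unfold PT.ind
      split_ifs <;> norm_num
    have hG0 : (0 : ℝ) ≤ PT.rt G p := Nat.cast_nonneg _
    by_cases hpN : p ∣ N
    · rw [if_pos hpN]
      have h3 : (PT.rt g₂ p : ℝ) / p ≤ B := (div_le_self (Nat.cast_nonneg _) hp1).trans hb
      have h4 : 0 ≤ (PT.rt G p : ℝ) / p := div_nonneg hG0 hp0.le
      have h5 : 0 ≤ 2 * ((B : ℝ) + 1) * (PT.ind (Inr g₁ g₂) p / p) := by positivity
      linarith
    · rw [if_neg hpN, mul_zero, add_zero]
      have hpM : ¬ p ∣ M := fun h => hpN (by rw [hN]; exact h.mul_right _)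
      have hpd : ¬ p ∣ (g₁.coeff 1 ^ 2 - 4 * g₁.coeff 0).natAbs := fun h =>
        hpN (by rw [hN]; exact h.mul_left _)
      have h3 : 2 * (PT.rt g₂ p : ℝ) - PT.rt G p ≤ 2 * (B + 1) * PT.ind (Inr g₁ g₂) p := by
        rw [hGM p hpp hpM]
        rcases N6_rt g₁ h1 hd p hpp hpd with h4 | h4
        · rw [h4]
          by_cases h5 : 1 ≤ PT.rt g₂ p
          · have h6 : PT.ind (Inr g₁ g₂) p = 1 := if_pos ⟨h5, h4⟩
            rw [h6]
            push_cast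
            linarith
          · have h6 : PT.rt g₂ p = 0 := by omega
            rw [h6]
            have h7 : 0 ≤ 2 * ((B : ℝ) + 1) * PT.ind (Inr g₁ g₂) p := by positivity
            push_cast
            linarith
        · rw [h4]
          have h7 : 0 ≤ 2 * ((B : ℝ) + 1) * PT.ind (Inr g₁ g₂) p := by positivity
          push_cast
          linarith
      have h4 := div_le_div_of_nonneg_right h3 hp0.le
      have h5 : 2 * ((PT.rt g₂ p : ℝ) / p) - (PT.rt G p : ℝ) / p =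
          (2 * (PT.rt g₂ p : ℝ) - PT.rt G p) / p := by ring
      have h6 : 2 * ((B : ℝ) + 1) * (PT.ind (Inr g₁ g₂) p / p) =
          2 * (B + 1) * PT.ind (Inr g₁ g₂) p / p := by ring
      rw [h5, h6]
      exact h4
  have hsum := Finset.sum_le_sum key
  rw [Finset.sum_sub_distrib, ← Finset.mul_sum, Finset.sum_add_distrib, ← Finset.mul_sum,
    ← Finset.mul_sum] at hsum
  have hdiv : ∑ p ∈ (Ioc ⌊x⌋₊ ⌊y⌋₊).filter Nat.Prime, (if p ∣ N then (1 : ℝ) else 0) ≤ N := by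
    rw [← Finset.sum_filter, Finset.sum_const, nsmul_eq_mul, mul_one]
    have h3 : ((Ioc ⌊x⌋₊ ⌊y⌋₊).filter Nat.Prime).filter (fun p => p ∣ N) ⊆ Icc 1 N := by
      intro p hp
      simp only [mem_filter] at hp
      rw [mem_Icc]
      exact ⟨hp.1.2.one_lt.le, Nat.le_of_dvd (Nat.pos_of_ne_zero hN0) hp.2⟩
    have h4 := Finset.card_le_card h3
    rw [Nat.card_Icc, Nat.add_sub_cancel] at h4
    exact_mod_cast h4
  have habs := le_abs_self (2 * C1 + 2 * C2 + C3 + C4)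
  obtain ⟨S, hS⟩ : ∃ S, S = ∑ p ∈ (Ioc ⌊x⌋₊ ⌊y⌋₊).filter Nat.Prime, PT.ind (Inr g₁ g₂) p / p := ⟨_, rfl⟩
  rw [← hS] at hsum ⊢
  have hd2 : 2 * ((B : ℝ) + 1) * ∑ p ∈ (Ioc ⌊x⌋₊ ⌊y⌋₊).filter Nat.Prime, (if p ∣ N then (1 : ℝ) else 0) ≤
      2 * (B + 1) * N := mul_le_mul_of_nonneg_left hdiv (by positivity)
  have hfin : Real.log (Real.log y) - Real.log (Real.log x) - |2 * C1 + 2 * C2 + C3 + C4| ≤
      2 * (B + 1) * (S + N) := by
    linarith
  have hq : 1 / (2 * ((B : ℝ) + 1)) * (Real.log (Real.log y) - Real.log (Real.log x)) -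
      |2 * C1 + 2 * C2 + C3 + C4| / (2 * (B + 1)) =
      (Real.log (Real.log y) - Real.log (Real.log x) - |2 * C1 + 2 * C2 + C3 + C4|) / (2 * (B + 1)) := by
    ring
  have hr : (Real.log (Real.log y) - Real.log (Real.log x) - |2 * C1 + 2 * C2 + C3 + C4|) /
      (2 * ((B : ℝ) + 1)) ≤ S + N := by
    rw [div_le_iff₀ (by positivity)]
    linarith
  linarith

end EN
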