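import Pool.Agent.Lib.MP_10e784_agN2.N0
import Pool.Agent.Lib.MP_10e784_ag.QHall
import Pool.Agent.Lib.MP_10e784_ag.EL.ELMert

/-!
LEAF N7 (medium-).  The integers all of whose large prime factors avoid a set `R₁` of positive density are few.

For `N ≥ 2` let `z = zN K N` and `w p = 1` if `p ∣ M` or (`p ∈ RP g` and (`p ≤ z` or `p ∉ R₁`)), `w p = 0` otherwise.  Every `D` in the set has
`QT.pf w |D| = 1` (`pf w n = ∏ p ∈ n.primeFactors, w p`), `|D|` squarefree, `1 ≤ |D| ≤ N`, and `D ↦ |D|` is at most two to one, so the number of `D` is at most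
`2 ∑_{n ≤ N squarefree} pf w n`.  By `QT.hall` (file QHall) `∑ pf w n * log N ≤ 3 N ∑ pf w n / n`, and
`∑_{n ≤ N squarefree} pf w n / n ≤ ∏_{p ≤ N} (1 + w p / p) ≤ exp (∑_{p ≤ N} w p / p)` (this is proved for example in `Lib/MP_10e784_ag/QEuler.lean` or `EL/ELSm.lean`,
`Lib/MP_1ad228_ntTS/`; the product over the primes `p ≤ N` expands into a sum over sets of primes).
`∑_{p ≤ N} w p / p ≤ M + TT g N - (PS (ind R₁) N - PS (ind R₁) z)` if `z ≤ N` (primes dividing `M`: at most `M` of them, each `1 / p ≤ 1`; `R₁ ⊆ RP g`: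
the other primes `p` with `w p = 1` are in `RP g` and not in `R₁ ∩ (z, N]`), and by `hR`, `≤ M + TT g N - c (log log N - log log z) + A`.
`log z = log 2 + (log N / log 2) ^ (1 - 1/K) log 2 ≤ 4 (log N) ^ (1 - 1/K)` for `N ≥ 3`-ish (`K ≥ 2`), so `log log z ≤ log 4 + (1 - 1/K) log log N` and
`log log N - log log z ≥ (1/K) log log N - log 4`.  (`z ≥ 2`.  If `z > N`, or `N` is small, that is `N < N₀(K)`, use the trivial bound `2 N + 1` and a large constant `A'`.)
Result: number `≤ A' (N / log N) exp (TT g N) (log N) ^ (-c/K)`, `δ = c / K`.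
Private lemmas: prefix `N7_`.
-/

set_option autoImplicit false

namespace EN

open Polynomial Finset TW EL

private theorem N7_z (K N : ℕ) (hK : 2 ≤ K) (hN : 2 ≤ N) :
    2 ≤ zN K N ∧ Real.log (Real.log (zN K N)) ≤
      Real.log 2 + (1 - 1 / (K : ℝ)) * Real.log (Real.log N) ∧
    ((N : ℝ) < zN K N → Real.log (Real.log N) ≤ K * Real.log 2) := by
  have hl2 : 0 < Real.log 2 := Real.log_pos one_lt_two
  have hl21 : Real.log 2 ≤ 1 := by
    have := Real.log_two_lt_d9
    linarith
  have hN' : (2 : ℝ) ≤ N := by exact_mod_cast hN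
  have hlN : Real.log 2 ≤ Real.log N := Real.log_le_log two_pos hN'
  have hK' : (2 : ℝ) ≤ K := by exact_mod_cast hK
  obtain ⟨L, hL⟩ : ∃ L : ℝ, L = Real.log N / Real.log 2 := ⟨_, rfl⟩
  have hL1 : 1 ≤ L := by
    rw [hL, le_div_iff₀ hl2]
    linarith
  have hL0 : 0 < L := by linarith
  have hLN : Real.log N = L * Real.log 2 := by
    rw [hL]
    field_simp
  have hk1 : 1 / (K : ℝ) ≤ 1 := by
    rw [div_le_one (by linarith)]
    linarith
  have hk0 : 0 ≤ 1 / (K : ℝ) := by positivity
  obtain ⟨t, ht⟩ : ∃ t : ℝ, t = L ^ (1 - 1 / (K : ℝ)) := ⟨_, rfl⟩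
  have ht1 : 1 ≤ t := by
    rw [ht]
    exact Real.one_le_rpow hL1 (by linarith)
  have hz : zN K N = 2 * (2 : ℝ) ^ t := by
    unfold zN
    rw [ht, hL]
  have h2t : 1 ≤ (2 : ℝ) ^ t := Real.one_le_rpow one_le_two (by linarith)
  have hlz : Real.log (zN K N) = Real.log 2 + t * Real.log 2 := by
    rw [hz, Real.log_mul two_ne_zero (by positivity), Real.log_rpow two_pos]
  have hllN : Real.log (Real.log N) = Real.log L + Real.log (Real.log 2) := by
    rw [hLN, Real.log_mul hL0.ne' hl2.ne']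
  have hll2 : Real.log (Real.log 2) ≤ 0 := Real.log_nonpos hl2.le hl21
  refine ⟨by rw [hz]; linarith, ?_, ?_⟩
  · have h1 : Real.log (Real.log (zN K N)) ≤ Real.log (2 * (t * Real.log 2)) := by
      apply Real.log_le_log
      · rw [hlz]
        positivity
      · rw [hlz]
        nlinarith
    rw [Real.log_mul two_ne_zero (by positivity), Real.log_mul (by positivity) hl2.ne', ht,
      Real.log_rpow hL0] at h1
    rw [hllN]
    nlinarith
  · intro h
    have hB : L < 1 + t := by
      have h1 := Real.log_lt_log (by linarith) h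
      rw [hlz, hLN] at h1
      by_contra h2
      push Not at h2
      nlinarith
    have hLt : L = L ^ (1 / (K : ℝ)) * t := by
      rw [ht, ← Real.rpow_add hL0]
      have : 1 / (K : ℝ) + (1 - 1 / (K : ℝ)) = 1 := by ring
      rw [this, Real.rpow_one]
    have hL2 : L < 2 ^ K := by
      by_contra h2
      push Not at h2
      have h3 : (2 : ℝ) ≤ L ^ (1 / (K : ℝ)) := by
        have h4 := Real.rpow_le_rpow (by positivity) h2 hk0
        rw [one_div, Real.pow_rpow_inv_natCast (by norm_num) (by omega)] at h4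
        rw [one_div]
        exact h4
      nlinarith
    have h5 : Real.log N ≤ 2 ^ K := by
      rw [hLN]
      nlinarith
    have h6 := Real.log_le_log (by linarith) h5
    rw [Real.log_pow] at h6
    exact h6

private theorem N7_count (N : ℕ) (P : ℕ → Prop) (w : ℕ → ℝ) (hw0 : ∀ p, 0 ≤ w p)
    (hw : ∀ p, P p → w p = 1) :
    (Nat.card {D : ℤ // Squarefree D ∧ |D| ≤ (N : ℤ) ∧ ∀ p : ℕ, p.Prime → (p : ℤ) ∣ D → P p} : ℝ) ≤
      2 * ∑ n ∈ (Icc 1 N).filter Squarefree, QT.pf w n := by
  classical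
  obtain ⟨T, hT⟩ : ∃ T : Finset ℕ, T = ((Icc 1 N).filter Squarefree).filter
      (fun n => ∀ p : ℕ, p.Prime → p ∣ n → P p) := ⟨_, rfl⟩
  have hcard : Nat.card {D : ℤ // Squarefree D ∧ |D| ≤ (N : ℤ) ∧
      ∀ p : ℕ, p.Prime → (p : ℤ) ∣ D → P p} ≤ Nat.card (T × Bool) := by
    have hmem : ∀ D : {D : ℤ // Squarefree D ∧ |D| ≤ (N : ℤ) ∧
      ∀ p : ℕ, p.Prime → (p : ℤ) ∣ D → P p}, D.1.natAbs ∈ T := by
      rintro ⟨D, h1, h2, h3⟩
      rw [hT, mem_filter, mem_filter, mem_Icc]
      have h4 : D ≠ 0 := h1.ne_zero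
      refine ⟨⟨⟨?_, ?_⟩, Int.squarefree_natAbs.2 h1⟩, fun p hp hd => ?_⟩
      · show 1 ≤ D.natAbs
        omega
      · show D.natAbs ≤ N
        have h5 : ((D.natAbs : ℕ) : ℤ) ≤ N := by
          rw [Int.natCast_natAbs]
          exact h2
        exact_mod_cast h5
      · exact h3 p hp (Int.natCast_dvd.2 hd)
    refine Nat.card_le_card_of_injective (fun D => ((⟨D.1.natAbs, hmem D⟩ : T),
      if 0 ≤ D.1 then true else false)) fun D D' h => ?_
    simp only [Prod.mk.injEq, Subtype.mk.injEq] at h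
    apply Subtype.ext
    obtain ⟨h1, h2⟩ := h
    by_cases h3 : 0 ≤ D.1
    · by_cases h4 : 0 ≤ D'.1
      · omega
      · rw [if_pos h3, if_neg h4] at h2
        exact absurd h2 (by simp)
    · by_cases h4 : 0 ≤ D'.1
      · rw [if_neg h3, if_pos h4] at h2
        exact absurd h2 (by simp)
      · omega
  have hc2 : Nat.card (T × Bool) = 2 * T.card := by
    rw [Nat.card_eq_fintype_card, Fintype.card_prod, Fintype.card_coe, Fintype.card_bool]
    ring
  rw [hc2] at hcard
  have h1 : (T.card : ℝ) ≤ ∑ n ∈ (Icc 1 N).filter Squarefree, QT.pf w n := by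
    have h2 : (T.card : ℝ) = ∑ n ∈ T, QT.pf w n := by
      rw [Finset.card_eq_sum_ones, Nat.cast_sum]
      refine Finset.sum_congr rfl fun n hn => ?_
      rw [hT, mem_filter] at hn
      unfold QT.pf
      rw [Nat.cast_one]
      exact (Finset.prod_eq_one fun p hp => hw p (hn.2 p (Nat.prime_of_mem_primeFactors hp)
        (Nat.dvd_of_mem_primeFactors hp))).symm
    rw [h2, hT]
    refine Finset.sum_le_sum_of_subset_of_nonneg (Finset.filter_subset _ _) fun n _ _ => ?_
    exact Finset.prod_nonneg fun p _ => hw0 p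
  have h3 : (Nat.card {D : ℤ // Squarefree D ∧ |D| ≤ (N : ℤ) ∧
      ∀ p : ℕ, p.Prime → (p : ℤ) ∣ D → P p} : ℝ) ≤ ((2 * T.card : ℕ) : ℝ) := by exact_mod_cast hcard
  rw [Nat.cast_mul, Nat.cast_two] at h3
  linarith

private theorem N7_euler (w : ℕ → ℝ) (hw : ∀ p, 0 ≤ w p) (N : ℕ) :
    ∑ n ∈ (Icc 1 N).filter Squarefree, QT.pf w n / n ≤
      Real.exp (∑ p ∈ (Icc 1 N).filter Nat.Prime, w p / p) := by
  classical
  have h0 : ∑ n ∈ (Icc 1 N).filter Squarefree, QT.pf w n / n ≤
      ∏ p ∈ (Icc 1 N).filter Nat.Prime, (1 + w p / p) := by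
    rw [Finset.prod_one_add]
    have hterm : ∀ n ∈ (Icc 1 N).filter Squarefree, QT.pf w n / n =
        ∏ p ∈ n.primeFactors, (w p / p) := by
      intro n hn
      have hsq : Squarefree n := (Finset.mem_filter.mp hn).2
      have hprod : ∏ p ∈ n.primeFactors, p = n := Nat.prod_primeFactors_of_squarefree hsq
      rw [Finset.prod_div_distrib, ← Nat.cast_prod, hprod]
      rfl
    rw [Finset.sum_congr rfl hterm]
    have hinj : Set.InjOn Nat.primeFactors ((Icc 1 N).filter Squarefree : Finset ℕ) := by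
      intro a ha b hb hab
      have h1 : Squarefree a := (Finset.mem_filter.mp ha).2
      have h2 : Squarefree b := (Finset.mem_filter.mp hb).2
      rw [← Nat.prod_primeFactors_of_squarefree h1, ← Nat.prod_primeFactors_of_squarefree h2, hab]
    rw [← Finset.sum_image (f := fun s : Finset ℕ => ∏ p ∈ s, (w p / p)) hinj]
    apply Finset.sum_le_sum_of_subset_of_nonneg
    · intro s hs
      obtain ⟨n, hn, rfl⟩ := Finset.mem_image.mp hs
      rw [Finset.mem_powerset]
      intro p hp
      rw [mem_filter, mem_Icc]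
      have hn' := (Finset.mem_filter.mp hn).1
      rw [Finset.mem_Icc] at hn'
      have h1 := Nat.le_of_mem_primeFactors hp
      have h2 := Nat.prime_of_mem_primeFactors hp
      have h3 := h2.pos
      exact ⟨⟨by omega, by omega⟩, h2⟩
    · intro s hs _
      apply Finset.prod_nonneg
      intro p hp
      exact div_nonneg (hw p) (Nat.cast_nonneg p)
  refine h0.trans ?_
  rw [Real.exp_sum]
  refine Finset.prod_le_prod (fun p _ => ?_) fun p _ => ?_
  · have : 0 ≤ w p / p := div_nonneg (hw p) (Nat.cast_nonneg p)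
    linarith
  · have := Real.add_one_le_exp (w p / p)
    linarith

private theorem N7_PS (a : ℕ → ℝ) (z : ℝ) (N : ℕ) (hz : 0 ≤ z) (hzN : z ≤ N) :
    ∑ p ∈ (Icc 1 N).filter Nat.Prime, (if z < p then a p / p else 0) =
      PT.PS a N - PT.PS a z := by
  have h1 : PT.PS a z = ∑ p ∈ ((Icc 1 N).filter Nat.Prime).filter (fun p : ℕ => ¬ z < p),
      a p / p := by
    unfold PT.PS
    congr 1
    ext p
    simp only [mem_filter, mem_Icc, not_lt, Nat.le_floor_iff hz]
    constructor
    · rintro ⟨⟨h2, h3⟩, h4⟩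
      exact ⟨⟨⟨h2, by exact_mod_cast h3.trans hzN⟩, h4⟩, h3⟩
    · rintro ⟨⟨⟨h2, -⟩, h4⟩, h3⟩
      exact ⟨⟨h2, h3⟩, h4⟩
  have h2 : PT.PS a N = ∑ p ∈ (Icc 1 N).filter Nat.Prime, a p / p := by
    unfold PT.PS
    rw [Nat.floor_natCast]
  rw [h1, h2, ← Finset.sum_filter, ← Finset.sum_filter_add_sum_filter_not
    ((Icc 1 N).filter Nat.Prime) (fun p : ℕ => z < p)]
  ring

theorem few {ι : Type} [Fintype ι] (g : ι → ℤ[X]) (R₁ : Set ℕ) (hsub : ∀ p ∈ R₁, p ∈ RP g) (K M : ℕ) (hK : 2 ≤ K) (hM : M ≠ 0)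
    (c A : ℝ) (hc : 0 < c) (hA : 0 ≤ A) (hR : ∀ x y : ℝ, 2 ≤ x → x ≤ y →
      c * (Real.log (Real.log y) - Real.log (Real.log x)) - A ≤ PT.PS (PT.ind R₁) y - PT.PS (PT.ind R₁) x) :
    ∃ A' δ : ℝ, 0 < A' ∧ 0 < δ ∧ ∀ N : ℕ, 2 ≤ N →
      (Nat.card {D : ℤ // Squarefree D ∧ |D| ≤ (N : ℤ) ∧ ∀ p : ℕ, p.Prime → (p : ℤ) ∣ D → ¬ p ∣ M →
        p ∈ RP g ∧ (zN K N < p → p ∉ R₁)} : ℝ) ≤ A' * (N / Real.log N ^ (1 + δ)) * Real.exp (TT g N) := by
  classical
  refine ⟨6 * Real.exp (M + c * Real.log 2 + A), c / K, by positivity, by positivity, fun N hN => ?_⟩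
  obtain ⟨hz2, hzz, hzN⟩ := N7_z K N hK hN
  obtain ⟨z, hz⟩ : ∃ z : ℝ, z = zN K N := ⟨_, rfl⟩
  rw [← hz] at hz2 hzz hzN ⊢
  have hl2 : 0 < Real.log 2 := Real.log_pos one_lt_two
  have hN' : (2 : ℝ) ≤ N := by exact_mod_cast hN
  have hlN : 0 < Real.log N := Real.log_pos (by linarith)
  have hK' : (2 : ℝ) ≤ K := by exact_mod_cast hK
  obtain ⟨w, hw⟩ : ∃ w : ℕ → ℝ, ∀ p, w p =
      if (¬ p ∣ M → p ∈ RP g ∧ (z < p → p ∉ R₁)) then 1 else 0 := ⟨_, fun _ => rfl⟩
  have hw01 : ∀ p, 0 ≤ w p ∧ w p ≤ 1 := by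
    intro p
    rw [hw]
    split_ifs <;> norm_num
  have hcount := N7_count N (fun p => ¬ p ∣ M → p ∈ RP g ∧ (z < p → p ∉ R₁)) w
    (fun p => (hw01 p).1) (fun p hp => by rw [hw, if_pos hp])
  have hhall := QT.hall w (fun p _ => hw01 p) N (by linarith)
  rw [Nat.floor_natCast] at hhall
  have heul := N7_euler w (fun p => (hw01 p).1) N
  obtain ⟨E, hE⟩ : ∃ E : ℝ, E = ∑ p ∈ (Icc 1 N).filter Nat.Prime,
      (if z < p then PT.ind R₁ p / p else 0) := ⟨_, rfl⟩
  have hind : ∀ (R : Set ℕ) (p : ℕ), 0 ≤ PT.ind R p := by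
    intro R p
    unfold PT.ind
    split_ifs <;> norm_num
  have hsum : ∑ p ∈ (Icc 1 N).filter Nat.Prime, w p / p ≤ M + TT g N - E := by
    have h1 : ∀ p ∈ (Icc 1 N).filter Nat.Prime, w p / p ≤
        (if p ∣ M then (1 : ℝ) else 0) + PT.ind (RP g) p / p -
          (if z < p then PT.ind R₁ p / p else 0) := by
      intro p hp
      simp only [mem_filter, mem_Icc] at hp
      have hp1 : (1 : ℝ) ≤ p := by exact_mod_cast hp.1.1
      have hp0 : (0 : ℝ) < p := by linarith
      have h2 : PT.ind R₁ p ≤ PT.ind (RP g) p := by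
        by_cases h3 : p ∈ R₁
        · unfold PT.ind
          rw [if_pos h3, if_pos (hsub p h3)]
        · unfold PT.ind
          rw [if_neg h3]
          split_ifs <;> norm_num
      have h2' : PT.ind R₁ p / p ≤ PT.ind (RP g) p / p := div_le_div_of_nonneg_right h2 hp0.le
      have h0 : 0 ≤ PT.ind (RP g) p / p := div_nonneg (hind _ _) hp0.le
      by_cases hpM : p ∣ M
      · rw [if_pos hpM]
        have h4 : w p / p ≤ 1 := by
          rw [div_le_one hp0]
          linarith [(hw01 p).2]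
        split_ifs
        · linarith
        · linarith
      · rw [if_neg hpM, zero_add]
        by_cases h5 : p ∈ RP g ∧ (z < p → p ∉ R₁)
        · have h6 : w p = 1 := by rw [hw, if_pos fun _ => h5]
          have h7 : PT.ind (RP g) p = 1 := by
            unfold PT.ind
            rw [if_pos h5.1]
          rw [h6, h7]
          split_ifs with h8
          · have h9 : PT.ind R₁ p = 0 := by
              unfold PT.ind
              rw [if_neg (h5.2 h8)]
            rw [h9, zero_div, sub_zero]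
          · rw [sub_zero]
        · have h6 : w p = 0 := by
            rw [hw, if_neg fun h => h5 (h hpM)]
          rw [h6, zero_div]
          split_ifs
          · linarith
          · linarith
    refine (Finset.sum_le_sum h1).trans ?_
    rw [Finset.sum_sub_distrib, Finset.sum_add_distrib, ← hE]
    have h2 : ∑ p ∈ (Icc 1 N).filter Nat.Prime, (if p ∣ M then (1 : ℝ) else 0) ≤ M := by
      rw [Finset.sum_ite, Finset.sum_const_zero, add_zero, Finset.sum_const, nsmul_eq_mul, mul_one]
      have h3 : (((Icc 1 N).filter Nat.Prime).filter (fun p => p ∣ M)).card ≤ M := by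
        calc (((Icc 1 N).filter Nat.Prime).filter (fun p => p ∣ M)).card ≤ (Icc 1 M).card := by
              apply Finset.card_le_card
              intro p hp
              simp only [Finset.mem_filter, Finset.mem_Icc] at hp ⊢
              exact ⟨hp.1.1.1, Nat.le_of_dvd (Nat.pos_of_ne_zero hM) hp.2⟩
          _ = M := by simp
      exact_mod_cast h3
    have h3 : TT g N = ∑ p ∈ (Icc 1 N).filter Nat.Prime, PT.ind (RP g) p / p := by
      unfold TT PT.PS
      rw [Nat.floor_natCast]
    rw [h3]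
    linarith
  have hEl : c / K * Real.log (Real.log N) - c * Real.log 2 - A ≤ E := by
    rcases le_or_gt z N with h1 | h1
    · have h2 := hR z N hz2 h1
      rw [hE, N7_PS _ z N (by linarith) h1]
      refine le_trans ?_ h2
      have h3 : c * (Real.log (Real.log N) - Real.log (Real.log z)) ≥
          c * (1 / K * Real.log (Real.log N) - Real.log 2) := by
        apply mul_le_mul_of_nonneg_left _ hc.le
        linarith
      have h4 : c * (1 / K * Real.log (Real.log N) - Real.log 2) =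
          c / K * Real.log (Real.log N) - c * Real.log 2 := by ring
      linarith
    · have h2 := hzN h1
      have h3 : 0 ≤ E := by
        rw [hE]
        refine Finset.sum_nonneg fun p _ => ?_
        split_ifs
        · exact div_nonneg (hind _ _) (Nat.cast_nonneg p)
        · exact le_rfl
      have h4 : c / K * Real.log (Real.log N) ≤ c / K * (K * Real.log 2) :=
        mul_le_mul_of_nonneg_left h2 (by positivity)
      have h5 : c / K * (K * Real.log 2) = c * Real.log 2 := by
        field_simp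
      linarith
  have hS : ∑ n ∈ (Icc 1 N).filter Squarefree, QT.pf w n ≤ 3 * N / Real.log N *
      Real.exp (M + TT g N - (c / K * Real.log (Real.log N) - c * Real.log 2 - A)) := by
    have h1 : ∑ n ∈ (Icc 1 N).filter Squarefree, QT.pf w n / n ≤
        Real.exp (M + TT g N - (c / K * Real.log (Real.log N) - c * Real.log 2 - A)) :=
      heul.trans (Real.exp_le_exp.2 (by linarith))
    rw [div_mul_eq_mul_div, le_div_iff₀ hlN]
    refine hhall.trans ?_
    exact mul_le_mul_of_nonneg_left h1 (by positivity)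
  have hfin : 6 * Real.exp (M + c * Real.log 2 + A) * (N / Real.log N ^ (1 + c / K)) *
      Real.exp (TT g N) = 2 * (3 * N / Real.log N *
      Real.exp (M + TT g N - (c / K * Real.log (Real.log N) - c * Real.log 2 - A))) := by
    have h1 : Real.log N ^ (1 + c / K) =
        Real.log N * Real.exp (c / K * Real.log (Real.log N)) := by
      rw [Real.rpow_add hlN, Real.rpow_one, Real.rpow_def_of_pos hlN, mul_comm (c / (K : ℝ))]
    have h2 : Real.exp (M + TT g N - (c / K * Real.log (Real.log N) - c * Real.log 2 - A)) =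
        Real.exp (M + c * Real.log 2 + A) * Real.exp (TT g N) /
          Real.exp (c / K * Real.log (Real.log N)) := by
      rw [← Real.exp_add, ← Real.exp_sub]
      congr 1
      ring
    rw [h1, h2]
    have h3 := Real.exp_pos (c / K * Real.log (Real.log N))
    field_simp
    ring
  rw [hfin]
  linarith

end EN
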