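import Pool.Agent.Lib.MP_10e784_agN2.N0
import Pool.Agent.Lib.MP_10e784_ag.EL.ELUp

/-!
LEAF N8A (medium-).  The good layers.  ADAPTATION of `Lib/MP_10e784_ag/EL/ELUp.lean` (copy its private definitions and lemmas `elup_box`, `elup_inj`, `elupJ`, `elup_mem`, `elup_fin`,
`elup_count`, `elup_TT` and the proof of `EL.upper` with the prefix `N8A_`; `ElupDat` is replaced by the public `EN.Dat`, in which the last item and `u v` are dropped).

The number of the `D` which have data with `GdJ g K j`, `j i = Nat.log 2 (e i)`, is at most `(2 M + 1) * ∑_{j ∈ elupJ, GdJ g K j} card {x // Bx g (2 C₀) j x ∧ Loc g M x}` (as in `elup_count`: the index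
set is `(elupJ ι N).filter (GdJ g K)`), every summand is bounded by `hsv` (with the `i₀` of `GdJ`; `univ.sup j = j i₀`) and `elup_TT`, and the sum over the filtered set is at most the sum over
`elupJ` of the same nonnegative terms (`sum_rel` of ELSumJ).
Private lemmas: prefix `N8A_`.
-/

set_option autoImplicit false

namespace EN

open Polynomial Finset TW EL

private theorem N8A_box {n : ℕ} (hn : 1 ≤ n) {C₀ : ℝ} (hC : 1 ≤ C₀) {e : ℕ} (_he : 1 ≤ e) {y : ℝ}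
    (h : y ≤ C₀ * (e : ℝ) ^ ((1 : ℝ) / n)) :
    y ≤ 2 * C₀ * (2 : ℝ) ^ (((Nat.log 2 e : ℕ) : ℝ) / (n : ℝ)) := by
  have hn' : (1 : ℝ) ≤ n := by exact_mod_cast hn
  have h1 : (e : ℝ) ≤ (2 : ℝ) ^ (((Nat.log 2 e : ℕ) : ℝ) + 1) := by
    have h2 : e < 2 ^ (Nat.log 2 e + 1) := Nat.lt_pow_succ_log_self (by norm_num) e
    have h3 : (e : ℝ) < (2 : ℝ) ^ (Nat.log 2 e + 1) := by exact_mod_cast h2
    have h4 : (2 : ℝ) ^ (((Nat.log 2 e : ℕ) : ℝ) + 1) = (2 : ℝ) ^ (Nat.log 2 e + 1) := by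
      rw [← Real.rpow_natCast]
      push_cast
      rfl
    rw [h4]
    exact h3.le
  have h5 : (e : ℝ) ^ ((1 : ℝ) / n) ≤ 2 * (2 : ℝ) ^ (((Nat.log 2 e : ℕ) : ℝ) / (n : ℝ)) := by
    have h0 : (0 : ℝ) ≤ (1 : ℝ) / n := by positivity
    calc (e : ℝ) ^ ((1 : ℝ) / n) ≤ ((2 : ℝ) ^ (((Nat.log 2 e : ℕ) : ℝ) + 1)) ^ ((1 : ℝ) / n) :=
          Real.rpow_le_rpow (Nat.cast_nonneg _) h1 h0
      _ = (2 : ℝ) ^ ((1 : ℝ) / n) * (2 : ℝ) ^ (((Nat.log 2 e : ℕ) : ℝ) / (n : ℝ)) := by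
          rw [← Real.rpow_mul (by norm_num), ← Real.rpow_add (by norm_num)]
          congr 1
          ring
      _ ≤ 2 * (2 : ℝ) ^ (((Nat.log 2 e : ℕ) : ℝ) / (n : ℝ)) := by
          refine mul_le_mul_of_nonneg_right ?_ (by positivity)
          calc (2 : ℝ) ^ ((1 : ℝ) / n) ≤ (2 : ℝ) ^ (1 : ℝ) :=
                Real.rpow_le_rpow_of_exponent_le (by norm_num) (by
                  rw [div_le_iff₀ (by linarith)]
                  linarith)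
            _ = 2 := Real.rpow_one 2
  calc y ≤ C₀ * (e : ℝ) ^ ((1 : ℝ) / n) := h
    _ ≤ C₀ * (2 * (2 : ℝ) ^ (((Nat.log 2 e : ℕ) : ℝ) / (n : ℝ))) :=
        mul_le_mul_of_nonneg_left h5 (by linarith)
    _ = _ := by ring

private theorem N8A_inj {ι : Type} [Fintype ι] [DecidableEq ι] {g : ι → ℤ[X]}
    {C₀ : ℝ} {M : ℕ} {D D' : ℤ} {g0 : ℤ} {e e' : ι → ℕ} {x : Co g → ℤ}
    (h : Dat g C₀ M D g0 e x) (h' : Dat g C₀ M D' g0 e' x) : D = D' := by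
  obtain ⟨h1, h2, h3, h4, h5, h6, h7⟩ := h
  obtain ⟨h1', h2', h3', h4', h5', h6', h7'⟩ := h'
  have he : e = e' := sqf_ext M e e' h3 h3' h4 h4' fun p hp hpM i =>
    (h7 p hp hpM i).trans (h7' p hp hpM i).symm
  rw [h2, h2', he]

/-- the index set of the layers -/
private def N8A_J (ι : Type) [Fintype ι] [DecidableEq ι] (N : ℕ) : Finset (ι → ℕ) :=
  (Fintype.piFinset fun _ : ι => range (N + 1)).filter (fun j => 2 ^ (∑ i, j i) ≤ N)

private theorem N8A_mem {ι : Type} [Fintype ι] [DecidableEq ι] {g : ι → ℤ[X]}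
    {C₀ : ℝ} (hC : 1 ≤ C₀) {M : ℕ} (hM : M ≠ 0) {D : ℤ} (hD : Squarefree D) {N : ℕ}
    (hN : |D| ≤ N) {g0 : ℤ} {e : ι → ℕ}
    {x : Co g → ℤ} (h : Dat g C₀ M D g0 e x) :
    g0 ∈ Icc (-(M : ℤ)) M ∧ (fun i => Nat.log 2 (e i)) ∈ N8A_J ι N ∧
      Bx g (2 * C₀) (fun i => Nat.log 2 (e i)) x ∧ Loc g M x := by
  obtain ⟨h1, h2, h3, h4, h5, h6, h7⟩ := h
  have hD0 : D ≠ 0 := hD.ne_zero
  have hg0 : g0 ≠ 0 := by
    rintro rfl
    rw [zero_mul] at h2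
    exact hD0 h2
  have he0 : ∀ i, e i ≠ 0 := by
    intro i hi
    apply h3.ne_zero
    exact Finset.prod_eq_zero (mem_univ i) hi
  have hprod : ∏ i, e i ≤ N := by
    have h9 : D.natAbs = g0.natAbs * ∏ i, e i := by
      rw [h2, Int.natAbs_mul]
      congr 1
      rw [← Nat.cast_prod, Int.natAbs_natCast]
    have h10 : D.natAbs ≤ N := by
      have : (D.natAbs : ℤ) ≤ N := by rwa [Int.natCast_natAbs]
      exact_mod_cast this
    have h11 : 1 ≤ g0.natAbs := Nat.one_le_iff_ne_zero.2 (Int.natAbs_ne_zero.2 hg0)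
    calc ∏ i, e i = 1 * ∏ i, e i := (one_mul _).symm
      _ ≤ g0.natAbs * ∏ i, e i := Nat.mul_le_mul_right _ h11
      _ = D.natAbs := h9.symm
      _ ≤ N := h10
  refine ⟨?_, ?_, ?_, h6⟩
  · have h9 : g0.natAbs ≤ M := Nat.le_of_dvd (Nat.pos_of_ne_zero hM) h1
    have h10 : |g0| ≤ M := by
      rw [← Int.natCast_natAbs]
      exact_mod_cast h9
    rw [mem_Icc]
    exact abs_le.1 h10
  · have hle : ∀ i, 2 ^ Nat.log 2 (e i) ≤ e i := fun i => Nat.pow_log_le_self 2 (he0 i)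
    rw [N8A_J, mem_filter, Fintype.mem_piFinset]
    refine ⟨fun i => ?_, ?_⟩
    · rw [mem_range]
      have h9 : Nat.log 2 (e i) < 2 ^ Nat.log 2 (e i) := Nat.lt_two_pow_self
      have h10 : e i ≤ ∏ i, e i :=
        Nat.le_of_dvd (Nat.pos_of_ne_zero h3.ne_zero) (Finset.dvd_prod_of_mem e (mem_univ i))
      have h11 := hle i
      omega
    · rw [← Finset.prod_pow_eq_pow_sum]
      exact (Finset.prod_le_prod' fun i _ => hle i).trans hprod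
  · intro c
    exact N8A_box (Nat.one_le_iff_ne_zero.2 fun h => by
      have := c.2.2
      omega) hC (Nat.one_le_iff_ne_zero.2 (he0 _)) (h5 c)

private theorem N8A_fin {ι : Type} [Fintype ι] {g : ι → ℤ[X]} (hg : Fam g) {C₀ : ℝ}
    (hC : 1 ≤ C₀) (M : ℕ) (j : ι → ℕ) : {x : Co g → ℤ | Bx g C₀ j x ∧ Loc g M x}.Finite := by
  have h1 : Finite {x : Co g → ℤ // Bx g C₀ j x} := (bx_card hg C₀ hC j).1
  have h2 : {x : Co g → ℤ | Bx g C₀ j x}.Finite := Set.finite_coe_iff.1 h1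
  exact h2.subset fun x hx => hx.1

private theorem N8A_count {ι : Type} [Fintype ι] [DecidableEq ι] {g : ι → ℤ[X]} (hg : Fam g) (C₀ : ℝ) (hC : 1 ≤ C₀)
    (M : ℕ) (hM : M ≠ 0) (P : (ι → ℕ) → Prop) [DecidablePred P] (N : ℕ) :
      Nat.card {D : ℤ // Squarefree D ∧ |D| ≤ (N : ℤ) ∧ ∃ (g0 : ℤ) (e : ι → ℕ) (x : Co g → ℤ),
        Dat g C₀ M D g0 e x ∧ P (fun i => Nat.log 2 (e i))} ≤
      (Icc (-(M : ℤ)) M).card * ∑ j ∈ (N8A_J ι N).filter P,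
        Nat.card {x : Co g → ℤ // Bx g (2 * C₀) j x ∧ Loc g M x} := by
  classical
  have hC2 : 1 ≤ 2 * C₀ := by linarith
  have hfin : ∀ j, {x : Co g → ℤ | Bx g (2 * C₀) j x ∧ Loc g M x}.Finite :=
    fun j => N8A_fin hg hC2 M j
  set T : Finset (Co g → ℤ) := ((N8A_J ι N).filter P).biUnion fun j => (hfin j).toFinset with hT
  have hex : ∀ D : {D : ℤ // Squarefree D ∧ |D| ≤ (N : ℤ) ∧ ∃ (g0 : ℤ) (e : ι → ℕ) (x : Co g → ℤ),
        Dat g C₀ M D g0 e x ∧ P (fun i => Nat.log 2 (e i))},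
      ∃ gx : ℤ × (Co g → ℤ), gx ∈ (Icc (-(M : ℤ)) M) ×ˢ T ∧
        ∃ (e : ι → ℕ), Dat g C₀ M D.1 gx.1 e gx.2 := by
    rintro ⟨D, hD, hN, g0, e, x, hdat, hP⟩
    obtain ⟨m1, hj, m2⟩ := N8A_mem hC hM hD hN hdat
    refine ⟨(g0, x), mem_product.2 ⟨m1, mem_biUnion.2 ⟨_, mem_filter.2 ⟨hj, hP⟩, ?_⟩⟩, e, hdat⟩
    exact (hfin _).mem_toFinset.2 m2
  choose F hF1 hF2 using hex
  have hinj : Function.Injective (fun D => (⟨F D, hF1 D⟩ : ↥((Icc (-(M : ℤ)) M) ×ˢ T))) := by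
    intro D D' hDD
    have h1 : F D = F D' := congrArg Subtype.val hDD
    obtain ⟨e, h2⟩ := hF2 D
    obtain ⟨e', h3⟩ := hF2 D'
    rw [← h1] at h3
    exact Subtype.ext (N8A_inj h2 h3)
  have h1 := Nat.card_le_card_of_injective _ hinj
  refine h1.trans ?_
  rw [Nat.card_eq_fintype_card, Fintype.card_coe, card_product]
  refine Nat.mul_le_mul_left _ ?_
  refine card_biUnion_le.trans (Finset.sum_le_sum fun j _ => ?_)
  have h2 : Nat.card {x : Co g → ℤ // Bx g (2 * C₀) j x ∧ Loc g M x} =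
      {x : Co g → ℤ | Bx g (2 * C₀) j x ∧ Loc g M x}.ncard := rfl
  rw [h2, Set.ncard_eq_toFinset_card _ (hfin j)]

/-- the comparison of the prime sums for a layer -/
private theorem N8A_TT {ι : Type} [Fintype ι] (g : ι → ℤ[X]) : ∃ A : ℝ, ∀ N s : ℕ, 2 ≤ N → 2 ^ s ≤ N →
    TT g (Real.exp s) ≤ TT g N + A := by
  obtain ⟨A, -, hA⟩ := ps_pow
  refine ⟨Real.log 2 + A, fun N s hN hs => ?_⟩
  have hN2 : (2 : ℝ) ≤ N := by exact_mod_cast hN
  have h1 : (s : ℝ) * Real.log 2 ≤ Real.log N := by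
    rw [← Real.log_pow]
    apply Real.log_le_log (by positivity)
    exact_mod_cast hs
  have hl : (1 : ℝ) / 2 ≤ Real.log 2 := by linarith [Real.log_two_gt_d9]
  have h2 : (s : ℝ) ≤ 2 * Real.log N := by
    have h3 : (s : ℝ) * (1 / 2) ≤ (s : ℝ) * Real.log 2 :=
      mul_le_mul_of_nonneg_left hl (Nat.cast_nonneg s)
    linarith
  have h3 : Real.exp s ≤ (N : ℝ) ^ (2 : ℝ) := by
    rw [Real.rpow_def_of_pos (by linarith)]
    exact Real.exp_le_exp.2 (by linarith)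
  have h4 := ps_mono (RP g) _ _ h3
  have h5 := hA (RP g) (N : ℝ) 2 hN2 (by norm_num)
  unfold TT
  linarith

theorem good_part {ι : Type} [Fintype ι] [DecidableEq ι] {g : ι → ℤ[X]} (hg : Fam g) (C₀ : ℝ) (hC : 1 ≤ C₀)
    (M K : ℕ) (hM : M ≠ 0) (C' δ : ℝ) (hδ : 0 < δ) (hC' : 0 < C')
    (hsv : ∀ (j : ι → ℕ) (i₀ : ι), (∀ i, j i ≤ j i₀) →
      (3 ≤ (g i₀).natDegree ∨ ∃ i₁, i₁ ≠ i₀ ∧ (j i₀ : ℝ) ^ (1 - 1 / (K : ℝ)) ≤ j i₁) →
      (Nat.card {x : Co g → ℤ // Bx g (2 * C₀) j x ∧ Loc g M x} : ℝ) ≤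
        C' * (2 ^ (∑ i, j i) * (∏ i, (1 + j i : ℝ)⁻¹) * (1 + j i₀ : ℝ) ^ (-δ)) *
          Real.exp (TT g (Real.exp (j i₀)))) :
    ∃ A : ℝ, 0 < A ∧ ∀ N : ℕ, 2 ≤ N →
      (Nat.card {D : ℤ // Squarefree D ∧ |D| ≤ (N : ℤ) ∧ ∃ (g0 : ℤ) (e : ι → ℕ) (x : Co g → ℤ),
        Dat g C₀ M D g0 e x ∧ GdJ g K (fun i => Nat.log 2 (e i))} : ℝ) ≤
        A * (N / Real.log N ^ (1 + δ / 2)) * Real.exp (TT g N) := by
  classical
  obtain ⟨A1, hA1, hsum⟩ := sum_rel ι δ hδ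
  obtain ⟨A2, hTT⟩ := N8A_TT g
  refine ⟨((Icc (-(M : ℤ)) M).card : ℝ) * (C' * Real.exp A2 * A1) + 1, by positivity, fun N hN => ?_⟩
  have hN2 : (2 : ℝ) ≤ N := by exact_mod_cast hN
  have hlogN : 0 < Real.log N := Real.log_pos (by linarith)
  have hlay : ∀ j ∈ (N8A_J ι N).filter (GdJ g K),
      (Nat.card {x : Co g → ℤ // Bx g (2 * C₀) j x ∧ Loc g M x} : ℝ) ≤
      (C' * Real.exp A2 * Real.exp (TT g N)) *
        ((2 : ℝ) ^ (∑ i, j i) * (∏ i, (1 + j i : ℝ)⁻¹) * (1 + ((univ.sup j : ℕ) : ℝ)) ^ (-δ)) := by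
    intro j hj
    obtain ⟨hj1, i₀, hmax, hor⟩ := mem_filter.1 hj
    rw [N8A_J, mem_filter] at hj1
    have hi₀ : (univ : Finset ι).sup j = j i₀ :=
      le_antisymm (Finset.sup_le fun i _ => hmax i) (Finset.le_sup (mem_univ i₀))
    have h1 := hsv j i₀ hmax hor
    have h2 : 2 ^ (j i₀) ≤ N := by
      refine le_trans ?_ hj1.2
      exact Nat.pow_le_pow_right (by norm_num) (Finset.single_le_sum (fun i _ => Nat.zero_le _) (mem_univ i₀))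
    have h4 := hTT N (j i₀) hN h2
    have h5 : Real.exp (TT g (Real.exp (j i₀))) ≤ Real.exp A2 * Real.exp (TT g N) := by
      rw [← Real.exp_add]
      exact Real.exp_le_exp.2 (by linarith)
    rw [hi₀]
    refine h1.trans ?_
    have h6 : 0 ≤ C' * (2 ^ (∑ i, j i) * (∏ i, (1 + j i : ℝ)⁻¹) * (1 + j i₀ : ℝ) ^ (-δ)) := by
      positivity
    calc C' * (2 ^ (∑ i, j i) * (∏ i, (1 + j i : ℝ)⁻¹) * (1 + j i₀ : ℝ) ^ (-δ)) *
          Real.exp (TT g (Real.exp (j i₀)))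
        ≤ C' * (2 ^ (∑ i, j i) * (∏ i, (1 + j i : ℝ)⁻¹) * (1 + j i₀ : ℝ) ^ (-δ)) *
          (Real.exp A2 * Real.exp (TT g N)) := mul_le_mul_of_nonneg_left h5 h6
      _ = _ := by ring
  have h7 : (∑ j ∈ (N8A_J ι N).filter (GdJ g K), (Nat.card {x : Co g → ℤ // Bx g (2 * C₀) j x ∧ Loc g M x} : ℝ)) ≤
      (C' * Real.exp A2 * Real.exp (TT g N)) * (A1 * N / Real.log N ^ (1 + δ / 2)) := by
    refine (Finset.sum_le_sum hlay).trans ?_
    rw [← Finset.mul_sum]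
    refine mul_le_mul_of_nonneg_left ?_ (by positivity)
    refine le_trans (Finset.sum_le_sum_of_subset_of_nonneg (Finset.filter_subset _ _) fun j _ _ => ?_) (hsum N hN)
    positivity
  have h8 : (Nat.card {D : ℤ // Squarefree D ∧ |D| ≤ (N : ℤ) ∧ ∃ (g0 : ℤ) (e : ι → ℕ) (x : Co g → ℤ),
        Dat g C₀ M D g0 e x ∧ GdJ g K (fun i => Nat.log 2 (e i))} : ℝ) ≤
      ((Icc (-(M : ℤ)) M).card : ℝ) * ∑ j ∈ (N8A_J ι N).filter (GdJ g K),
        (Nat.card {x : Co g → ℤ // Bx g (2 * C₀) j x ∧ Loc g M x} : ℝ) := by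
    exact_mod_cast N8A_count hg C₀ hC M hM (GdJ g K) N
  have hE : 0 ≤ N / Real.log N ^ (1 + δ / 2) * Real.exp (TT g N) := by positivity
  calc (Nat.card {D : ℤ // Squarefree D ∧ |D| ≤ (N : ℤ) ∧ ∃ (g0 : ℤ) (e : ι → ℕ) (x : Co g → ℤ),
        Dat g C₀ M D g0 e x ∧ GdJ g K (fun i => Nat.log 2 (e i))} : ℝ)
      ≤ ((Icc (-(M : ℤ)) M).card : ℝ) *
          ((C' * Real.exp A2 * Real.exp (TT g N)) * (A1 * N / Real.log N ^ (1 + δ / 2))) :=
        h8.trans (mul_le_mul_of_nonneg_left h7 (Nat.cast_nonneg _))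
    _ = (((Icc (-(M : ℤ)) M).card : ℝ) * (C' * Real.exp A2 * A1)) *
          (N / Real.log N ^ (1 + δ / 2) * Real.exp (TT g N)) := by
        ring
    _ ≤ (((Icc (-(M : ℤ)) M).card : ℝ) * (C' * Real.exp A2 * A1) + 1) *
        (N / Real.log N ^ (1 + δ / 2) * Real.exp (TT g N)) :=
        mul_le_mul_of_nonneg_right (by linarith) hE
    _ = _ := by ring

end EN
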