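import Pool.Agent.Lib.MP_10e784_agN2.N6
import Pool.Agent.Lib.MP_10e784_agN2.N7

/-!
LEAF N8B (medium).  The bad layers.

Let `D` be in the set, with data `(g0, e, x)`, `j i = Nat.log 2 (e i)`, not `GdJ g K j`.  The index type is nonempty (`hg.six`); let `i₀` be an index with `j i₀` maximal.  Then `(g i₀).natDegree = 2` (`h2` and not
`3 ≤ natDegree`), and `j i < (j i₀) ^ (1 - 1/K)` for all `i ≠ i₀`.  Let `l` be the index of `hN` for `i₀` and `R₁ = Inr (g i₀) (g l) ⊆ RP g` (`RP`: some `g i` has a root modulo `p`).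
Claim: every prime `p ∣ D`, `p ∤ M`, is in `RP g`, and if `zN K N < p` then `p ∉ R₁`.  Indeed `p ∣ g0 ∏ e i`, `g0 ∣ M`, so `p ∣ e i` for some `i`; by the last item of the data some monic
irreducible `h` divides `red p (g i)` and `pol g x i` modulo `p`.  `Loc g M x` gives `Al g p _`: its first alternative is excluded; in the second one (with `i₀', t, s`) `h ≠ X - C t` is excluded, so
`h = X - C t ∣ red p (g i)`: `PT.rt (g i) p ≥ 1` and `p ∈ RP g`.  If `i ≠ i₀` then `p ≤ e i < 2 ^ (j i + 1) ≤ 2 * 2 ^ ((j i₀) ^ (1 - 1/K)) ≤ zN K N` because `2 ^ (j i₀) ≤ e i₀ ≤ N`, `j i₀ ≤ log N / log 2`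
(`p ≤ e i` since `e i ≠ 0`).  So for `zN K N < p` we have `i = i₀`, `PT.rt (g i₀) p ≥ 1` and `p ∉ R₁`.
So the set is contained in the union over the `i₀` with `natDegree (g i₀) = 2` of the sets of `few` (`R₁ = Inr (g i₀) (g l)`, `c, A` from `inert_low`, `qq (g i)` is irreducible by `hg.irr`), its number is at
most the sum of the finitely many bounds `A_k (N / (log N) ^ (1 + δ_k)) exp (TT g N)`: take `δ = min δ_k` (or `1` if there are none) and `(log N) ^ (-δ_k) ≤ (log 2) ^ (- δ_k) .. (log N) ^ (-δ)`, that is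
`(log N / log 2) ^ (-δ_k) ≤ (log N / log 2) ^ (-δ)` for `N ≥ 2`.
Private lemmas: prefix `N8B_`.
-/

set_option autoImplicit false

namespace EN

open Polynomial Finset TW EL

private lemma N8B_rt {G : ℤ[X]} {p : ℕ} (hp : p.Prime) {t : ZMod p}
    (h : (G.map (Int.castRingHom (ZMod p))).eval t = 0) : 1 ≤ PT.rt G p := by
  have : Fact p.Prime := ⟨hp⟩
  unfold PT.rt
  have : Nonempty {ρ : ZMod p // (G.map (Int.castRingHom (ZMod p))).eval ρ = 0} := ⟨⟨t, h⟩⟩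
  exact Nat.card_pos

private lemma N8B_RP {ι : Type} [Fintype ι] (g : ι → ℤ[X]) {p : ℕ} {i : ι}
    (h : 1 ≤ PT.rt (g i) p) : p ∈ RP g := by
  show 1 ≤ TW.rts g univ p
  unfold TW.rts
  exact h.trans (Finset.single_le_sum (f := fun i => PT.rt (g i) p) (fun _ _ => Nat.zero_le _)
    (mem_univ i))

private lemma N8B_root {ι : Type} [Fintype ι] {g : ι → ℤ[X]} {C₀ : ℝ} {M : ℕ} {D g0 : ℤ}
    {e : ι → ℕ} {x : Co g → ℤ} (hd : Dat g C₀ M D g0 e x) {p : ℕ} (hp : p.Prime) (hpM : ¬ p ∣ M)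
    {i : ι} (hi : p ∣ e i) : 1 ≤ PT.rt (g i) p := by
  obtain ⟨-, -, -, -, -, hloc, hlast⟩ := hd
  obtain ⟨h, hm, hirr, hdv, hpol⟩ := (hlast p hp hpM i).1 hi
  rcases hloc p hp hpM with h1 | ⟨i', t, s, -, -, -, h3⟩
  · exact absurd hpol (h1 i h hm hirr hdv)
  · by_cases hh : h = X - C t
    · subst hh
      have h4 : (red p (g i)).eval t = 0 := Polynomial.dvd_iff_isRoot.1 hdv
      exact N8B_rt hp h4
    · exact absurd hpol (h3 i h hm hirr hdv hh).1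

private lemma N8B_dvd {ι : Type} [Fintype ι] {g : ι → ℤ[X]} {C₀ : ℝ} {M : ℕ} {D g0 : ℤ}
    {e : ι → ℕ} {x : Co g → ℤ} (hd : Dat g C₀ M D g0 e x) {p : ℕ} (hp : p.Prime) (hpM : ¬ p ∣ M)
    (hpD : (p : ℤ) ∣ D) : ∃ i, p ∣ e i := by
  obtain ⟨hg0, hD, -, -, -, -, -⟩ := hd
  rw [hD] at hpD
  rcases (Nat.prime_iff_prime_int.1 hp).dvd_or_dvd hpD with h1 | h1
  · exact absurd ((Int.natCast_dvd.1 h1).trans hg0) hpM
  · obtain ⟨i, -, hi⟩ := (Nat.prime_iff_prime_int.1 hp).exists_mem_finset_dvd h1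
    exact ⟨i, Int.natCast_dvd_natCast.1 hi⟩

private lemma N8B_le {ι : Type} [Fintype ι] {g : ι → ℤ[X]} {C₀ : ℝ} {M : ℕ} {D g0 : ℤ}
    {e : ι → ℕ} {x : Co g → ℤ} (hd : Dat g C₀ M D g0 e x) {N : ℕ} (hsq : Squarefree D)
    (hDN : |D| ≤ (N : ℤ)) (i : ι) : e i ≠ 0 ∧ e i ≤ N := by
  obtain ⟨-, hD, -, -, -, -, -⟩ := hd
  have hD0 : D ≠ 0 := hsq.ne_zero
  have h1 : (e i : ℤ) ∣ D := by
    rw [hD]
    exact Dvd.dvd.mul_left (Finset.dvd_prod_of_mem (fun i => (e i : ℤ)) (mem_univ i)) _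
  constructor
  · intro h0
    rw [h0, Nat.cast_zero, zero_dvd_iff] at h1
    exact hD0 h1
  · have h2 : (e i : ℤ) ≤ |D| := Int.le_of_dvd (abs_pos.2 hD0) ((dvd_abs _ _).2 h1)
    exact_mod_cast h2.trans hDN

private lemma N8B_small {N K a b q : ℕ} (hK : 2 ≤ K) (hN : 2 ≤ N) (hb : 2 ^ b ≤ N)
    (hab : (a : ℝ) < (b : ℝ) ^ (1 - 1 / (K : ℝ))) (hq : q < 2 ^ (a + 1)) : (q : ℝ) ≤ zN K N := by
  have hl2 : 0 < Real.log 2 := Real.log_pos (by norm_num)
  have hN0 : (0 : ℝ) < N := by exact_mod_cast (by omega : 0 < N)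
  have h1 : (b : ℝ) ≤ Real.log N / Real.log 2 := by
    rw [le_div_iff₀ hl2, ← Real.log_pow]
    exact Real.log_le_log (by positivity) (by exact_mod_cast hb)
  have hK0 : (2 : ℝ) ≤ K := by exact_mod_cast hK
  have hexp : (0 : ℝ) ≤ 1 - 1 / (K : ℝ) := by
    have : 1 / (K : ℝ) ≤ 1 := by
      rw [div_le_one (by linarith)]
      linarith
    linarith
  have h2 : (a : ℝ) ≤ (Real.log N / Real.log 2) ^ (1 - 1 / (K : ℝ)) :=
    hab.le.trans (Real.rpow_le_rpow (Nat.cast_nonneg _) h1 hexp)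
  have h3 : (q : ℝ) ≤ 2 * (2 : ℝ) ^ (a : ℝ) := by
    rw [Real.rpow_natCast, mul_comm, ← pow_succ]
    exact_mod_cast hq.le
  refine h3.trans ?_
  unfold zN
  exact mul_le_mul_of_nonneg_left (Real.rpow_le_rpow_of_exponent_le (by norm_num) h2) (by norm_num)

private lemma N8B_core {ι : Type} [Fintype ι] {g : ι → ℤ[X]} {C₀ : ℝ} {M K : ℕ} (hK : 2 ≤ K)
    {N : ℕ} (hN : 2 ≤ N) {D g0 : ℤ} {e : ι → ℕ} {x : Co g → ℤ} (hd : Dat g C₀ M D g0 e x)
    (hsq : Squarefree D) (hDN : |D| ≤ (N : ℤ)) (i₀ l : ι)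
    (hlt : ∀ i, i ≠ i₀ → (Nat.log 2 (e i) : ℝ) < (Nat.log 2 (e i₀) : ℝ) ^ (1 - 1 / (K : ℝ)))
    {p : ℕ} (hp : p.Prime) (hpD : (p : ℤ) ∣ D) (hpM : ¬ p ∣ M) :
    p ∈ RP g ∧ (zN K N < p → p ∉ Inr (g i₀) (g l)) := by
  obtain ⟨i, hi⟩ := N8B_dvd hd hp hpM hpD
  have hr := N8B_root hd hp hpM hi
  refine ⟨N8B_RP g hr, fun hz hR => ?_⟩
  by_cases h : i = i₀
  · subst h
    have h1 : PT.rt (g i) p = 0 := hR.2
    omega
  · have hei := N8B_le hd hsq hDN i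
    have he0 := N8B_le hd hsq hDN i₀
    have hpe : p ≤ e i := Nat.le_of_dvd (Nat.pos_of_ne_zero hei.1) hi
    have h5 : (p : ℝ) ≤ zN K N :=
      N8B_small hK hN ((Nat.pow_log_le_self 2 he0.1).trans he0.2) (hlt i h)
        (hpe.trans_lt (Nat.lt_pow_succ_log_self (by norm_num) (e i)))
    exact absurd hz (not_lt.2 h5)

private lemma N8B_card {N : ℕ} (P : ℤ → Prop) [DecidablePred P] (h : ∀ D, P D → |D| ≤ (N : ℤ)) :
    Nat.card {D : ℤ // P D} = ((Finset.Icc (-(N : ℤ)) N).filter P).card := by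
  have h1 : ∀ D, D ∈ (Finset.Icc (-(N : ℤ)) N).filter P ↔ P D := by
    intro D
    rw [Finset.mem_filter, Finset.mem_Icc]
    exact ⟨fun h => h.2, fun hP => ⟨abs_le.1 (h D hP), hP⟩⟩
  exact Nat.subtype_card _ h1

private lemma N8B_num {N : ℕ} (hN : 2 ≤ N) {δ d : ℝ} (h : δ ≤ d) (hδ : 0 < δ) {a T : ℝ} (ha : 0 < a)
    (hT : 0 < T) : a * (N / Real.log N ^ (1 + d)) * T ≤
      a * Real.log 2 ^ (-d) * (N / Real.log N ^ (1 + δ)) * T := by
  have hl2 : 0 < Real.log 2 := Real.log_pos (by norm_num)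
  have hl2' : Real.log 2 < 1 := by
    have := Real.log_two_lt_d9
    linarith
  have hN0 : (0 : ℝ) < N := by exact_mod_cast (by omega : 0 < N)
  have hlN : Real.log 2 ≤ Real.log N := Real.log_le_log (by norm_num) (by exact_mod_cast hN)
  have hlN0 : 0 < Real.log N := hl2.trans_le hlN
  have h1 : Real.log 2 ^ d ≤ Real.log N ^ (d - δ) := by
    calc Real.log 2 ^ d ≤ Real.log 2 ^ (d - δ) :=
          Real.rpow_le_rpow_of_exponent_ge hl2 hl2'.le (by linarith)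
      _ ≤ Real.log N ^ (d - δ) := Real.rpow_le_rpow hl2.le hlN (by linarith)
  have h2 : Real.log 2 ^ d * Real.log N ^ (1 + δ) ≤ Real.log N ^ (1 + d) := by
    calc Real.log 2 ^ d * Real.log N ^ (1 + δ)
        ≤ Real.log N ^ (d - δ) * Real.log N ^ (1 + δ) :=
          mul_le_mul_of_nonneg_right h1 (Real.rpow_nonneg hlN0.le _)
      _ = Real.log N ^ (1 + d) := by
          rw [← Real.rpow_add hlN0]
          apply congrArg
          ring
  have h3 : (N : ℝ) / Real.log N ^ (1 + d) ≤ Real.log 2 ^ (-d) * (N / Real.log N ^ (1 + δ)) := by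
    rw [Real.rpow_neg hl2.le, div_le_iff₀ (Real.rpow_pos_of_pos hlN0 _)]
    have hA : 0 < Real.log 2 ^ d := Real.rpow_pos_of_pos hl2 _
    have hB : 0 < Real.log N ^ (1 + δ) := Real.rpow_pos_of_pos hlN0 _
    have h4 : (N : ℝ) = (Real.log 2 ^ d)⁻¹ * (N / Real.log N ^ (1 + δ)) *
        (Real.log 2 ^ d * Real.log N ^ (1 + δ)) := by
      field_simp
    calc (N : ℝ) = (Real.log 2 ^ d)⁻¹ * (N / Real.log N ^ (1 + δ)) *
        (Real.log 2 ^ d * Real.log N ^ (1 + δ)) := h4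
      _ ≤ _ := mul_le_mul_of_nonneg_left h2 (by positivity)
  calc a * (N / Real.log N ^ (1 + d)) * T
      ≤ a * (Real.log 2 ^ (-d) * (N / Real.log N ^ (1 + δ))) * T :=
        mul_le_mul_of_nonneg_right (mul_le_mul_of_nonneg_left h3 ha.le) hT.le
    _ = _ := by ring

theorem bad_part {ι : Type} [Fintype ι] [DecidableEq ι] {g : ι → ℤ[X]} (hg : Fam g) (h2 : ∀ i, 2 ≤ (g i).natDegree)
    (hN : NoNorm g) (C₀ : ℝ) (M K : ℕ) (hM : M ≠ 0) (hK : 2 ≤ K) :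
    ∃ A δ : ℝ, 0 < A ∧ 0 < δ ∧ ∀ N : ℕ, 2 ≤ N →
      (Nat.card {D : ℤ // Squarefree D ∧ |D| ≤ (N : ℤ) ∧ ∃ (g0 : ℤ) (e : ι → ℕ) (x : Co g → ℤ),
        Dat g C₀ M D g0 e x ∧ ¬ GdJ g K (fun i => Nat.log 2 (e i))} : ℝ) ≤
        A * (N / Real.log N ^ (1 + δ)) * Real.exp (TT g N) := by
  classical
  have hne : Nonempty ι := by
    by_contra h
    rw [not_nonempty_iff] at h
    have := hg.six
    simp at this
  have key : ∀ k : ι, ∃ (l : ι) (a d : ℝ), 0 < a ∧ 0 < d ∧ ((g k).natDegree = 2 → ∀ N : ℕ, 2 ≤ N →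
      (Nat.card {D : ℤ // Squarefree D ∧ |D| ≤ (N : ℤ) ∧ ∀ p : ℕ, p.Prime → (p : ℤ) ∣ D → ¬ p ∣ M →
        p ∈ RP g ∧ (zN K N < p → p ∉ Inr (g k) (g l))} : ℝ) ≤
          a * (N / Real.log N ^ (1 + d)) * Real.exp (TT g N)) := by
    intro k
    by_cases hk : (g k).natDegree = 2
    · obtain ⟨l, hl⟩ := hN k hk
      obtain ⟨c, A, hc, hA, hR⟩ := inert_low (g k) (g l) (hg.monic k) (hg.monic l) (hg.irr k)
        (hg.irr l) hk hl
      obtain ⟨a, d, ha, hd, hb⟩ := few g (Inr (g k) (g l)) (fun p hp => N8B_RP g hp.1) K M hK hM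
        c A hc hA hR
      exact ⟨l, a, d, ha, hd, fun _ => hb⟩
    · exact ⟨k, 1, 1, one_pos, one_pos, fun h => absurd h hk⟩
  choose l a d ha hd hb using key
  obtain ⟨k₀, -, hk₀⟩ := Finset.exists_min_image (univ : Finset ι) d ⟨hne.some, mem_univ _⟩
  have hl2 : 0 < Real.log 2 := Real.log_pos (by norm_num)
  refine ⟨1 + ∑ k, a k * Real.log 2 ^ (-d k), d k₀, ?_, hd k₀, ?_⟩
  · have : 0 ≤ ∑ k, a k * Real.log 2 ^ (-d k) :=
      Finset.sum_nonneg fun k _ => mul_nonneg (ha k).le (Real.rpow_nonneg hl2.le _)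
    linarith
  intro N hN2
  have hN0 : (0 : ℝ) < N := by exact_mod_cast (by omega : 0 < N)
  have hlN0 : 0 < Real.log N := Real.log_pos (by exact_mod_cast (by omega : 1 < N))
  have hE : 0 < Real.exp (TT g N) := Real.exp_pos _
  let S : ι → Finset ℤ := fun k => (Finset.Icc (-(N : ℤ)) N).filter fun D =>
    Squarefree D ∧ |D| ≤ (N : ℤ) ∧ ∀ p : ℕ, p.Prime → (p : ℤ) ∣ D → ¬ p ∣ M →
        p ∈ RP g ∧ (zN K N < p → p ∉ Inr (g k) (g (l k)))
  have hS : ∀ k, (Nat.card {D : ℤ // Squarefree D ∧ |D| ≤ (N : ℤ) ∧ ∀ p : ℕ, p.Prime → (p : ℤ) ∣ D →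
      ¬ p ∣ M → p ∈ RP g ∧ (zN K N < p → p ∉ Inr (g k) (g (l k)))}) = (S k).card :=
    fun k => N8B_card _ fun D h => h.2.1
  rw [N8B_card (N := N) (fun D : ℤ => Squarefree D ∧ |D| ≤ (N : ℤ) ∧
    ∃ (g0 : ℤ) (e : ι → ℕ) (x : Co g → ℤ), Dat g C₀ M D g0 e x ∧
      ¬ GdJ g K (fun i => Nat.log 2 (e i))) fun D h => h.2.1]
  have hsub : (Finset.Icc (-(N : ℤ)) N).filter (fun D : ℤ => Squarefree D ∧ |D| ≤ (N : ℤ) ∧
      ∃ (g0 : ℤ) (e : ι → ℕ) (x : Co g → ℤ), Dat g C₀ M D g0 e x ∧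
        ¬ GdJ g K (fun i => Nat.log 2 (e i))) ⊆
      ((univ : Finset ι).filter fun k => (g k).natDegree = 2).biUnion S := by
    intro D hD
    rw [Finset.mem_filter] at hD
    obtain ⟨hI, hsq, hDN, g0, e, x, hdat, hnot⟩ := hD
    obtain ⟨i₀, -, hi₀⟩ := Finset.exists_max_image (univ : Finset ι) (fun i => Nat.log 2 (e i))
      ⟨hne.some, mem_univ _⟩
    have hmax : ∀ i, Nat.log 2 (e i) ≤ Nat.log 2 (e i₀) := fun i => hi₀ i (mem_univ i)
    have hdeg : (g i₀).natDegree = 2 := by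
      by_contra h
      exact hnot ⟨i₀, hmax, Or.inl (by have := h2 i₀; omega)⟩
    have hlt : ∀ i, i ≠ i₀ →
        (Nat.log 2 (e i) : ℝ) < (Nat.log 2 (e i₀) : ℝ) ^ (1 - 1 / (K : ℝ)) := by
      intro i hi
      by_contra h
      exact hnot ⟨i₀, hmax, Or.inr ⟨i, hi, not_lt.1 h⟩⟩
    rw [Finset.mem_biUnion]
    refine ⟨i₀, Finset.mem_filter.2 ⟨mem_univ _, hdeg⟩, Finset.mem_filter.2 ⟨hI, hsq, hDN, ?_⟩⟩
    intro p hp hpD hpM
    exact N8B_core hK hN2 hdat hsq hDN i₀ (l i₀) hlt hp hpD hpM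
  have hcard : (((Finset.Icc (-(N : ℤ)) N).filter (fun D : ℤ => Squarefree D ∧ |D| ≤ (N : ℤ) ∧
      ∃ (g0 : ℤ) (e : ι → ℕ) (x : Co g → ℤ), Dat g C₀ M D g0 e x ∧
        ¬ GdJ g K (fun i => Nat.log 2 (e i)))).card : ℝ) ≤
      ∑ k ∈ (univ : Finset ι).filter (fun k => (g k).natDegree = 2), ((S k).card : ℝ) := by
    exact_mod_cast (Finset.card_le_card hsub).trans Finset.card_biUnion_le
  refine hcard.trans ?_
  have hX : 0 ≤ (N / Real.log N ^ (1 + d k₀)) * Real.exp (TT g N) := by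
    have := Real.rpow_pos_of_pos hlN0 (1 + d k₀)
    positivity
  calc ∑ k ∈ (univ : Finset ι).filter (fun k => (g k).natDegree = 2), ((S k).card : ℝ)
      ≤ ∑ k ∈ (univ : Finset ι).filter (fun k => (g k).natDegree = 2),
        a k * Real.log 2 ^ (-d k) * (N / Real.log N ^ (1 + d k₀)) * Real.exp (TT g N) := by
        apply Finset.sum_le_sum
        intro k hk
        rw [Finset.mem_filter] at hk
        have h1 := hb k hk.2 N hN2
        rw [hS k] at h1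
        exact h1.trans (N8B_num hN2 (hk₀ k (mem_univ k)) (hd k₀) (ha k) hE)
    _ ≤ ∑ k, a k * Real.log 2 ^ (-d k) * (N / Real.log N ^ (1 + d k₀)) * Real.exp (TT g N) := by
        apply Finset.sum_le_sum_of_subset_of_nonneg (Finset.filter_subset _ _)
        intro k _ _
        rw [mul_assoc]
        exact mul_nonneg (mul_nonneg (ha k).le (Real.rpow_nonneg hl2.le _)) hX
    _ = (∑ k, a k * Real.log 2 ^ (-d k)) * ((N / Real.log N ^ (1 + d k₀)) *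
        Real.exp (TT g N)) := by
        rw [Finset.sum_mul]
        apply Finset.sum_congr rfl
        intro k _
        ring
    _ ≤ (1 + ∑ k, a k * Real.log 2 ^ (-d k)) * ((N / Real.log N ^ (1 + d k₀)) *
        Real.exp (TT g N)) := mul_le_mul_of_nonneg_right (by linarith) hX
    _ = _ := by ring

end EN
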