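import Pool.Agent.Lib.MP_10e784_agN2.N4
import Pool.Agent.Lib.MP_10e784_agN2.N8A
import Pool.Agent.Lib.MP_10e784_agN2.N8B
import Pool.Agent.Lib.MP_10e784_ag.TW.TWDesc

/-!
LEAF N8 (easy+).  The upper bound for the twists with a rational point.

`C₀, M` from `TW.desc hg a ha`; `C', δ1, K` from `sv3 hg h2 M hM (2 * C₀)`; `A1` from `good_part` (exponent `δ1 / 2`), `A2, δ2` from `bad_part`.  By `desc` every `D` of the set has data
`Dat g C₀ M D g0 e x`, and `GdJ g K _` or not: the number is at most the sum of the two numbers (the sets are finite, contained in `|D| ≤ N`).  With `δ = min (δ1/2) δ2`: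
`(log N) ^ (-δ_k) = (log 2) ^ (-δ_k) (log N / log 2) ^ (-δ_k) ≤ (log 2) ^ (-δ_k) (log N / log 2) ^ (-δ)`, as `log N / log 2 ≥ 1`.
Private lemmas: prefix `N8_`.
-/

set_option autoImplicit false

namespace EN

open Polynomial Finset TW EL

private theorem N8_cmp (N L l δ δk : ℝ) (hN : 0 ≤ N) (hl : 0 < l) (hL : l ≤ L) (h : δ ≤ δk) :
    N / L ^ (1 + δk) ≤ l ^ (δ - δk) * (N / L ^ (1 + δ)) := by
  have hL0 : 0 < L := hl.trans_le hL
  have h1 : L ^ (1 + δk) = L ^ (1 + δ) * L ^ (δk - δ) := by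
    rw [← Real.rpow_add hL0]
    ring_nf
  have h2 : l ^ (δk - δ) ≤ L ^ (δk - δ) := Real.rpow_le_rpow hl.le hL (by linarith)
  have h3 : 0 < l ^ (δk - δ) := Real.rpow_pos_of_pos hl _
  have h4 : 0 < L ^ (1 + δ) := Real.rpow_pos_of_pos hL0 _
  have h5 : l ^ (δ - δk) = (l ^ (δk - δ))⁻¹ := by
    rw [← Real.rpow_neg hl.le]
    ring_nf
  rw [h1, h5, ← div_div, div_eq_inv_mul]
  exact mul_le_mul_of_nonneg_right (inv_anti₀ h3 h2) (div_nonneg hN h4.le)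

private theorem N8_fin (N : ℕ) (P : ℤ → Prop) : Finite {D : ℤ // Squarefree D ∧ |D| ≤ (N : ℤ) ∧ P D} := by
  have h : Finite {D : ℤ // D ∈ Set.Icc (-(N : ℤ)) N} := (Set.finite_Icc _ _).to_subtype
  refine Finite.of_injective (β := {D : ℤ // D ∈ Set.Icc (-(N : ℤ)) N}) (fun D => ⟨D.1, abs_le.1 D.2.2.1⟩) ?_
  intro D D' h
  have := congrArg Subtype.val h
  exact Subtype.ext this

private theorem N8_split (N : ℕ) (P Q R : ℤ → Prop) (h : ∀ D : ℤ, Squarefree D → P D → Q D ∨ R D) :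
    Nat.card {D : ℤ // Squarefree D ∧ |D| ≤ (N : ℤ) ∧ P D} ≤
      Nat.card {D : ℤ // Squarefree D ∧ |D| ≤ (N : ℤ) ∧ Q D} +
      Nat.card {D : ℤ // Squarefree D ∧ |D| ≤ (N : ℤ) ∧ R D} := by
  classical
  have h1 := N8_fin N Q
  have h2 := N8_fin N R
  rw [← Nat.card_sum]
  refine Nat.card_le_card_of_injective (fun D : {D : ℤ // Squarefree D ∧ |D| ≤ (N : ℤ) ∧ P D} =>
    if h7 : Q D.1 then Sum.inl ⟨D.1, D.2.1, D.2.2.1, h7⟩ else
      Sum.inr ⟨D.1, D.2.1, D.2.2.1, (h D.1 D.2.1 D.2.2.2).resolve_left h7⟩) ?_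
  intro D D' hD
  simp only at hD
  by_cases h7 : Q D.1
  · by_cases h8 : Q D'.1
    · rw [dif_pos h7, dif_pos h8] at hD
      have := congrArg Subtype.val (Sum.inl.inj hD)
      exact Subtype.ext this
    · rw [dif_pos h7, dif_neg h8] at hD
      exact absurd hD (by simp)
  · by_cases h8 : Q D'.1
    · rw [dif_neg h7, dif_pos h8] at hD
      exact absurd hD (by simp)
    · rw [dif_neg h7, dif_neg h8] at hD
      have := congrArg Subtype.val (Sum.inr.inj hD)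
      exact Subtype.ext this

theorem upper3 {ι : Type} [Fintype ι] [DecidableEq ι] {g : ι → ℤ[X]} (hg : Fam g) (h2 : ∀ i, 2 ≤ (g i).natDegree)
    (hN : NoNorm g) (a : ℤ) (ha : a ≠ 0) :
    ∃ A δ : ℝ, 0 < A ∧ 0 < δ ∧ ∀ N : ℕ, 2 ≤ N →
      (Nat.card {D : ℤ // Squarefree D ∧ |D| ≤ (N : ℤ) ∧ ∃ u v : ℤ, IsCoprime u v ∧
        (∀ i, PT.hom (g i) u v ≠ 0) ∧ IsSquare (D * a * ∏ i, PT.hom (g i) u v)} : ℝ) ≤
        A * (N / Real.log N ^ (1 + δ)) * Real.exp (TT g N) := by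
  obtain ⟨C₀, M, hC0, hM, hdesc⟩ := TW.desc hg a ha
  obtain ⟨C', δ1, K, hδ1, hC', hK, hsv⟩ := sv3 hg h2 M hM (2 * C₀) (by linarith)
  obtain ⟨A1, hA1, hgood⟩ := good_part hg C₀ hC0 M K hM C' δ1 hδ1 hC' hsv
  obtain ⟨A2, δ2, hA2, hδ2, hbad⟩ := bad_part hg h2 hN C₀ M K hM hK
  have hl2 : 0 < Real.log 2 := Real.log_pos (by norm_num)
  set δ : ℝ := min (δ1 / 2) δ2 with hδ
  refine ⟨A1 * Real.log 2 ^ (δ - δ1 / 2) + A2 * Real.log 2 ^ (δ - δ2), δ, ?_, lt_min (by linarith) hδ2, ?_⟩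
  · have h5 : 0 < Real.log 2 ^ (δ - δ1 / 2) := Real.rpow_pos_of_pos hl2 _
    have h6 : 0 < Real.log 2 ^ (δ - δ2) := Real.rpow_pos_of_pos hl2 _
    positivity
  · intro N hN2
    have hN2' : (2 : ℝ) ≤ N := by exact_mod_cast hN2
    have hlog : Real.log 2 ≤ Real.log N := Real.log_le_log (by norm_num) hN2'
    have hc := N8_split N (fun D => ∃ u v : ℤ, IsCoprime u v ∧
        (∀ i, PT.hom (g i) u v ≠ 0) ∧ IsSquare (D * a * ∏ i, PT.hom (g i) u v))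
      (fun D => ∃ (g0 : ℤ) (e : ι → ℕ) (x : Co g → ℤ),
        Dat g C₀ M D g0 e x ∧ GdJ g K (fun i => Nat.log 2 (e i)))
      (fun D => ∃ (g0 : ℤ) (e : ι → ℕ) (x : Co g → ℤ),
        Dat g C₀ M D g0 e x ∧ ¬ GdJ g K (fun i => Nat.log 2 (e i))) (by
      rintro D hD ⟨u, v, huv, h0, hsq⟩
      obtain ⟨g0, e, x, a1, a2, a3, a4, a5, a6, a7, -⟩ := hdesc D hD u v huv h0 hsq
      by_cases hG : GdJ g K (fun i => Nat.log 2 (e i))
      · exact Or.inl ⟨g0, e, x, ⟨a1, a2, a3, a4, a5, a6, a7⟩, hG⟩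
      · exact Or.inr ⟨g0, e, x, ⟨a1, a2, a3, a4, a5, a6, a7⟩, hG⟩)
    have hcR : (Nat.card {D : ℤ // Squarefree D ∧ |D| ≤ (N : ℤ) ∧ ∃ u v : ℤ, IsCoprime u v ∧
        (∀ i, PT.hom (g i) u v ≠ 0) ∧ IsSquare (D * a * ∏ i, PT.hom (g i) u v)} : ℝ) ≤
        (Nat.card {D : ℤ // Squarefree D ∧ |D| ≤ (N : ℤ) ∧ ∃ (g0 : ℤ) (e : ι → ℕ) (x : Co g → ℤ),
          Dat g C₀ M D g0 e x ∧ GdJ g K (fun i => Nat.log 2 (e i))} : ℝ) +
        (Nat.card {D : ℤ // Squarefree D ∧ |D| ≤ (N : ℤ) ∧ ∃ (g0 : ℤ) (e : ι → ℕ) (x : Co g → ℤ),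
          Dat g C₀ M D g0 e x ∧ ¬ GdJ g K (fun i => Nat.log 2 (e i))} : ℝ) := by
      exact_mod_cast hc
    have b1 := hgood N hN2
    have b2 := hbad N hN2
    have hexp : 0 < Real.exp (TT g N) := Real.exp_pos _
    have d1 := N8_cmp N (Real.log N) (Real.log 2) δ (δ1 / 2) (by linarith) hl2 hlog (min_le_left _ _)
    have d2 := N8_cmp N (Real.log N) (Real.log 2) δ δ2 (by linarith) hl2 hlog (min_le_right _ _)
    calc _ ≤ _ := hcR
      _ ≤ A1 * (N / Real.log N ^ (1 + δ1 / 2)) * Real.exp (TT g N) +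
          A2 * (N / Real.log N ^ (1 + δ2)) * Real.exp (TT g N) := add_le_add b1 b2
      _ ≤ A1 * (Real.log 2 ^ (δ - δ1 / 2) * (N / Real.log N ^ (1 + δ))) * Real.exp (TT g N) +
          A2 * (Real.log 2 ^ (δ - δ2) * (N / Real.log N ^ (1 + δ))) * Real.exp (TT g N) :=
        add_le_add (mul_le_mul_of_nonneg_right (mul_le_mul_of_nonneg_left d1 hA1.le) hexp.le)
          (mul_le_mul_of_nonneg_right (mul_le_mul_of_nonneg_left d2 hA2.le) hexp.le)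
      _ = (A1 * Real.log 2 ^ (δ - δ1 / 2) + A2 * Real.log 2 ^ (δ - δ2)) * (N / Real.log N ^ (1 + δ)) *
          Real.exp (TT g N) := by ring

end EN
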